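import Pool.Agent.Helper77.AR.Gamma

/-!
# The homeomorphisms `γS q` are asymptotically rigid and preserve the orientation
-/

open Set Topology Metric
open scoped unitInterval

namespace Pool.Agent.Helper77.AR

/-! ## Punctures -/

theorem NN_eq (k : ℕ) : NN k = (k : ℝ) + 1 := rfl

theorem Φ_of_pie {k : ℕ} {x y : ℝ} (h : pie (NN k) (nn k * x) = y) :
    (Φ k : (ℝ × ℝ) ≃ₜ (ℝ × ℝ)) (x, y) = ((nn k : ℝ)⁻¹ * gg (NN k) (nn k * x), 3) := by
  have h1 : fv (NN k) (nn k * x) y = 3 := by rw [← h, fv_pie (NN_ge k)]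
  rw [Φ_high (by simp only; rw [h1]; norm_num)]
  simp only
  rw [h1]

theorem Φ_old (k : ℕ) (j : ℤ) :
    (Φ k : (ℝ × ℝ) ≃ₜ (ℝ × ℝ)) ((j : ℝ) / nn k, 3) =
      ((((k + 2) * j : ℤ) : ℝ) / nn (k + 1), 3) := by
  have hn := nn_ne k
  have h2 : ((k : ℝ) + 2) ≠ 0 := by positivity
  have h1 : (nn k : ℝ) * (j / nn k) = j := by field_simp
  rw [Φ_of_pie (by rw [h1, pie_int (NN_ge k)]), h1, gg_int, nn_succ']
  ext
  · push_cast
    field_simp
  · rfl

theorem Φ_new {k i : ℕ} (hi : i ≤ k) (j : ℤ) :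
    (Φ k : (ℝ × ℝ) ≃ₜ (ℝ × ℝ)) (pp k j i) =
      ((((k + 2) * j + i + 1 : ℤ) : ℝ) / nn (k + 1), 3) := by
  have hn := nn_ne k
  have h2 : ((k : ℝ) + 2) ≠ 0 := by positivity
  have hi0 : (0 : ℝ) ≤ i := Nat.cast_nonneg i
  have hi' : (i : ℝ) ≤ NN k - 1 := by
    rw [NN_eq]
    have : (i : ℝ) ≤ k := by exact_mod_cast hi
    linarith
  have h1 : (nn k : ℝ) * ((j + xi (NN k) i) / nn k) = j + xi (NN k) i := by field_simp
  unfold pp
  rw [Φ_of_pie (by rw [h1, pie_xi hi0 hi']), h1, gg_xi hi0 hi', nn_succ', NN_eq]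
  ext
  · push_cast
    field_simp
    ring
  · rfl

theorem ψ_cpt (k : ℕ) (j : ℤ) (i : ℕ) : ψ k (cpt k j i) = E (pp k j i) := by
  simp [cpt]

theorem E_periodic {x y : ℝ} (b : ℤ) : E (x + b, y) = E (x, y) :=
  E_eq_iff.mpr ⟨rfl, b, rfl⟩

theorem punct_old (k : ℕ) : ∀ v : Vx, lev v ≤ k → v ≠ .a → v ≠ .b →
    ∃ j : ℤ, ψ k (ppt v) = E ((j : ℝ) / nn k, 3) := by
  induction k with
  | zero =>
    intro v hv ha hb
    match v with
    | .a => exact absurd rfl ha
    | .b => exact absurd rfl hb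
    | .c =>
      refine ⟨0, ?_⟩
      rw [ψ_zero, ppt, E, LL_apply]
      simp only [Int.cast_zero, zero_div, mul_zero]
      rw [Complex.ofReal_exp]
      congr 1
    | .node k j i hj hi => simp [lev] at hv
  | succ k ih =>
    intro v hv ha hb
    rcases Nat.lt_or_ge k (lev v) with h | h
    · have hlev : lev v = k + 1 := by omega
      match v with
      | .a => simp [lev] at h
      | .b => simp [lev] at h
      | .c => simp [lev] at h
      | .node k' j i hj hi =>
        simp only [lev] at hlev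
        obtain rfl : k' = k := by omega
        refine ⟨(k' + 2) * j + i + 1, ?_⟩
        rw [ψ_succ, ppt, ψ_cpt, D_E, Φ_new hi]
    · obtain ⟨j, hj⟩ := ih v h ha hb
      refine ⟨(k + 2) * j, ?_⟩
      rw [ψ_succ, hj, D_E, Φ_old]

theorem punct_new (k : ℕ) : ∀ j : ℤ, ∃ v : Vx, lev v ≤ k ∧
    ψ k (ppt v) = E ((j : ℝ) / nn k, 3) := by
  induction k with
  | zero =>
    intro j
    refine ⟨.c, le_rfl, ?_⟩
    rw [ψ_zero, ppt, nn_zero]
    have h : E ((j : ℝ) / ((1 : ℕ) : ℝ), 3) = E (0, 3) := by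
      have := E_periodic (x := 0) (y := 3) j
      simpa using this
    rw [h, E, LL_apply]
    simp only [mul_zero]
    rw [Complex.ofReal_exp]
    congr 1
  | succ k ih =>
    intro j'
    have hpos : (0 : ℤ) < (k : ℤ) + 2 := by positivity
    have hmod := Int.emod_nonneg j' hpos.ne'
    have hmod2 := Int.emod_lt_of_pos j' hpos
    have hdm := Int.emod_add_mul_ediv j' ((k : ℤ) + 2)
    set r := j' % ((k : ℤ) + 2) with hr
    set j := j' / ((k : ℤ) + 2) with hj
    rcases eq_or_lt_of_le hmod with h0 | h0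
    · obtain ⟨v, hv, hv2⟩ := ih j
      refine ⟨v, by omega, ?_⟩
      rw [ψ_succ, hv2, D_E, Φ_old]
      congr 4
      linarith
    · obtain ⟨i, hi⟩ : ∃ i : ℕ, r = i + 1 := ⟨(r - 1).toNat, by omega⟩
      have hik : i ≤ k := by omega
      have hn : (0 : ℤ) < nn k := by exact_mod_cast nn_pos k
      refine ⟨.node k (rotIdx k j 0) i (rotIdx_lt _ _ _) hik, le_rfl, ?_⟩
      rw [ψ_succ, ppt, ψ_cpt, D_E, Φ_new hik, rotIdx_eq]
      have h1 : ((((k : ℤ) + 2) * (j + 0 - nn k * ((j + 0) / nn k)) + i + 1 : ℤ) : ℝ) /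
          nn (k + 1) = (j' : ℝ) / nn (k + 1) + ((-((j + 0) / nn k) : ℤ) : ℝ) := by
        have h2 : j' = ((k : ℤ) + 2) * j + i + 1 := by linarith
        have h3 : ((k : ℝ) + 2) ≠ 0 := by positivity
        have h4 := nn_ne k
        rw [h2, nn_succ']
        push_cast
        field_simp
        ring
      rw [h1, E_periodic]

theorem rot_punct_core {q : ℚ} {v : Vx} (hv : v = .a ∨ v = .b) : Γ q (ppt v) = ppt v := by
  apply D_of_norm_le
  rcases hv with rfl | rfl
  · simp only [ppt, norm_neg, Complex.norm_real, Real.norm_eq_abs]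
    rw [abs_of_pos (by norm_num)]
    norm_num
  · simp only [ppt, Complex.norm_real, Real.norm_eq_abs]
    rw [abs_of_pos (by norm_num)]
    norm_num

theorem rot_cpt {m : ℕ} {q : ℚ} {a : ℤ} (ha : (nn m : ℝ) * q = a) (j : ℤ) (i : ℕ) :
    Γ q (cpt m j i) = cpt m (rotIdx m j a) i := by
  apply (ψ m).injective
  have hi : (0 : ℝ) ≤ i := Nat.cast_nonneg i
  have hn := nn_ne m
  rw [Γ_apply ⟨a, ha⟩, ψ_cpt, ψ_cpt, pp, rot_E (by linarith), pp, rotIdx_eq]
  have h1 : ((j : ℝ) + xi (NN m) i) / nn m + q = (((j + a - nn m * ((j + a) / nn m) : ℤ) : ℝ) +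
      xi (NN m) i) / nn m + (((j + a) / nn m : ℤ) : ℝ) := by
    rw [show (q : ℝ) = a / nn m by rw [← ha]; field_simp]
    push_cast
    field_simp
    ring
  rw [h1, E_periodic]

theorem rot_punct (q : ℚ) (v : Vx) : ∃ w, Γ q (ppt v) = ppt w := by
  by_cases hv : v = .a ∨ v = .b
  · exact ⟨v, rot_punct_core hv⟩
  · rw [not_or] at hv
    set k := q.den
    have hg := good_rat q
    by_cases hk : lev v ≤ k
    · obtain ⟨j, hj⟩ := punct_old k v hk hv.1 hv.2
      have hg2 : Good k (q : ℝ) := hg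
      obtain ⟨a, ha⟩ := hg2
      obtain ⟨w, -, hw⟩ := punct_new k (j + a)
      refine ⟨w, (ψ k).injective ?_⟩
      rw [Γ_apply hg, hj, rot_E (by norm_num), hw]
      congr 2
      have hn := nn_ne k
      rw [show (q : ℝ) = a / nn k by rw [← ha]; field_simp]
      push_cast
      field_simp
    · obtain ⟨m, j, i, hj, hi, rfl, hkm⟩ := high_vertex hk
      obtain ⟨a, ha⟩ := hg.mono hkm
      exact ⟨.node m (rotIdx m j a) i (rotIdx_lt _ _ _) hi, rot_cpt ha j i⟩

theorem γS_punctures (q : ℚ) : γS q '' RS.punctures = RS.punctures := by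
  have key : ∀ (q : ℚ) (x : RS.Surf), x ∈ RS.punctures → γS q x ∈ RS.punctures := by
    rintro q _ ⟨v, rfl⟩
    obtain ⟨w, hw⟩ := rot_punct q v
    exact ⟨w, Subtype.ext hw.symm⟩
  ext x
  constructor
  · rintro ⟨y, hy, rfl⟩
    exact key q y hy
  · intro hx
    refine ⟨γS (-q) x, key _ _ hx, ?_⟩
    apply Subtype.ext
    rw [γS_coe, γS_coe, Γ_neg']

/-! ## Asymptotic rigidity -/

/-- The finite set of the vertices of level at most `k`. -/
noncomputable def lowF (k : ℕ) : Finset Vx := (finite_lev k).toFinset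

theorem mem_lowF {k : ℕ} {v : Vx} : v ∈ lowF k ↔ lev v ≤ k := by
  simp [lowF]

theorem mem_polys_low (k : ℕ) (x : RS.Surf) :
    x ∈ RS.polys (lowF k) ↔ ‖ψ k x‖ ≤ Real.exp 4 := by
  rw [cover_all]
  simp only [RigidSurface.polys, mem_iUnion, exists_prop]
  constructor
  · rintro ⟨v, hv, hx⟩
    exact ⟨v, mem_lowF.mp hv, hx⟩
  · rintro ⟨v, hv, hx⟩
    exact ⟨v, mem_lowF.mpr hv, hx⟩

theorem low_admissible (k : ℕ) : RS.Admissible (lowF k) := by
  refine ⟨⟨.c, mem_lowF.mpr (Nat.zero_le _)⟩, ?_⟩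
  have h0 : (0 : ℂ) ∈ closedBall (0 : ℂ) (Real.exp 4) :=
    mem_closedBall_self (Real.exp_pos 4).le
  have h1 : IsConnected ((ψ k).symm '' closedBall (0 : ℂ) (Real.exp 4)) :=
    ((convex_closedBall (0 : ℂ) _).isConnected ⟨0, h0⟩).image _ (ψ k).symm.continuous.continuousOn
  have h2 : (Subtype.val : RS.Surf → ℂ) '' RS.polys (lowF k) =
      (ψ k).symm '' closedBall (0 : ℂ) (Real.exp 4) := by
    ext z
    constructor
    · rintro ⟨x, hx, rfl⟩
      rw [mem_polys_low] at hx
      exact ⟨ψ k x, by rw [mem_closedBall, dist_zero_right]; exact hx, by simp⟩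
    · rintro ⟨w, hw, rfl⟩
      rw [mem_closedBall, dist_zero_right] at hw
      have h3 : ‖ψ k ((ψ k).symm w)‖ ≤ Real.exp 4 := by simpa using hw
      obtain ⟨v, hv, hv2⟩ := (cover_all k _).mp h3
      refine ⟨⟨(ψ k).symm w, (mem_surf _).mpr ⟨v, hv2⟩⟩, ?_, rfl⟩
      rw [mem_polys_low]
      exact h3
  refine ⟨?_, ?_⟩
  · have := h1.nonempty
    rw [← h2] at this
    exact this.of_image
  · rw [← Topology.IsInducing.subtypeVal.isPreconnected_image, h2]
    exact h1.isPreconnected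

theorem γS_asympRigid (q : ℚ) : RS.AsympRigid (γS q) := by
  set k := q.den with hk
  have hg := good_rat q
  have himage : ∀ (A B : Set RS.Surf), (∀ x, γS q x ∈ B ↔ x ∈ A) → γS q '' A = B := by
    intro A B h
    ext y
    constructor
    · rintro ⟨x, hx, rfl⟩
      exact (h x).mpr hx
    · intro hy
      obtain ⟨x, rfl⟩ := (γS q).surjective y
      exact ⟨x, (h x).mp hy, rfl⟩
  refine ⟨lowF k, lowF k, low_admissible k, low_admissible k, ?_, ?_⟩
  · apply himage
    intro x
    rw [mem_polys_low, mem_polys_low, γS_coe, Γ_norm hg]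
  · intro v hv
    have hv' : ¬ lev v ≤ k := fun h => hv (mem_lowF.mpr h)
    obtain ⟨m, j, i, hj, hi, rfl, hkm⟩ := high_vertex hv'
    obtain ⟨a, ha⟩ := hg.mono hkm
    refine ⟨.node m (rotIdx m j a) i (rotIdx_lt _ _ _) hi, ?_, ?_⟩
    · intro h
      have h' := mem_lowF.mp h
      simp only [lev] at h'
      omega
    · apply himage
      intro x
      exact rot_pol_image ha j i x

/-! ## Orientation -/

theorem γS_positive (q : ℚ) : RS.Positive (γS q) := by
  intro v r hr h
  set k := q.den with hk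
  have hg := good_rat q
  let K : I × I → ℂ := fun p =>
    (ψ k).symm (D (T ((p.1 : ℝ) * q)) (ψ k (circ (RS.pt v) r p.2))) -
      (ψ k).symm (D (T ((p.1 : ℝ) * q)) (ψ k (RS.pt v)))
  have hc : ∀ f : I × I → ℂ, Continuous f →
      Continuous fun p : I × I => (ψ k).symm (D (T ((p.1 : ℝ) * q)) (ψ k (f p))) := by
    intro f hf
    apply (ψ k).symm.continuous.comp
    have h1 : Continuous fun p : I × I => (((p.1 : ℝ) * q : ℝ), ψ k (f p)) := by
      apply Continuous.prodMk
      · fun_prop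
      · exact (ψ k).continuous.comp hf
    have h2 := continuous_tw.comp h1
    convert h2 using 2 with p
    exact D_T _ _
  have hKc : Continuous K := by
    apply Continuous.sub
    · apply hc
      exact (RigidSurface.continuous_circ (RS.pt v)).comp
        (f := fun p : I × I => (r, p.2)) (by fun_prop)
    · exact hc _ continuous_const
  have hne : ∀ p, K p ≠ 0 := by
    intro p h0
    have h1 := sub_eq_zero.mp h0
    have h2 := (ψ k).injective ((D (T ((p.1 : ℝ) * q))).injective ((ψ k).symm.injective h1))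
    have h3 := norm_circ_sub (RS.pt v) hr p.2
    rw [h2, sub_self, norm_zero] at h3
    exact hr.ne h3
  have hloop : ∀ t, K (t, 0) = K (t, 1) := by
    intro t
    have : circ (RS.pt v) r 0 = circ (RS.pt v) r 1 := by
      simp [circ, Complex.exp_two_pi_mul_I]
    simp only [K, this]
  have h0 : WindsOnce fun s => K (0, s) := by
    have h1 : ∀ z : ℂ, (ψ k).symm (D (T 0) (ψ k z)) = z := by
      intro z
      rw [T_zero, map_one]
      exact (ψ k).symm_apply_apply z
    have h2 := RigidSurface.Positive.one (R := RS) v r hr h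
    convert h2 using 2 with s
    simp only [K, Icc.coe_zero, zero_mul, h1]
    rfl
  have h1 := windsOnce_of_homotopy K hKc hne hloop h0 1
  convert h1 using 2 with s
  have h3 : ∀ z : ℂ, (ψ k).symm (D (T q) (ψ k z)) = Γ q z := by
    intro z
    rw [Homeomorph.symm_apply_eq, Γ_apply hg]
  simp only [K, Icc.coe_one, one_mul, h3]
  rfl

theorem γS_mem (q : ℚ) : γS q ∈ RS.homeoGroup :=
  ⟨γS_punctures q, γS_asympRigid q, γS_positive q, by rw [← γS_neg]; exact γS_positive (-q)⟩

/-- The homomorphism from `ℚ` to the group of asymptotically rigid homeomorphisms. -/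
noncomputable def γH : Multiplicative ℚ →* RS.RHomeo where
  toFun q := ⟨γS q.toAdd, γS_mem _⟩
  map_one' := by
    apply Subtype.ext
    apply Homeomorph.ext
    intro x
    apply Subtype.ext
    exact Γ_zero x
  map_mul' p q := Subtype.ext (γS_add _ _)

end Pool.Agent.Helper77.AR
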