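import Pool.Agent.Helper77.AR.Wind

/-!
# Asymptotically rigid mapping class groups: definitions
-/

open Complex hiding I
open Set Topology Metric
open scoped unitInterval

namespace Pool.Agent.Helper77.AR

/-- The thickening, in the plane, of a locally finite planar tree `A`, cut into polygons by a rigid
structure.  `A` is the tree (with vertex set `V`), `P v` is the polygon of the vertex `v`, a closed
topological disc in the plane, and `pt v` is the puncture of `v` (the position in the plane of the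
vertex `v`), an interior point of `P v`.  Two polygons of adjacent vertices meet exactly in an arc,
which lies in the boundary of both, polygons of distinct non-adjacent vertices are disjoint, and
the family of polygons is locally finite in the plane. -/
structure RigidSurface where
  /-- the vertices of the tree -/
  V : Type
  /-- the tree -/
  A : SimpleGraph V
  isTree : A.IsTree
  locFin : ∀ v, (A.neighborSet v).Finite
  /-- the polygons -/
  P : V → Set ℂ
  /-- the punctures -/
  pt : V → ℂ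
  disc : ∀ v, Nonempty (P v ≃ₜ closedBall (0 : ℂ) 1)
  pt_mem : ∀ v, pt v ∈ interior (P v)
  arc : ∀ v w, A.Adj v w → Nonempty (↥(P v ∩ P w) ≃ₜ unitInterval)
  arc_sub : ∀ v w, A.Adj v w → P v ∩ P w ⊆ frontier (P v)
  disj : ∀ v w, v ≠ w → ¬ A.Adj v w → Disjoint (P v) (P w)
  locallyFinite : LocallyFinite P

namespace RigidSurface

variable (R : RigidSurface)

/-- The surface: the union of the polygons. -/
def Surf : Set ℂ := ⋃ v, R.P v

theorem P_subset (v : R.V) : R.P v ⊆ R.Surf := subset_iUnion R.P v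

theorem pt_mem_surf (v : R.V) : R.pt v ∈ R.Surf := R.P_subset v (interior_subset (R.pt_mem v))

/-- The puncture of the vertex `v`, as a (marked) point of the surface. -/
def puncture (v : R.V) : R.Surf := ⟨R.pt v, R.pt_mem_surf v⟩

/-- The set of all punctures. -/
def punctures : Set R.Surf := range R.puncture

/-- The polygon of `v`, as a subset of the surface. -/
def poly (v : R.V) : Set R.Surf := Subtype.val ⁻¹' R.P v

/-- The union of finitely many polygons. -/
def polys (F : Finset R.V) : Set R.Surf := ⋃ v ∈ F, R.poly v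

/-- A finite set of polygons is admissible if it is non-empty and has a connected union. -/
def Admissible (F : Finset R.V) : Prop := F.Nonempty ∧ IsConnected (R.polys F)

/-- `φ` maps the admissible surface `⋃ F` onto the admissible surface `⋃ F'` and sends the
polygons outside `⋃ F` to polygons outside `⋃ F'`. -/
def RigidOutside (φ : R.Surf ≃ₜ R.Surf) (F F' : Finset R.V) : Prop :=
  R.Admissible F ∧ R.Admissible F' ∧ φ '' R.polys F = R.polys F' ∧
    ∀ v, v ∉ F → ∃ w, w ∉ F' ∧ φ '' R.poly v = R.poly w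

/-- Asymptotically rigid homeomorphisms. -/
def AsympRigid (φ : R.Surf ≃ₜ R.Surf) : Prop := ∃ F F', R.RigidOutside φ F F'

end RigidSurface

/-- The positively oriented circle of radius `r` around `z`, as a loop parametrised by `[0,1]`. -/
noncomputable def circ (z : ℂ) (r : ℝ) (s : I) : ℂ :=
  z + r * exp (2 * Real.pi * (s : ℝ) * Complex.I)

theorem norm_circ_sub (z : ℂ) {r : ℝ} (hr : 0 < r) (s : I) : ‖circ z r s - z‖ = r := by
  unfold circ
  rw [add_sub_cancel_left, norm_mul, norm_real, Real.norm_of_nonneg hr.le]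
  have : (2 * (Real.pi : ℂ) * ((s : ℝ) : ℂ) * Complex.I) = ((2 * Real.pi * s : ℝ) : ℂ) * Complex.I := by
    push_cast; ring
  rw [this, norm_exp_ofReal_mul_I, mul_one]

theorem circ_mem (z : ℂ) {r : ℝ} (hr : 0 < r) (s : I) : circ z r s ∈ closedBall z r := by
  rw [mem_closedBall, dist_eq_norm, norm_circ_sub z hr]

namespace RigidSurface

variable (R : RigidSurface)

/-- `φ` maps every small positively oriented circle around a puncture `p` to a loop which winds
exactly once, positively, around `φ p`. -/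
def Positive (φ : R.Surf ≃ₜ R.Surf) : Prop :=
  ∀ (v : R.V) (r : ℝ) (hr : 0 < r) (h : closedBall (R.pt v) r ⊆ R.Surf),
    WindsOnce fun s => (φ ⟨circ (R.pt v) r s, h (circ_mem _ hr s)⟩ : ℂ) - φ (R.puncture v)

end RigidSurface

namespace RigidSurface

variable {R : RigidSurface}

theorem puncture_mem_poly {v w : R.V} (h : R.puncture v ∈ R.poly w) : v = w := by
  by_contra hne
  have hv : R.pt v ∈ R.P v := interior_subset (R.pt_mem v)
  have hw : R.pt v ∈ R.P w := h
  by_cases hadj : R.A.Adj v w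
  · have := R.arc_sub v w hadj ⟨hv, hw⟩
    exact this.2 (R.pt_mem v)
  · exact (Set.disjoint_left.mp (R.disj v w hne hadj)) hv hw

theorem puncture_self_mem (v : R.V) : R.puncture v ∈ R.poly v := by
  have h : R.pt v ∈ R.P v := interior_subset (R.pt_mem v)
  exact h

theorem poly_inj {v w : R.V} (h : R.poly v = R.poly w) : v = w :=
  puncture_mem_poly (h ▸ puncture_self_mem v)

theorem puncture_inj {v w : R.V} (h : R.puncture v = R.puncture w) : v = w :=
  puncture_mem_poly (h ▸ puncture_self_mem w)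

theorem puncture_mem_polys {v : R.V} {F : Finset R.V} (h : R.puncture v ∈ R.polys F) : v ∈ F := by
  simp only [polys, mem_iUnion] at h
  obtain ⟨w, hw, h⟩ := h
  rwa [puncture_mem_poly h]

theorem poly_subset_polys {v : R.V} {F : Finset R.V} (h : v ∈ F) : R.poly v ⊆ R.polys F :=
  subset_biUnion_of_mem (u := fun v => R.poly v) h

theorem P_connected (v : R.V) : IsConnected (R.P v) := by
  obtain ⟨e⟩ := R.disc v
  have h1 : IsConnected (closedBall (0 : ℂ) 1) :=
    (convex_closedBall (0 : ℂ) 1).isConnected ⟨0, by simp⟩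
  have h2 : ConnectedSpace (closedBall (0 : ℂ) 1) := isConnected_iff_connectedSpace.mp h1
  have h3 : ConnectedSpace (R.P v) := e.symm.surjective.connectedSpace e.symm.continuous
  exact isConnected_iff_connectedSpace.mpr h3

theorem poly_connected (v : R.V) : IsConnected (R.poly v) := by
  have h : (Subtype.val : R.Surf → ℂ) '' R.poly v = R.P v := by
    rw [poly, Subtype.image_preimage_coe]
    exact inter_eq_right.mpr (R.P_subset v)
  have h2 := P_connected v
  rw [← h] at h2
  refine ⟨h2.nonempty.of_image, ?_⟩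
  exact (Topology.IsInducing.subtypeVal.isPreconnected_image).mp h2.isPreconnected

theorem poly_inter_nonempty {v w : R.V} (h : R.A.Adj v w) : (R.poly v ∩ R.poly w).Nonempty := by
  obtain ⟨e⟩ := R.arc v w h
  let x := e.symm 0
  exact ⟨⟨x.1, R.P_subset v x.2.1⟩, x.2.1, x.2.2⟩

theorem exists_admissible (F : Finset R.V) : ∃ H, F ⊆ H ∧ R.Admissible H := by
  classical
  have hconn := R.isTree.1
  obtain ⟨v₀⟩ := hconn.nonempty
  have hw : ∀ v, ∃ p : R.A.Walk v₀ v, True := fun v => by
    obtain ⟨p⟩ := hconn.preconnected v₀ v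
    exact ⟨p, trivial⟩
  choose p _ using hw
  let H : Finset R.V := insert v₀ (F.biUnion fun v => (p v).support.toFinset)
  have hwalk : ∀ (u w : R.V) (q : R.A.Walk u w),
      IsConnected (⋃ x ∈ {x | x ∈ q.support}, R.poly x) := by
    intro u w q
    induction q with
    | nil =>
      simp only [SimpleGraph.Walk.support_nil, List.mem_singleton, ofPred_eq_eq_singleton,
        biUnion_singleton]
      exact poly_connected _
    | cons h q ih =>
      rename_i a b c
      have : (⋃ x ∈ {x | x ∈ (SimpleGraph.Walk.cons h q).support}, R.poly x) =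
          R.poly a ∪ ⋃ x ∈ {x | x ∈ q.support}, R.poly x := by
        ext z
        simp [SimpleGraph.Walk.support_cons]
      rw [this]
      refine IsConnected.union ?_ (poly_connected a) ih
      obtain ⟨z, hz1, hz2⟩ := poly_inter_nonempty h
      refine ⟨z, hz1, ?_⟩
      simp only [mem_iUnion]
      exact ⟨b, q.start_mem_support, hz2⟩
  refine ⟨H, ?_, ⟨v₀, Finset.mem_insert_self _ _⟩, ?_⟩
  · intro v hv
    apply Finset.mem_insert_of_mem
    rw [Finset.mem_biUnion]
    exact ⟨v, hv, by simp⟩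
  · obtain ⟨z, hz⟩ := (poly_connected v₀).nonempty
    have hH : R.polys H = ⋃₀ (insert (R.poly v₀)
        ((fun v => ⋃ x ∈ {x | x ∈ (p v).support}, R.poly x) '' (F : Set R.V))) := by
      ext z
      simp only [polys, H, mem_iUnion, Finset.mem_insert, Finset.mem_biUnion, List.mem_toFinset,
        sUnion_insert, sUnion_image, mem_union, mem_ofPred_eq, Finset.mem_coe, exists_prop]
      constructor
      · rintro ⟨i, hi | ⟨a, ha, hi⟩, hz⟩
        · exact Or.inl (hi ▸ hz)
        · exact Or.inr ⟨a, ha, i, hi, hz⟩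
      · rintro (h | ⟨a, ha, i, hi, hz⟩)
        · exact ⟨v₀, Or.inl rfl, h⟩
        · exact ⟨i, Or.inr ⟨a, ha, hi⟩, hz⟩
    refine ⟨⟨z, poly_subset_polys (Finset.mem_insert_self _ _) hz⟩, ?_⟩
    rw [hH]
    apply isPreconnected_sUnion z
    · rintro _ (rfl | ⟨v, hv, rfl⟩)
      · exact hz
      · simp only [mem_iUnion]
        exact ⟨v₀, (p v).start_mem_support, hz⟩
    · rintro _ (rfl | ⟨v, hv, rfl⟩)
      · exact (poly_connected v₀).isPreconnected
      · exact (hwalk _ _ (p v)).isPreconnected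

theorem RigidOutside.inv {φ : R.Surf ≃ₜ R.Surf} {F F' : Finset R.V}
    (h : R.RigidOutside φ F F') : R.RigidOutside φ⁻¹ F' F := by
  obtain ⟨h1, h2, h3, h4⟩ := h
  have hinv : ∀ A B : Set R.Surf, φ '' A = B → (φ⁻¹ : R.Surf ≃ₜ R.Surf) '' B = A := by
    rintro A _ rfl
    rw [image_image]
    simp
  refine ⟨h2, h1, hinv _ _ h3, ?_⟩
  intro w hw
  obtain ⟨x, hx⟩ := φ.surjective (R.puncture w)
  obtain ⟨v, hv⟩ := mem_iUnion.mp x.2
  have hxv : x ∈ R.poly v := hv
  have hvF : v ∉ F := by
    intro hvF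
    have : R.puncture w ∈ R.polys F' := by
      rw [← h3, ← hx]
      exact mem_image_of_mem _ (poly_subset_polys hvF hxv)
    exact hw (puncture_mem_polys this)
  obtain ⟨w', hw', hw2⟩ := h4 v hvF
  have : w = w' := by
    apply puncture_mem_poly
    rw [← hw2, ← hx]
    exact mem_image_of_mem _ hxv
  subst this
  exact ⟨v, hvF, hinv _ _ hw2⟩

theorem RigidOutside.enlarge {φ : R.Surf ≃ₜ R.Surf} {F F' H : Finset R.V}
    (h : R.RigidOutside φ F F') (hFH : F ⊆ H) (hH : R.Admissible H) :
    ∃ H', R.RigidOutside φ H H' := by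
  classical
  obtain ⟨h1, h2, h3, h4⟩ := h
  choose! f hf using h4
  let H' : Finset R.V := F' ∪ (H \ F).image f
  have hun : φ '' R.polys H = R.polys H' := by
    have e1 : R.polys H = R.polys F ∪ ⋃ v ∈ H \ F, R.poly v := by
      ext z
      simp only [polys, mem_union, mem_iUnion, Finset.mem_sdiff, exists_prop]
      constructor
      · rintro ⟨v, hv, hz⟩
        by_cases hvF : v ∈ F
        · exact Or.inl ⟨v, hvF, hz⟩
        · exact Or.inr ⟨v, ⟨hv, hvF⟩, hz⟩
      · rintro (⟨v, hv, hz⟩ | ⟨v, ⟨hv, -⟩, hz⟩)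
        · exact ⟨v, hFH hv, hz⟩
        · exact ⟨v, hv, hz⟩
    have e2 : R.polys H' = R.polys F' ∪ ⋃ v ∈ H \ F, R.poly (f v) := by
      ext z
      simp only [polys, H', mem_union, mem_iUnion, Finset.mem_union, Finset.mem_image,
        exists_prop]
      constructor
      · rintro ⟨v, hv | ⟨a, ha, rfl⟩, hz⟩
        · exact Or.inl ⟨v, hv, hz⟩
        · exact Or.inr ⟨a, ha, hz⟩
      · rintro (⟨v, hv, hz⟩ | ⟨a, ha, hz⟩)
        · exact ⟨v, Or.inl hv, hz⟩
        · exact ⟨f a, Or.inr ⟨a, ha, rfl⟩, hz⟩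
    rw [e1, e2, image_union, h3, image_iUnion₂]
    congr 1
    apply iUnion₂_congr
    intro v hv
    exact (hf v (Finset.mem_sdiff.mp hv).2).2
  refine ⟨H', hH, ⟨?_, ?_⟩, hun, ?_⟩
  · obtain ⟨a, ha⟩ := h2.1
    exact ⟨a, Finset.mem_union_left _ ha⟩
  · rw [← hun]
    exact hH.2.image _ φ.continuous.continuousOn
  · intro v hv
    have hvF : v ∉ F := fun h => hv (hFH h)
    refine ⟨f v, ?_, (hf v hvF).2⟩
    intro hmem
    rcases Finset.mem_union.mp hmem with hm | hm
    · exact (hf v hvF).1 hm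
    · obtain ⟨a, ha, hfa⟩ := Finset.mem_image.mp hm
      have ha' := Finset.mem_sdiff.mp ha
      have e1 := (hf v hvF).2
      have e2 := (hf a ha'.2).2
      rw [hfa, ← e1] at e2
      have := poly_inj (φ.injective.image_injective e2)
      exact hv (this ▸ ha'.1)

theorem AsympRigid.inv {φ : R.Surf ≃ₜ R.Surf} (h : R.AsympRigid φ) : R.AsympRigid φ⁻¹ := by
  obtain ⟨F, F', h⟩ := h
  exact ⟨F', F, h.inv⟩

theorem AsympRigid.mul {ψ φ : R.Surf ≃ₜ R.Surf} (hψ : R.AsympRigid ψ) (hφ : R.AsympRigid φ) :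
    R.AsympRigid (ψ * φ) := by
  classical
  obtain ⟨F, F', h⟩ := hφ
  obtain ⟨G, G', g⟩ := hψ
  obtain ⟨K, hK, hKadm⟩ := exists_admissible (F' ∪ G)
  obtain ⟨H, hH⟩ := h.inv.enlarge (Finset.union_subset_left hK) hKadm
  have hH' := hH.inv
  rw [inv_inv] at hH'
  obtain ⟨H'', hH''⟩ := g.enlarge (Finset.union_subset_right hK) hKadm
  obtain ⟨a1, a2, a3, a4⟩ := hH'
  obtain ⟨b1, b2, b3, b4⟩ := hH''
  have hcomp : ∀ A : Set R.Surf, (ψ * φ) '' A = ψ '' (φ '' A) := by
    intro A
    rw [image_image]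
    rfl
  refine ⟨H, H'', a1, b2, ?_, ?_⟩
  · rw [hcomp, a3, b3]
  · intro v hv
    obtain ⟨w, hw, hw2⟩ := a4 v hv
    obtain ⟨x, hx, hx2⟩ := b4 w hw
    exact ⟨x, hx, by rw [hcomp, hw2, hx2]⟩

theorem AsympRigid.one : R.AsympRigid 1 := by
  obtain ⟨H, -, hH⟩ := exists_admissible (R := R) ∅
  have h1 : ∀ A : Set R.Surf, (1 : R.Surf ≃ₜ R.Surf) '' A = A := fun A => image_id A
  exact ⟨H, H, hH, hH, h1 _, fun v hv => ⟨v, hv, h1 _⟩⟩

theorem continuous_circ (z : ℂ) : Continuous fun p : ℝ × I => circ z p.1 p.2 := by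
  unfold circ
  fun_prop

theorem exists_closedBall (v : R.V) : ∃ ρ : ℝ, 0 < ρ ∧ closedBall (R.pt v) ρ ⊆ R.Surf := by
  have h : R.Surf ∈ 𝓝 (R.pt v) :=
    Filter.mem_of_superset (mem_interior_iff_mem_nhds.mp (R.pt_mem v)) (R.P_subset v)
  obtain ⟨ρ, hρ, h⟩ := Metric.nhds_basis_closedBall.mem_iff.mp h
  exact ⟨ρ, hρ, h⟩

theorem sub_ne_zero_of_ne {φ : R.Surf ≃ₜ R.Surf} {x y : R.Surf} (h : (x : ℂ) ≠ y) :
    (φ x : ℂ) - φ y ≠ 0 := by
  intro h0
  have : φ x = φ y := Subtype.ext (sub_eq_zero.mp h0)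
  exact h (congrArg Subtype.val (φ.injective this))

/-- The winding number does not depend on the radius. -/
theorem winds_radius (φ : R.Surf ≃ₜ R.Surf) (v : R.V) {r r' : ℝ} (hr : 0 < r) (hr' : 0 < r')
    (h : closedBall (R.pt v) r ⊆ R.Surf) (h' : closedBall (R.pt v) r' ⊆ R.Surf)
    (hw : WindsOnce fun s => (φ ⟨circ (R.pt v) r' s, h' (circ_mem _ hr' s)⟩ : ℂ) -
      φ (R.puncture v)) :
    WindsOnce fun s => (φ ⟨circ (R.pt v) r s, h (circ_mem _ hr s)⟩ : ℂ) - φ (R.puncture v) := by
  have hpos : ∀ t : I, 0 < (1 - (t : ℝ)) * r' + t * r := by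
    intro t
    rcases eq_or_lt_of_le t.2.1 with ht | ht
    · rw [← ht]; simpa using hr'
    · have h1 : 0 ≤ 1 - (t : ℝ) := sub_nonneg.mpr t.2.2
      positivity
  have hle : ∀ t : I, (1 - (t : ℝ)) * r' + t * r ≤ max r' r := by
    intro t
    have h1 : 0 ≤ 1 - (t : ℝ) := sub_nonneg.mpr t.2.2
    have h2 : 0 ≤ (t : ℝ) := t.2.1
    nlinarith [le_max_left r' r, le_max_right r' r]
  have hmem : ∀ p : I × I, circ (R.pt v) ((1 - (p.1 : ℝ)) * r' + p.1 * r) p.2 ∈ R.Surf := by
    intro p
    have h1 := closedBall_subset_closedBall (hle p.1)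
      (circ_mem (R.pt v) (hpos p.1) p.2)
    rcases le_total r' r with h2 | h2
    · rw [max_eq_right h2] at h1; exact h h1
    · rw [max_eq_left h2] at h1; exact h' h1
  let K : I × I → ℂ := fun p =>
    (φ ⟨circ (R.pt v) ((1 - (p.1 : ℝ)) * r' + p.1 * r) p.2, hmem p⟩ : ℂ) - φ (R.puncture v)
  have hc : Continuous fun p : I × I => circ (R.pt v) ((1 - (p.1 : ℝ)) * r' + p.1 * r) p.2 :=
    (continuous_circ (R.pt v)).comp (f := fun p : I × I =>
      ((1 - (p.1 : ℝ)) * r' + p.1 * r, p.2)) (by fun_prop)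
  have hKc : Continuous K := by
    have h1 : Continuous fun p : I × I =>
        (⟨circ (R.pt v) ((1 - (p.1 : ℝ)) * r' + p.1 * r) p.2, hmem p⟩ : R.Surf) :=
      hc.subtype_mk _
    exact (continuous_subtype_val.comp (φ.continuous.comp h1)).sub continuous_const
  have hne : ∀ p : I × I, K p ≠ 0 := by
    intro p
    apply sub_ne_zero_of_ne
    intro heq
    have h1 := norm_circ_sub (R.pt v) (hpos p.1) p.2
    have h2 : circ (R.pt v) ((1 - (p.1 : ℝ)) * r' + p.1 * r) p.2 = R.pt v := heq
    rw [h2, sub_self, norm_zero] at h1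
    exact (hpos p.1).ne h1
  have hloop : ∀ t, K (t, 0) = K (t, 1) := by
    intro t
    have : circ (R.pt v) ((1 - (t : ℝ)) * r' + t * r) 0 =
        circ (R.pt v) ((1 - (t : ℝ)) * r' + t * r) 1 := by
      simp [circ, exp_two_pi_mul_I]
    simp only [K, this]
  have h0 : WindsOnce fun s => K (0, s) := by
    convert hw using 4 with s
    simp
  have h1 := windsOnce_of_homotopy K hKc hne hloop h0 1
  convert h1 using 4 with s
  simp

theorem Positive.mul {ψ φ : R.Surf ≃ₜ R.Surf} (hψ : R.Positive ψ) (hφ : R.Positive φ)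
    (hp : ∀ v, ∃ w, φ (R.puncture v) = R.puncture w) : R.Positive (ψ * φ) := by
  intro v r hr h
  obtain ⟨w, hw⟩ := hp v
  obtain ⟨ρ, hρ, hρS⟩ := exists_closedBall w
  -- a small radius
  have hcont : ContinuousAt (fun x : R.Surf => (φ x : ℂ)) (R.puncture v) :=
    (continuous_subtype_val.comp φ.continuous).continuousAt
  obtain ⟨δ, hδ, hδ2⟩ := Metric.continuousAt_iff.mp hcont ρ hρ
  let r' := min r (δ / 2)
  have hr' : 0 < r' := lt_min hr (half_pos hδ)
  have h' : closedBall (R.pt v) r' ⊆ R.Surf :=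
    (closedBall_subset_closedBall (min_le_left _ _)).trans h
  apply winds_radius (ψ * φ) v hr hr' h h'
  obtain ⟨L, hL, hLe, hvar⟩ := hφ v r' hr' h'
  have hre : ∀ s, (L s).re ≤ Real.log ρ := by
    intro s
    have h1 : ‖exp (L s)‖ ≤ ρ := by
      rw [hLe s, hw]
      have := hδ2 (x := ⟨circ (R.pt v) r' s, h' (circ_mem _ hr' s)⟩) (by
        rw [Subtype.dist_eq, dist_eq_norm]
        have h1 := norm_circ_sub (R.pt v) hr' s
        have h2 : r' < δ := (min_le_right _ _).trans_lt (half_lt_self hδ)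
        calc _ = r' := h1
          _ < δ := h2)
      rw [hw, dist_eq_norm] at this
      exact this.le
    rw [norm_exp] at h1
    rwa [Real.le_log_iff_exp_le hρ]
  let A : I × I → ℂ := fun p => exp ((1 - ((p.1 : ℝ) : ℂ)) * L p.2 +
    ((p.1 : ℝ) : ℂ) * ((Real.log ρ : ℂ) + 2 * Real.pi * ((p.2 : ℝ) : ℂ) * Complex.I))
  have hAc : Continuous A := by
    have : Continuous fun p : I × I => L p.2 := hL.comp continuous_snd
    fun_prop
  have hAn : ∀ p, ‖A p‖ ≤ ρ := by
    intro p
    simp only [A, norm_exp]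
    rw [← Real.le_log_iff_exp_le hρ]
    have h1 : ((1 - ((p.1 : ℝ) : ℂ)) * L p.2 +
      ((p.1 : ℝ) : ℂ) * ((Real.log ρ : ℂ) + 2 * Real.pi * ((p.2 : ℝ) : ℂ) * Complex.I)).re =
      (1 - (p.1 : ℝ)) * (L p.2).re + (p.1 : ℝ) * Real.log ρ := by
      simp [mul_re]
    rw [h1]
    have h2 : 0 ≤ 1 - (p.1 : ℝ) := sub_nonneg.mpr p.1.2.2
    nlinarith [hre p.2, p.1.2.1]
  have hmem : ∀ p, R.pt w + A p ∈ R.Surf := by
    intro p
    apply hρS
    rw [mem_closedBall, dist_eq_norm, add_sub_cancel_left]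
    exact hAn p
  let K : I × I → ℂ := fun p => (ψ ⟨R.pt w + A p, hmem p⟩ : ℂ) - ψ (R.puncture w)
  have hKc : Continuous K := by
    have h1 : Continuous fun p : I × I => (⟨R.pt w + A p, hmem p⟩ : R.Surf) :=
      (continuous_const.add hAc).subtype_mk _
    exact (continuous_subtype_val.comp (ψ.continuous.comp h1)).sub continuous_const
  have hne : ∀ p : I × I, K p ≠ 0 := by
    intro p
    apply sub_ne_zero_of_ne
    intro heq
    have h2 : R.pt w + A p = R.pt w := heq
    have h3 : A p = 0 := by simpa using h2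
    exact exp_ne_zero _ h3
  have hloop : ∀ t, K (t, 0) = K (t, 1) := by
    intro t
    have : A (t, 0) = A (t, 1) := by
      simp only [A]
      have hv : L 1 = L 0 + 2 * Real.pi * Complex.I := by rw [← hvar]; ring
      rw [hv]
      have : (1 - ((t : ℝ) : ℂ)) * (L 0 + 2 * Real.pi * Complex.I) +
          ((t : ℝ) : ℂ) * ((Real.log ρ : ℂ) + 2 * Real.pi * (((1 : I) : ℝ) : ℂ) * Complex.I) =
          (1 - ((t : ℝ) : ℂ)) * L 0 + ((t : ℝ) : ℂ) * ((Real.log ρ : ℂ) +
            2 * Real.pi * (((0 : I) : ℝ) : ℂ) * Complex.I) + 2 * Real.pi * Complex.I := by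
        simp; ring
      rw [this, exp_periodic]
    simp only [K, this]
  have h1 : WindsOnce fun s => K (1, s) := by
    have := hψ w ρ hρ hρS
    convert this using 5 with s
    simp only [A, circ]
    simp [exp_add, ← ofReal_exp, Real.exp_log hρ]
  have h0 := windsOnce_of_homotopy' K hKc hne hloop h1 0
  convert h0 using 3 with s
  · congr 1
    rw [Homeomorph.mul_apply]
    congr 1
    apply Subtype.ext
    have h2 : exp (L s) = (φ ⟨circ (R.pt v) r' s, h' (circ_mem _ hr' s)⟩ : ℂ) - R.pt w := by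
      rw [hLe s, hw]
      rfl
    simp [A, h2]
  · rw [Homeomorph.mul_apply, hw]

theorem Positive.one : R.Positive 1 := by
  intro v r hr h
  refine ⟨fun s => (Real.log r : ℂ) + 2 * Real.pi * ((s : ℝ) : ℂ) * Complex.I, by fun_prop,
    ?_, ?_⟩
  · intro s
    simp [circ, puncture, exp_add, ← ofReal_exp, Real.exp_log hr]
  · simp

/-- `φ` is an orientation-preserving asymptotically rigid homeomorphism of the punctured surface:
it permutes the punctures, is asymptotically rigid, and `φ` and its inverse send small positive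
circles around punctures to loops winding once positively. -/
def IsRigidHomeo (R : RigidSurface) (φ : R.Surf ≃ₜ R.Surf) : Prop :=
  φ '' R.punctures = R.punctures ∧ R.AsympRigid φ ∧ R.Positive φ ∧ R.Positive φ⁻¹

theorem IsRigidHomeo.mul {ψ φ : R.Surf ≃ₜ R.Surf} (hψ : R.IsRigidHomeo ψ)
    (hφ : R.IsRigidHomeo φ) : R.IsRigidHomeo (ψ * φ) := by
  obtain ⟨h1, h2, h3, h4⟩ := hψ
  obtain ⟨g1, g2, g3, g4⟩ := hφ
  have hp : ∀ θ : R.Surf ≃ₜ R.Surf, θ '' R.punctures = R.punctures →
      ∀ v, ∃ w, θ (R.puncture v) = R.puncture w := by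
    intro θ hθ v
    have : θ (R.puncture v) ∈ R.punctures := by
      rw [← hθ]
      exact mem_image_of_mem _ ⟨v, rfl⟩
    obtain ⟨w, hw⟩ := this
    exact ⟨w, hw.symm⟩
  have hi : ∀ θ : R.Surf ≃ₜ R.Surf, θ '' R.punctures = R.punctures →
      (θ⁻¹ : R.Surf ≃ₜ R.Surf) '' R.punctures = R.punctures := by
    intro θ hθ
    conv_lhs => rw [← hθ]
    rw [image_image]
    simp
  refine ⟨?_, h2.mul g2, h3.mul g3 (hp φ g1), ?_⟩
  · have : (ψ * φ : R.Surf ≃ₜ R.Surf) '' R.punctures = ψ '' (φ '' R.punctures) := by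
      rw [image_image]
      rfl
    rw [this, g1, h1]
  · rw [mul_inv_rev]
    exact g4.mul h4 (hp _ (hi ψ h1))

theorem IsRigidHomeo.one : R.IsRigidHomeo 1 :=
  ⟨image_id _, AsympRigid.one, Positive.one, by rw [inv_one]; exact Positive.one⟩

theorem IsRigidHomeo.inv {φ : R.Surf ≃ₜ R.Surf} (h : R.IsRigidHomeo φ) :
    R.IsRigidHomeo φ⁻¹ := by
  obtain ⟨h1, h2, h3, h4⟩ := h
  refine ⟨?_, h2.inv, h4, by rwa [inv_inv]⟩
  conv_lhs => rw [← h1]
  rw [image_image]
  simp

/-- The group of orientation-preserving asymptotically rigid homeomorphisms of the punctured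
surface. -/
def homeoGroup (R : RigidSurface) : Subgroup (R.Surf ≃ₜ R.Surf) where
  carrier := {φ | R.IsRigidHomeo φ}
  mul_mem' := IsRigidHomeo.mul
  one_mem' := IsRigidHomeo.one
  inv_mem' := IsRigidHomeo.inv

/-- `φ` is isotopic to the identity, through an isotopy fixing every puncture. -/
def IsotopicToId (R : RigidSurface) (φ : R.Surf ≃ₜ R.Surf) : Prop :=
  ∃ H : I → (R.Surf ≃ₜ R.Surf), Continuous (fun p : I × R.Surf => H p.1 p.2) ∧
    H 0 = 1 ∧ H 1 = φ ∧ ∀ t v, H t (R.puncture v) = R.puncture v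

theorem IsotopicToId.mul {φ ψ : R.Surf ≃ₜ R.Surf} (hφ : R.IsotopicToId φ)
    (hψ : R.IsotopicToId ψ) : R.IsotopicToId (φ * ψ) := by
  obtain ⟨H, h1, h2, h3, h4⟩ := hφ
  obtain ⟨G, g1, g2, g3, g4⟩ := hψ
  refine ⟨fun t => H t * G t, ?_, ?_, ?_, ?_⟩
  · have : Continuous fun p : I × R.Surf => (p.1, G p.1 p.2) := continuous_fst.prodMk g1
    exact h1.comp this
  · simp [h2, g2]
  · simp [h3, g3]
  · intro t v
    rw [Homeomorph.mul_apply, g4, h4]

theorem IsotopicToId.one : R.IsotopicToId 1 :=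
  ⟨fun _ => 1, continuous_snd, rfl, rfl, fun _ _ => rfl⟩

theorem IsotopicToId.inv {φ : R.Surf ≃ₜ R.Surf} (hφ : R.IsotopicToId φ) :
    R.IsotopicToId φ⁻¹ := by
  obtain ⟨H, h1, h2, h3, h4⟩ := hφ
  refine ⟨fun t => φ⁻¹ * H (σ t), ?_, ?_, ?_, ?_⟩
  · have : Continuous fun p : I × R.Surf => (σ p.1, p.2) := by fun_prop
    exact φ⁻¹.continuous.comp (h1.comp this)
  · simp [h3]
  · simp [h2]
  · intro t v
    have h5 : φ (R.puncture v) = R.puncture v := by rw [← h3, h4]
    rw [Homeomorph.mul_apply, h4, Homeomorph.inv_apply, Homeomorph.symm_apply_eq, h5]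

theorem IsotopicToId.conj {φ : R.Surf ≃ₜ R.Surf} (hφ : R.IsotopicToId φ)
    {g : R.Surf ≃ₜ R.Surf} (hg : g '' R.punctures = R.punctures) :
    R.IsotopicToId (g * φ * g⁻¹) := by
  obtain ⟨H, h1, h2, h3, h4⟩ := hφ
  refine ⟨fun t => g * H t * g⁻¹, ?_, ?_, ?_, ?_⟩
  · have : Continuous fun p : I × R.Surf => (p.1, g⁻¹ p.2) :=
      continuous_fst.prodMk (g⁻¹.continuous.comp continuous_snd)
    exact g.continuous.comp (h1.comp this)
  · simp [h2]
  · simp [h3]
  · intro t v
    have hg : g⁻¹ (R.puncture v) ∈ R.punctures := by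
      have h5 : R.puncture v ∈ g '' R.punctures := by rw [hg]; exact ⟨v, rfl⟩
      obtain ⟨x, hx, hx2⟩ := h5
      rw [← hx2, Homeomorph.inv_apply, Homeomorph.symm_apply_apply]
      exact hx
    obtain ⟨w, hw⟩ := hg
    rw [Homeomorph.mul_apply, Homeomorph.mul_apply, ← hw, h4, hw, Homeomorph.inv_apply,
      Homeomorph.apply_symm_apply]

/-- The type of the elements of `homeoGroup`. -/
def RHomeo (R : RigidSurface) : Type := R.homeoGroup

noncomputable instance (R : RigidSurface) : Group R.RHomeo := Subgroup.toGroup R.homeoGroup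

/-- The underlying homeomorphism. -/
def RHomeo.toHomeo (φ : R.RHomeo) : R.Surf ≃ₜ R.Surf := φ.1

theorem isotopy_mul {φ ψ : R.RHomeo} (h : R.IsotopicToId φ.toHomeo)
    (h' : R.IsotopicToId ψ.toHomeo) : R.IsotopicToId (φ * ψ).toHomeo := h.mul h'

theorem isotopy_one : R.IsotopicToId (1 : R.RHomeo).toHomeo := IsotopicToId.one

theorem isotopy_inv {φ : R.RHomeo} (h : R.IsotopicToId φ.toHomeo) :
    R.IsotopicToId (φ⁻¹).toHomeo := h.inv

/-- The subgroup of the homeomorphisms isotopic to the identity. -/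
def isotopySubgroup (R : RigidSurface) : Subgroup R.RHomeo where
  carrier := {φ | R.IsotopicToId φ.toHomeo}
  mul_mem' := isotopy_mul
  one_mem' := isotopy_one
  inv_mem' := isotopy_inv

theorem isotopySubgroup_normal (R : RigidSurface) : R.isotopySubgroup.Normal where
  conj_mem := fun _ hφ g => IsotopicToId.conj hφ g.2.1

instance (R : RigidSurface) : R.isotopySubgroup.Normal := R.isotopySubgroup_normal

/-- The asymptotically rigid mapping class group of the rigid surface `R`: the group of isotopy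
classes (relative to the punctures) of orientation-preserving asymptotically rigid
homeomorphisms. -/
def Mod (R : RigidSurface) : Type := R.RHomeo ⧸ R.isotopySubgroup

noncomputable instance (R : RigidSurface) : Group R.Mod :=
  QuotientGroup.Quotient.group R.isotopySubgroup

end RigidSurface

/-- The group `B` is isomorphic to a direct sum of cyclic groups. -/
def IsSumOfCyclic (B : Type) [Group B] : Prop :=
  ∃ (ι : Type) (C : ι → Type) (_ : ∀ i, AddCommGroup (C i)) (_ : ∀ i, IsAddCyclic (C i)),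
    Nonempty (Additive B ≃+ DirectSum ι C)

end Pool.Agent.Helper77.AR
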