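import Pool.Agent.Helper77.AR.Plane

/-!
# The piecewise linear functions used in the construction
-/

open Set Topology Metric

namespace Pool.Agent.Helper77.AR

/-! ## the stretching functions -/

/-- Identity below `a`, sends `[a, h]` to `[a, a + 1]`, slope one above `h`. -/
noncomputable def st (a h y : ℝ) : ℝ :=
  min y a + (max a (min y h) - a) / (h - a) + (max y h - h)

theorem st_low {a h y : ℝ} (hah : a < h) (hy : y ≤ a) : st a h y = y := by
  unfold st
  rw [min_eq_left hy, min_eq_left (hy.trans hah.le), max_eq_left hy,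
    max_eq_right (hy.trans hah.le)]
  simp

theorem st_mid {a h y : ℝ} (hay : a ≤ y) (hyh : y ≤ h) :
    st a h y = a + (y - a) / (h - a) := by
  unfold st
  rw [min_eq_right hay, min_eq_left hyh, max_eq_right hay, max_eq_right hyh]
  simp

theorem st_high {a h y : ℝ} (hah : a < h) (hyh : h ≤ y) : st a h y = a + 1 + (y - h) := by
  unfold st
  rw [min_eq_right (hah.le.trans hyh), min_eq_right hyh, max_eq_right hah.le, max_eq_left hyh,
    div_self (sub_pos.mpr hah).ne']

theorem st_strictMono {a h : ℝ} (hah : a < h) : StrictMono (st a h) := by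
  intro y z hyz
  have hd : 0 < h - a := sub_pos.mpr hah
  have hstep : ∀ p q : ℝ, a ≤ p → p < q → q ≤ h → st a h p < st a h q := by
    intro p q hp hpq hq
    rw [st_mid hp (hpq.le.trans hq), st_mid (hp.trans hpq.le) hq]
    have : (p - a) / (h - a) < (q - a) / (h - a) := div_lt_div_of_pos_right (by linarith) hd
    linarith
  have ea : st a h a = a := st_low hah le_rfl
  have eh : st a h h = a + 1 := by rw [st_high hah le_rfl]; ring
  have hmid : ∀ p, a ≤ p → p ≤ h → a ≤ st a h p ∧ st a h p ≤ a + 1 := by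
    intro p hp hp'
    constructor
    · rcases eq_or_lt_of_le hp with rfl | hlt
      · rw [ea]
      · have := hstep a p le_rfl hlt hp'
        linarith
    · rcases eq_or_lt_of_le hp' with rfl | hlt
      · rw [eh]
      · have := hstep p h hp hlt le_rfl
        linarith
  rcases le_total y a with hy | hy
  · rw [st_low hah hy]
    rcases le_total z a with hz | hz
    · rw [st_low hah hz]; exact hyz
    · rcases le_total z h with hz' | hz'
      · rcases eq_or_lt_of_le hz with rfl | hlt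
        · rw [ea]; exact hyz
        · have := hstep a z le_rfl hlt hz'
          linarith
      · rw [st_high hah hz']; linarith
  · rcases le_total y h with hy' | hy'
    · rcases le_total z h with hz' | hz'
      · exact hstep y z hy hyz hz'
      · rw [st_high hah hz']
        have := hmid y hy hy'
        rcases eq_or_lt_of_le hz' with rfl | hlt
        · have := hstep y h hy hyz le_rfl
          linarith
        · linarith
    · rw [st_high hah hy', st_high hah (hy'.trans hyz.le)]
      linarith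

theorem st_surjective {a h : ℝ} (hah : a < h) : Function.Surjective (st a h) := by
  intro t
  have hd : 0 < h - a := sub_pos.mpr hah
  rcases le_total t a with ht | ht
  · exact ⟨t, st_low hah ht⟩
  · rcases le_total t (a + 1) with ht' | ht'
    · refine ⟨a + (t - a) * (h - a), ?_⟩
      rw [st_mid]
      · field_simp; ring
      · have : 0 ≤ (t - a) * (h - a) := mul_nonneg (by linarith) hd.le
        linarith
      · nlinarith
    · refine ⟨h + (t - a - 1), ?_⟩
      rw [st_high hah (by linarith)]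
      ring

theorem continuous_st (a : ℝ) {h : ℝ → ℝ} (hh : Continuous h) (ha : ∀ x, a < h x) :
    Continuous fun p : ℝ × ℝ => st a (h p.1) p.2 := by
  unfold st
  have : ∀ p : ℝ × ℝ, h p.1 - a ≠ 0 := fun p => (sub_pos.mpr (ha p.1)).ne'
  have h1 : Continuous fun p : ℝ × ℝ => h p.1 := hh.comp continuous_fst
  exact ((continuous_snd.min continuous_const).add
    (((continuous_const.max (continuous_snd.min h1)).sub continuous_const).div
      (h1.sub continuous_const) this)).add ((continuous_snd.max h1).sub h1)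

/-! ## the periodic functions -/

/-- the shape of the teeth -/
noncomputable def σt (v : ℝ) : ℝ := max 0 (min 1 (min (16 * v - 6) (10 - 16 * v)))

/-- the horizontal profile -/
noncomputable def σ₁ (v : ℝ) : ℝ := max 0 (min 1 (8 * v - 7 / 2))

/-- the height profile -/
noncomputable def E₀ (N S : ℝ) : ℝ :=
  min (2 * (N + 1) ^ 2 * S) (min ((N + 1 / 2) * S + 3 / 4) (2 * (N + 1) ^ 2 * (1 - S)))

/-- top of the surface -/
noncomputable def top (N u : ℝ) : ℝ := 4 + N * σt (Int.fract u)

/-- the curve going through the punctures -/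
noncomputable def pie (N u : ℝ) : ℝ := 3 + E₀ N (σ₁ (Int.fract u))

/-- the horizontal map -/
noncomputable def gg (N u : ℝ) : ℝ :=
  4 / (7 * (N + 1)) * u + (1 - 4 / (7 * (N + 1))) * (⌊u⌋ + σ₁ (Int.fract u))

theorem continuous_top (N : ℝ) : Continuous (top N) := by
  have h : Continuous (σt ∘ Int.fract : ℝ → ℝ) := by
    apply ContinuousOn.comp_fract''
    · apply Continuous.continuousOn
      unfold σt
      fun_prop
    · unfold σt; norm_num
  exact continuous_const.add (continuous_const.mul h)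

theorem E₀_zero {N : ℝ} (hN : 1 ≤ N) : E₀ N 0 = 0 := by
  unfold E₀
  have h : 0 ≤ 2 * (N + 1) ^ 2 := by positivity
  rw [mul_zero, mul_zero, zero_add, sub_zero, mul_one]
  exact min_eq_left (le_min (by norm_num) h)

theorem E₀_one {N : ℝ} (hN : 1 ≤ N) : E₀ N 1 = 0 := by
  unfold E₀
  have h : 0 ≤ 2 * (N + 1) ^ 2 := by positivity
  rw [sub_self, mul_zero, mul_one, mul_one, min_eq_right (a := N + 1 / 2 + 3 / 4) (by linarith),
    min_eq_right h]

theorem E₀_nonneg {N S : ℝ} (hN : 1 ≤ N) (h0 : 0 ≤ S) (h1 : S ≤ 1) : 0 ≤ E₀ N S := by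
  unfold E₀
  have h : 0 ≤ 2 * (N + 1) ^ 2 := by positivity
  refine le_min (mul_nonneg h h0) (le_min ?_ (mul_nonneg h (by linarith)))
  nlinarith

theorem E₀_lt {N S : ℝ} (hN : 1 ≤ N) : E₀ N S < N + 1 := by
  by_contra hcon
  rw [not_lt] at hcon
  unfold E₀ at hcon
  have h2 := (le_min_iff.mp (le_min_iff.mp hcon).2).1
  have h3 := (le_min_iff.mp (le_min_iff.mp hcon).2).2
  -- (N+1/2) S ≥ N + 1/4 and 2(N+1)²(1-S) ≥ N+1
  have h4 : 1 ≤ 2 * (N + 1) * (1 - S) := by
    have : (N + 1) * 1 ≤ (N + 1) * (2 * (N + 1) * (1 - S)) := by nlinarith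
    exact le_of_mul_le_mul_left this (by linarith)
  nlinarith

theorem continuous_pie {N : ℝ} (hN : 1 ≤ N) : Continuous (pie N) := by
  have h : Continuous ((fun v => E₀ N (σ₁ v)) ∘ Int.fract : ℝ → ℝ) := by
    apply ContinuousOn.comp_fract''
    · apply Continuous.continuousOn
      unfold E₀ σ₁
      fun_prop
    · have h0 : σ₁ 0 = 0 := by unfold σ₁; norm_num
      have h1 : σ₁ 1 = 1 := by unfold σ₁; norm_num
      rw [h0, h1, E₀_zero hN, E₀_one hN]
  exact continuous_const.add h

theorem σ₁_nonneg (v : ℝ) : 0 ≤ σ₁ v := le_max_left _ _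

theorem σ₁_le (v : ℝ) : σ₁ v ≤ 1 := max_le (by norm_num) (min_le_left _ _)

theorem σ₁_mono : Monotone σ₁ := by
  intro a b hab
  unfold σ₁
  exact max_le_max le_rfl (min_le_min le_rfl (by linarith))

theorem σt_nonneg (v : ℝ) : 0 ≤ σt v := le_max_left _ _

theorem σt_le (v : ℝ) : σt v ≤ 1 := max_le (by norm_num) (min_le_left _ _)

theorem pie_ge {N : ℝ} (hN : 1 ≤ N) (u : ℝ) : 3 ≤ pie N u := by
  have := E₀_nonneg hN (σ₁_nonneg (Int.fract u)) (σ₁_le (Int.fract u))
  unfold pie
  linarith

theorem top_ge {N : ℝ} (hN : 1 ≤ N) (u : ℝ) : 4 ≤ top N u := by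
  have := σt_nonneg (Int.fract u)
  unfold top
  nlinarith

theorem top_le {N : ℝ} (hN : 1 ≤ N) (u : ℝ) : top N u ≤ 4 + N := by
  have := σt_le (Int.fract u)
  unfold top
  nlinarith

theorem pie_lt_top {N : ℝ} (hN : 1 ≤ N) (u : ℝ) : pie N u < top N u := by
  set v := Int.fract u with hv
  by_cases h1 : 7 / 16 < v
  · by_cases h2 : v < 9 / 16
    · have : σt v = 1 := by
        unfold σt
        rw [min_eq_left (a := (1 : ℝ)), max_eq_right (by norm_num)]
        exact le_min (by linarith) (by linarith)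
      unfold pie top
      rw [← hv, this]
      have := E₀_lt (S := σ₁ v) hN
      linarith
    · rw [not_lt] at h2
      have h3 : σ₁ v = 1 := by
        unfold σ₁
        rw [min_eq_left (by linarith), max_eq_right (by norm_num)]
      have := top_ge hN u
      unfold pie
      rw [← hv, h3, E₀_one hN]
      linarith
  · rw [not_lt] at h1
    have h3 : σ₁ v = 0 := by
      unfold σ₁
      rw [max_eq_left]
      exact (min_le_right _ _).trans (by linarith)
    have := top_ge hN u
    unfold pie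
    rw [← hv, h3, E₀_zero hN]
    linarith

theorem fract_eq {u : ℝ} {j : ℤ} (h0 : 0 ≤ u - j) (h1 : u - j < 1) :
    Int.fract u = u - j ∧ ⌊u⌋ = j := by
  have h : ⌊u⌋ = j := Int.floor_eq_iff.mpr ⟨by linarith, by linarith⟩
  exact ⟨by rw [Int.fract, h], h⟩

theorem top_add_one (N u : ℝ) : top N (u + 1) = top N u := by
  unfold top; rw [Int.fract_add_one]

theorem pie_add_one (N u : ℝ) : pie N (u + 1) = pie N u := by
  unfold pie; rw [Int.fract_add_one]

theorem gg_add_one (N u : ℝ) : gg N (u + 1) = gg N u + 1 := by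
  unfold gg; rw [Int.fract_add_one, Int.floor_add_one]; push_cast; ring

theorem continuous_gg (N : ℝ) : Continuous (gg N) := by
  have h : Continuous ((fun v => σ₁ v - v) ∘ Int.fract : ℝ → ℝ) := by
    apply ContinuousOn.comp_fract''
    · apply Continuous.continuousOn
      unfold σ₁
      fun_prop
    · unfold σ₁; norm_num
  have h2 : gg N = fun u => 4 / (7 * (N + 1)) * u + (1 - 4 / (7 * (N + 1))) *
      (u + ((fun v => σ₁ v - v) ∘ Int.fract) u) := by
    funext u
    have : (⌊u⌋ : ℝ) = u - Int.fract u := by rw [Int.fract]; ring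
    simp only [gg, Function.comp, this]
    ring
  rw [h2]
  fun_prop

/-- the step function -/
theorem SS_mono : Monotone fun u : ℝ => (⌊u⌋ : ℝ) + σ₁ (Int.fract u) := by
  intro a b hab
  have h1 : ⌊a⌋ ≤ ⌊b⌋ := Int.floor_le_floor hab
  simp only
  rcases eq_or_lt_of_le h1 with h | h
  · have h2 : Int.fract a ≤ Int.fract b := by
      rw [Int.fract, Int.fract, h]; linarith
    rw [h]
    have := σ₁_mono h2
    linarith
  · have h2 : (⌊a⌋ : ℝ) + 1 ≤ ⌊b⌋ := by exact_mod_cast h
    have := σ₁_le (Int.fract a)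
    have := σ₁_nonneg (Int.fract b)
    linarith

theorem alpha_pos {N : ℝ} (hN : 1 ≤ N) : 0 < 4 / (7 * (N + 1)) := by positivity

theorem alpha_lt {N : ℝ} (hN : 1 ≤ N) : 4 / (7 * (N + 1)) < 1 := by
  rw [div_lt_one (by positivity)]; linarith

theorem gg_strictMono {N : ℝ} (hN : 1 ≤ N) : StrictMono (gg N) := by
  intro a b hab
  have h1 := SS_mono hab.le
  simp only at h1
  have h2 := alpha_pos hN
  have h3 := alpha_lt hN
  unfold gg
  nlinarith

theorem gg_bound {N : ℝ} (hN : 1 ≤ N) (u : ℝ) : |gg N u - u| ≤ 1 := by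
  have h1 : gg N u - u = (1 - 4 / (7 * (N + 1))) * (σ₁ (Int.fract u) - Int.fract u) := by
    have : (⌊u⌋ : ℝ) = u - Int.fract u := by rw [Int.fract]; ring
    unfold gg
    rw [this]; ring
  have h2 := alpha_pos hN
  have h3 := alpha_lt hN
  have h4 := σ₁_nonneg (Int.fract u)
  have h5 := σ₁_le (Int.fract u)
  have h6 := Int.fract_nonneg u
  have h7 := (Int.fract_lt_one u).le
  rw [h1, abs_mul, abs_of_pos (by linarith : 0 < 1 - 4 / (7 * (N + 1)))]
  have : |σ₁ (Int.fract u) - Int.fract u| ≤ 1 := by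
    rw [abs_le]; constructor <;> linarith
  nlinarith [abs_nonneg (σ₁ (Int.fract u) - Int.fract u)]

theorem gg_eq {N : ℝ} {u : ℝ} {j : ℤ} (h0 : 7 / 16 ≤ u - j) (h1 : u - j ≤ 9 / 16) :
    gg N u = 4 / (7 * (N + 1)) * u + (1 - 4 / (7 * (N + 1))) * (j + (8 * (u - j) - 7 / 2)) := by
  obtain ⟨h2, h3⟩ := fract_eq (u := u) (j := j) (by linarith) (by linarith)
  unfold gg
  rw [h2, h3]
  unfold σ₁
  rw [min_eq_right (by linarith), max_eq_right (by linarith)]

theorem gg_lo {N : ℝ} (hN : 1 ≤ N) (j : ℤ) : gg N (j + 7 / 16) = j + 1 / (4 * (N + 1)) := by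
  have : N + 1 ≠ 0 := by linarith
  rw [gg_eq (j := j) (by linarith) (by linarith)]
  field_simp; ring

theorem gg_hi {N : ℝ} (hN : 1 ≤ N) (j : ℤ) :
    gg N (j + 9 / 16) = j + 1 - 1 / (4 * (N + 1)) := by
  have : N + 1 ≠ 0 := by linarith
  rw [gg_eq (j := j) (by linarith) (by linarith)]
  field_simp; ring

theorem gg_int (N : ℝ) (j : ℤ) : gg N j = j := by
  have h : σ₁ 0 = 0 := by unfold σ₁; norm_num
  unfold gg
  rw [Int.fract_intCast, Int.floor_intCast, h]
  ring

/-- position of the `i`-th puncture in a tooth -/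
noncomputable def xi (N i : ℝ) : ℝ := 7 / 16 + (4 * i + 3) / (8 * (4 * N + 2))

theorem xi_bounds {N i : ℝ} (hi0 : 0 ≤ i) (hi : i ≤ N - 1) :
    7 / 16 < xi N i ∧ xi N i < 9 / 16 := by
  have h : 0 < 8 * (4 * N + 2) := by linarith
  unfold xi
  constructor
  · have : 0 < (4 * i + 3) / (8 * (4 * N + 2)) := by positivity
    linarith
  · have : (4 * i + 3) / (8 * (4 * N + 2)) < 1 / 8 := by
      rw [div_lt_iff₀ h]; linarith
    linarith

theorem gg_xi {N i : ℝ} (hi0 : 0 ≤ i) (hi : i ≤ N - 1) (j : ℤ) :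
    gg N (j + xi N i) = j + (i + 1) / (N + 1) := by
  obtain ⟨h1, h2⟩ := xi_bounds hi0 hi
  have h3 : N + 1 ≠ 0 := by linarith
  have h4 : 4 * N + 2 ≠ 0 := by linarith
  rw [gg_eq (j := j) (by linarith) (by linarith)]
  unfold xi
  field_simp; ring

theorem pie_int {N : ℝ} (hN : 1 ≤ N) (j : ℤ) : pie N j = 3 := by
  have h : σ₁ 0 = 0 := by unfold σ₁; norm_num
  unfold pie
  rw [Int.fract_intCast, h, E₀_zero hN, add_zero]

theorem pie_xi {N i : ℝ} (hi0 : 0 ≤ i) (hi : i ≤ N - 1) (j : ℤ) :
    pie N (j + xi N i) = 9 / 2 + i := by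
  obtain ⟨h1, h2⟩ := xi_bounds hi0 hi
  obtain ⟨h3, -⟩ := fract_eq (u := j + xi N i) (j := j) (by linarith) (by linarith)
  have h4 : 0 < 4 * N + 2 := by linarith
  have hN : 1 ≤ N := by linarith
  unfold pie
  rw [h3, add_sub_cancel_left]
  have h5 : σ₁ (xi N i) = (4 * i + 3) / (4 * N + 2) := by
    unfold σ₁
    rw [min_eq_right (by linarith), max_eq_right (by linarith)]
    unfold xi
    field_simp; ring
  rw [h5]
  have h6 : (N + 1 / 2) * ((4 * i + 3) / (4 * N + 2)) + 3 / 4 = i + 3 / 2 := by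
    field_simp; ring
  have h7 : i + 3 / 2 ≤ 2 * (N + 1) ^ 2 * ((4 * i + 3) / (4 * N + 2)) := by
    rw [mul_div_assoc', le_div_iff₀ h4]
    nlinarith [mul_nonneg hi0 (by linarith : 0 ≤ N)]
  have h8 : i + 3 / 2 ≤ 2 * (N + 1) ^ 2 * (1 - (4 * i + 3) / (4 * N + 2)) := by
    have : 1 - (4 * i + 3) / (4 * N + 2) = (4 * (N - 1 - i) + 3) / (4 * N + 2) := by
      field_simp; ring
    rw [this, mul_div_assoc', le_div_iff₀ h4]
    nlinarith [mul_nonneg hi0 (by linarith : 0 ≤ N)]
  unfold E₀
  rw [h6, min_eq_left h8, min_eq_right h7]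
  ring

theorem top_plateau {N u : ℝ} {j : ℤ} (h0 : 7 / 16 ≤ u - j) (h1 : u - j ≤ 9 / 16) :
    top N u = 4 + N := by
  obtain ⟨h2, -⟩ := fract_eq (u := u) (j := j) (by linarith) (by linarith)
  have : σt (u - j) = 1 := by
    unfold σt
    rw [min_eq_left (a := (1 : ℝ)), max_eq_right (by norm_num)]
    exact le_min (by linarith) (by linarith)
  unfold top
  rw [h2, this, mul_one]

/-- left boundary of a tooth -/
noncomputable def ell (N y : ℝ) : ℝ := 3 / 8 + (y - 4) / (16 * N)

theorem ell_bounds {N y : ℝ} (hN : 1 ≤ N) (h4 : 4 ≤ y) (hy : y ≤ 4 + N) :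
    3 / 8 ≤ ell N y ∧ ell N y ≤ 7 / 16 := by
  unfold ell
  constructor
  · have : 0 ≤ (y - 4) / (16 * N) := div_nonneg (by linarith) (by linarith)
    linarith
  · have : (y - 4) / (16 * N) ≤ 1 / 16 := by
      rw [div_le_iff₀ (by linarith)]; linarith
    linarith

theorem le_top_of {N y u : ℝ} {j : ℤ} (hN : 1 ≤ N) (h4 : 4 ≤ y) (hy : y ≤ 4 + N)
    (h0 : ell N y ≤ u - j) (h1 : u - j ≤ 1 - ell N y) : y ≤ top N u := by
  obtain ⟨b1, b2⟩ := ell_bounds hN h4 hy
  obtain ⟨h2, -⟩ := fract_eq (u := u) (j := j) (by linarith) (by linarith)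
  unfold top
  rw [h2]
  have hN0 : 0 < N := by linarith
  have e : (y - 4) / N = 16 * ((y - 4) / (16 * N)) := by field_simp
  have h3 : (y - 4) / N ≤ σt (u - j) := by
    unfold ell at h0 h1
    unfold σt
    apply le_max_of_le_right
    refine le_min ?_ (le_min ?_ ?_)
    · rw [div_le_one hN0]; linarith
    · linarith
    · linarith
  rw [div_le_iff₀ hN0] at h3
  linarith

theorem of_le_top {N y u : ℝ} (hN : 1 ≤ N) (h4 : 4 < y) (h : y ≤ top N u) :
    y ≤ 4 + N ∧ ell N y ≤ Int.fract u ∧ Int.fract u ≤ 1 - ell N y := by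
  refine ⟨h.trans (top_le hN u), ?_⟩
  have hN0 : 0 < N := by linarith
  have e : (y - 4) / N = 16 * ((y - 4) / (16 * N)) := by field_simp
  unfold top at h
  have h3 : (y - 4) / N ≤ σt (Int.fract u) := by
    rw [div_le_iff₀ hN0]; linarith
  have h5 : 0 < (y - 4) / N := div_pos (by linarith) hN0
  unfold σt at h3
  rcases le_max_iff.mp h3 with h6 | h6
  · exact absurd h6 (not_le.mpr h5)
  · have h7 := le_min_iff.mp (le_min_iff.mp h6).2
    unfold ell
    constructor
    · linarith [h7.1]
    · linarith [h7.2]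

end Pool.Agent.Helper77.AR
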