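import Pool.Agent.Helper77.AR.Surface

/-!
# The action of `ℚ`
-/

open Set Topology Metric

namespace Pool.Agent.Helper77.AR

/-! ## The twists of the plane -/

/-- An explicit formula for the twist. -/
noncomputable def tw (t : ℝ) (z : ℂ) : ℂ :=
  z * Complex.exp (((2 * Real.pi * t * min 1 (Real.log (max 1 ‖z‖)) : ℝ) : ℂ) * Complex.I)

theorem D_T (t : ℝ) (z : ℂ) : D (T t) z = tw t z := by
  by_cases h0 : z = 0
  · rw [h0, D_of_norm_le _ (by simp), tw]
    simp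
  · obtain ⟨p, rfl⟩ := exists_E h0
    rw [D_E, T_apply, tw, norm_E]
    have h1 : Real.log (max 1 (Real.exp p.2)) = max 0 p.2 := by
      rcases le_total p.2 0 with h | h
      · rw [max_eq_left (Real.exp_le_one_iff.mpr h), max_eq_left h, Real.log_one]
      · rw [max_eq_right (Real.one_le_exp h), max_eq_right h, Real.log_exp]
    rw [h1, E, E, ← Complex.exp_add]
    congr 1
    apply Complex.ext
    · simp [LL_apply]
    · simp [LL_apply, phi]; ring

theorem continuous_tw : Continuous fun p : ℝ × ℂ => tw p.1 p.2 := by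
  unfold tw
  have h1 : Continuous fun p : ℝ × ℂ => Real.log (max 1 ‖p.2‖) := by
    apply Continuous.log
    · fun_prop
    · intro p
      have : 0 < max 1 ‖p.2‖ := lt_max_of_lt_left one_pos
      exact this.ne'
  fun_prop

theorem norm_D_T (t : ℝ) (z : ℂ) : ‖D (T t) z‖ = ‖z‖ := by
  rw [D_T, tw, norm_mul, Complex.norm_exp_ofReal_mul_I, mul_one]

/-! ## The conjugates -/

/-- The twist in the coordinates of level `k`. -/
noncomputable def Θ (k : ℕ) (t : ℝ) : G := (Psi k)⁻¹ * T t * Psi k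

theorem Θ_add (k : ℕ) (s t : ℝ) : Θ k (s + t) = Θ k s * Θ k t := by
  unfold Θ
  rw [T_add]
  group

theorem Θ_succ {k : ℕ} {t : ℝ} {m : ℤ} (h : (nn k : ℝ) * t = m) : Θ (k + 1) t = Θ k t := by
  have hc : T t * Φ k = Φ k * T t := Phi_comm (NN_ge k) (nn_ne k) h
  have h2 : (Φ k)⁻¹ * T t * Φ k = T t := by rw [mul_assoc, hc]; group
  unfold Θ
  rw [Psi, mul_inv_rev]
  calc (Psi k)⁻¹ * (Φ k)⁻¹ * T t * (Φ k * Psi k) = (Psi k)⁻¹ * ((Φ k)⁻¹ * T t * Φ k) * Psi k := by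
        group
    _ = _ := by rw [h2]

/-- `t` is a multiple of `1 / n_k`. -/
def Good (k : ℕ) (t : ℝ) : Prop := ∃ m : ℤ, (nn k : ℝ) * t = m

theorem Good.succ {k : ℕ} {t : ℝ} (h : Good k t) : Good (k + 1) t := by
  obtain ⟨m, hm⟩ := h
  refine ⟨(k + 2) * m, ?_⟩
  rw [nn_succ', mul_assoc, hm]
  push_cast
  ring

theorem Good.mono {k m : ℕ} (hkm : k ≤ m) {t : ℝ} (h : Good k t) : Good m t := by
  induction m, hkm using Nat.le_induction with
  | base => exact h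
  | succ m _ ih => exact ih.succ

theorem Θ_mono {k m : ℕ} (hkm : k ≤ m) {t : ℝ} (h : Good k t) : Θ m t = Θ k t := by
  induction m, hkm using Nat.le_induction with
  | base => rfl
  | succ m hkm ih =>
    obtain ⟨a, ha⟩ := h.mono hkm
    rw [Θ_succ ha, ih]

theorem Good.add {k : ℕ} {s t : ℝ} (hs : Good k s) (ht : Good k t) : Good k (s + t) := by
  obtain ⟨a, ha⟩ := hs
  obtain ⟨b, hb⟩ := ht
  exact ⟨a + b, by push_cast; rw [mul_add, ha, hb]⟩

theorem good_rat (q : ℚ) : Good q.den (q : ℝ) := by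
  have hd : q.den ∣ nn q.den := Nat.dvd_factorial q.den_pos (by omega)
  obtain ⟨c, hc⟩ := hd
  refine ⟨c * q.num, ?_⟩
  have h1 : (q : ℝ) * q.den = q.num := by exact_mod_cast Rat.mul_den_eq_num q
  rw [hc]
  push_cast
  rw [mul_assoc, mul_comm (q.den : ℝ), mul_assoc, h1]

theorem Θ_eq {k m : ℕ} {t : ℝ} (h : Good k t) (h' : Good m t) : Θ k t = Θ m t := by
  rcases le_total k m with hkm | hkm
  · exact (Θ_mono hkm h).symm
  · exact Θ_mono hkm h'

/-- The homomorphism from `ℚ` to the group `G`. -/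
noncomputable def γG : Multiplicative ℚ →* G where
  toFun q := Θ (q.toAdd).den ((q.toAdd : ℚ) : ℝ)
  map_one' := by
    unfold Θ
    simp [T_zero]
  map_mul' p q := by
    set K := max (p.toAdd).den (q.toAdd).den
    have hp : Good K ((p.toAdd : ℚ) : ℝ) := (good_rat _).mono (le_max_left _ _)
    have hq : Good K ((q.toAdd : ℚ) : ℝ) := (good_rat _).mono (le_max_right _ _)
    have hpq : Good K (((p * q).toAdd : ℚ) : ℝ) := by
      rw [toAdd_mul, Rat.cast_add]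
      exact hp.add hq
    rw [Θ_eq (good_rat _) hpq, Θ_eq (good_rat _) hp, Θ_eq (good_rat _) hq, toAdd_mul,
      Rat.cast_add, Θ_add]

theorem γG_eq {k : ℕ} {q : ℚ} (h : Good k (q : ℝ)) : γG (Multiplicative.ofAdd q) = Θ k q :=
  Θ_eq (good_rat q) h

/-- The homeomorphism of the plane associated with `q`. -/
noncomputable def Γ (q : ℚ) : ℂ ≃ₜ ℂ := D (γG (Multiplicative.ofAdd q))

theorem Γ_apply {k : ℕ} {q : ℚ} (h : Good k (q : ℝ)) (z : ℂ) :
    ψ k (Γ q z) = D (T q) (ψ k z) := by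
  unfold Γ
  rw [γG_eq h, Θ, map_mul, map_mul, map_inv]
  change ψ k ((ψ k).symm (D (T q) (ψ k z))) = _
  simp

theorem Γ_add (p q : ℚ) (z : ℂ) : Γ (p + q) z = Γ p (Γ q z) := by
  unfold Γ
  rw [ofAdd_add, map_mul, map_mul]
  rfl

theorem Γ_zero (z : ℂ) : Γ 0 z = z := by
  unfold Γ
  rw [ofAdd_zero, map_one, map_one]
  rfl

theorem Γ_neg (q : ℚ) (z : ℂ) : Γ (-q) (Γ q z) = z := by
  rw [← Γ_add, neg_add_cancel, Γ_zero]

theorem Γ_neg' (q : ℚ) (z : ℂ) : Γ q (Γ (-q) z) = z := by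
  rw [← Γ_add, add_neg_cancel, Γ_zero]

theorem Good.neg {k : ℕ} {t : ℝ} (h : Good k t) : Good k (-t) := by
  obtain ⟨m, hm⟩ := h
  exact ⟨-m, by push_cast; rw [mul_neg, hm]⟩

/-! ## The action on polygons -/

theorem Γ_norm {k : ℕ} {q : ℚ} (h : Good k (q : ℝ)) (z : ℂ) : ‖ψ k (Γ q z)‖ = ‖ψ k z‖ := by
  rw [Γ_apply h, norm_D_T]

theorem rot_E {q y : ℝ} (hy : 1 ≤ y) (x : ℝ) : D (T q) (E (x, y)) = E (x + q, y) := by
  rw [D_E, T_apply, phi_high hy]
  simp

theorem rot_pol {m : ℕ} {q : ℚ} {a : ℤ} (ha : (nn m : ℝ) * q = a) {j : ℤ} {i : ℕ} {z : ℂ}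
    (hz : z ∈ Pol m j i) : Γ q z ∈ Pol m (j + a) i := by
  obtain ⟨⟨x, y⟩, hp, hz⟩ := hz
  obtain ⟨h1, h2, h3, h4⟩ := hp
  simp only at h1 h2 h3 h4
  have hi : (0 : ℝ) ≤ i := Nat.cast_nonneg i
  refine ⟨(x + q, y), ⟨h1, h2, ?_, ?_⟩, ?_⟩
  · simp only; push_cast; linarith
  · simp only; push_cast; linarith
  · rw [Γ_apply ⟨a, ha⟩, hz, rot_E (by linarith)]

theorem pol_add_period (m : ℕ) (j : ℤ) (i : ℕ) (b : ℤ) :
    Pol m (j + nn m * b) i = Pol m j i := by
  have key : ∀ (j b : ℤ) (z : ℂ), z ∈ Pol m j i → z ∈ Pol m (j + nn m * b) i := by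
    rintro j b z ⟨⟨x, y⟩, ⟨h1, h2, h3, h4⟩, hz⟩
    simp only at h1 h2 h3 h4
    refine ⟨(x + b, y), ⟨h1, h2, ?_, ?_⟩, ?_⟩
    · simp only; push_cast; linarith
    · simp only; push_cast; linarith
    · rw [hz, E_eq_iff]
      exact ⟨rfl, -b, by push_cast; ring⟩
  ext z
  constructor
  · intro hz
    have := key _ (-b) z hz
    rwa [show j + nn m * b + nn m * -b = j by ring] at this
  · exact key j b z

/-- rotation of the index of a sector -/
def rotIdx (m : ℕ) (j a : ℤ) : ℕ := ((j + a) % nn m).toNat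

theorem rotIdx_lt (m : ℕ) (j a : ℤ) : rotIdx m j a < nn m := by
  have h1 : (0 : ℤ) < nn m := by exact_mod_cast nn_pos m
  have := Int.emod_lt_of_pos (j + a) h1
  have := Int.emod_nonneg (j + a) h1.ne'
  unfold rotIdx
  omega

theorem rotIdx_eq (m : ℕ) (j a : ℤ) : (rotIdx m j a : ℤ) = (j + a) - nn m * ((j + a) / nn m) := by
  have h1 : (0 : ℤ) < nn m := by exact_mod_cast nn_pos m
  have := Int.emod_nonneg (j + a) h1.ne'
  unfold rotIdx
  rw [Int.toNat_of_nonneg this, Int.emod_def]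

theorem pol_rotIdx (m : ℕ) (j a : ℤ) (i : ℕ) : Pol m (rotIdx m j a) i = Pol m (j + a) i := by
  rw [rotIdx_eq, sub_eq_add_neg, ← mul_neg, pol_add_period]

theorem rot_pol_image {m : ℕ} {q : ℚ} {a : ℤ} (ha : (nn m : ℝ) * q = a) (j : ℤ) (i : ℕ) (z : ℂ) :
    Γ q z ∈ Pol m (rotIdx m j a) i ↔ z ∈ Pol m j i := by
  rw [pol_rotIdx]
  constructor
  · intro h
    have ha' : (nn m : ℝ) * ((-q : ℚ) : ℝ) = ((-a : ℤ) : ℝ) := by push_cast; rw [mul_neg, ha]
    have := rot_pol ha' h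
    rwa [Γ_neg, add_neg_cancel_right] at this
  · exact rot_pol ha

/-! ## The surface -/

theorem core_cover (z : ℂ) (hz : ‖z‖ ≤ Real.exp 4) : z ∈ Pa ∨ z ∈ Pb ∨ z ∈ Pc := by
  rcases le_total z.re 0 with h | h
  · exact Or.inl ⟨hz, h⟩
  · rcases le_total z.re 1 with h' | h'
    · exact Or.inr (Or.inl ⟨hz, h, h'⟩)
    · exact Or.inr (Or.inr ⟨hz, h'⟩)

theorem cover_all (k : ℕ) (z : ℂ) : ‖ψ k z‖ ≤ Real.exp 4 ↔ ∃ v, lev v ≤ k ∧ z ∈ PP v := by
  induction k with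
  | zero =>
    rw [ψ_zero]
    constructor
    · intro h
      rcases core_cover z h with h | h | h
      · exact ⟨.a, le_rfl, h⟩
      · exact ⟨.b, le_rfl, h⟩
      · exact ⟨.c, le_rfl, h⟩
    · rintro ⟨v, hv, h⟩
      match v with
      | .a => exact h.1
      | .b => exact h.1
      | .c => exact h.1
      | .node k j i hj hi => simp [lev] at hv
  | succ k ih =>
    constructor
    · intro h
      by_cases h' : ‖ψ k z‖ ≤ Real.exp 4
      · obtain ⟨v, hv, hz⟩ := ih.mp h'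
        exact ⟨v, by omega, hz⟩
      · obtain ⟨j, i, hj, hi, hz⟩ := cover h h'
        exact ⟨.node k j i hj hi, le_rfl, hz⟩
    · rintro ⟨v, hv, hz⟩
      rcases Nat.lt_or_ge k (lev v) with h | h
      · have hlev : lev v = k + 1 := by omega
        match v with
        | .a => simp [lev] at h
        | .b => simp [lev] at h
        | .c => simp [lev] at h
        | .node k' j i hj hi =>
          simp only [lev] at hlev
          obtain rfl : k' = k := by omega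
          exact pol_in hi hz
      · exact X_mono (ih.mpr ⟨v, h, hz⟩)

theorem mem_surf (z : ℂ) : z ∈ RS.Surf ↔ ∃ v, z ∈ PP v := mem_iUnion

/-- The action of `q` on the vertices of level at least `k`. -/
theorem high_vertex {k : ℕ} {v : Vx} (hv : ¬ lev v ≤ k) :
    ∃ m j i, ∃ (hj : j < nn m) (hi : i ≤ m), v = .node m j i hj hi ∧ k ≤ m := by
  match v with
  | .a => simp [lev] at hv
  | .b => simp [lev] at hv
  | .c => simp [lev] at hv
  | .node m j i hj hi =>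
    exact ⟨m, j, i, hj, hi, rfl, by simp only [lev] at hv; omega⟩

theorem Γ_surf_of {q : ℚ} {z : ℂ} (hz : z ∈ RS.Surf) : Γ q z ∈ RS.Surf := by
  rw [mem_surf] at hz ⊢
  obtain ⟨v, hv⟩ := hz
  set k := q.den
  have hg := good_rat q
  by_cases hk : lev v ≤ k
  · have h1 : ‖ψ k z‖ ≤ Real.exp 4 := (cover_all k z).mpr ⟨v, hk, hv⟩
    rw [← Γ_norm hg] at h1
    obtain ⟨w, -, hw⟩ := (cover_all k _).mp h1
    exact ⟨w, hw⟩
  · obtain ⟨m, j, i, hj, hi, rfl, hkm⟩ := high_vertex hk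
    obtain ⟨a, ha⟩ := hg.mono hkm
    exact ⟨.node m (rotIdx m j a) i (rotIdx_lt _ _ _) hi, (rot_pol_image ha j i z).mpr hv⟩

theorem Γ_surf (q : ℚ) (z : ℂ) : z ∈ RS.Surf ↔ Γ q z ∈ RS.Surf := by
  refine ⟨Γ_surf_of, fun h => ?_⟩
  have := Γ_surf_of (q := -q) h
  rwa [Γ_neg] at this

/-- The homeomorphism of the surface associated with `q`. -/
noncomputable def γS (q : ℚ) : RS.Surf ≃ₜ RS.Surf := (Γ q).subtype (Γ_surf q)

theorem γS_coe (q : ℚ) (x : RS.Surf) : ((γS q x : RS.Surf) : ℂ) = Γ q x := rfl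

theorem γS_add (p q : ℚ) : γS (p + q) = γS p * γS q := by
  apply Homeomorph.ext
  intro x
  apply Subtype.ext
  rw [γS_coe, Homeomorph.mul_apply, γS_coe, γS_coe, Γ_add]

theorem γS_neg (q : ℚ) : γS (-q) = (γS q)⁻¹ := by
  rw [eq_inv_iff_mul_eq_one, ← γS_add, neg_add_cancel]
  apply Homeomorph.ext
  intro x
  apply Subtype.ext
  rw [γS_coe, Γ_zero]
  rfl

end Pool.Agent.Helper77.AR
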