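import Pool.Agent.Helper77.AR.Phi

/-!
# The levels of the construction
-/

open Set Topology Metric

namespace Pool.Agent.Helper77.AR

/-- number of sectors at level `k` -/
def nn (k : ℕ) : ℕ := (k + 1).factorial

theorem nn_succ (k : ℕ) : nn (k + 1) = (k + 2) * nn k := Nat.factorial_succ (k + 1)

theorem nn_pos (k : ℕ) : 0 < nn k := Nat.factorial_pos _

theorem nn_zero : nn 0 = 1 := rfl

theorem nn_ne (k : ℕ) : (nn k : ℝ) ≠ 0 := by exact_mod_cast (nn_pos k).ne'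

theorem nn_pos' (k : ℕ) : (0 : ℝ) < nn k := by exact_mod_cast nn_pos k

theorem nn_succ' (k : ℕ) : (nn (k + 1) : ℝ) = ((k : ℝ) + 2) * nn k := by
  rw [nn_succ]; push_cast; ring

/-- number of polygons in a tooth at level `k` -/
noncomputable def NN (k : ℕ) : ℝ := (k : ℝ) + 1

theorem NN_ge (k : ℕ) : 1 ≤ NN k := by
  unfold NN
  have : (0 : ℝ) ≤ k := Nat.cast_nonneg k
  linarith

/-- `Φ` at level `k` -/
noncomputable def Φ (k : ℕ) : G := PhiG (NN k) (NN_ge k) (nn k) (nn_ne k)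

/-- The composition of the first `k` of the `Φ`s -/
noncomputable def Psi : ℕ → G
  | 0 => 1
  | k + 1 => Φ k * Psi k

/-- The homeomorphism of `ℂ` straightening level `k`. -/
noncomputable def ψ (k : ℕ) : ℂ ≃ₜ ℂ := D (Psi k)

theorem ψ_zero (z : ℂ) : ψ 0 z = z := by
  unfold ψ Psi
  rw [map_one]
  rfl

theorem ψ_succ (k : ℕ) (z : ℂ) : ψ (k + 1) z = D (Φ k) (ψ k z) := by
  unfold ψ
  rw [Psi, map_mul]
  rfl

theorem Φ_apply (k : ℕ) (p : ℝ × ℝ) : (Φ k : (ℝ × ℝ) ≃ₜ (ℝ × ℝ)) p =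
    ((nn k : ℝ)⁻¹ * fh (NN k) (fv (NN k) (nn k * p.1) p.2) (nn k * p.1),
      fv (NN k) (nn k * p.1) p.2) := rfl

theorem Φ_high {k : ℕ} {p : ℝ × ℝ} (h : 2 ≤ fv (NN k) (nn k * p.1) p.2) :
    (Φ k : (ℝ × ℝ) ≃ₜ (ℝ × ℝ)) p =
    ((nn k : ℝ)⁻¹ * gg (NN k) (nn k * p.1), fv (NN k) (nn k * p.1) p.2) := by
  rw [Φ_apply, fh, lam_high h]
  ext
  · simp
  · rfl

theorem int_eq_zero_of_abs {m : ℤ} (h1 : (-1 : ℝ) < m) (h2 : (m : ℝ) < 1) : m = 0 := by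
  have h1' : (-1 : ℤ) < m := by exact_mod_cast h1
  have h2' : m < (1 : ℤ) := by exact_mod_cast h2
  omega

/-- Going down one level from a sector. -/
theorem level_down (k : ℕ) (q : ℝ × ℝ) (hq : 4 ≤ q.2) (j' : ℤ)
    (h0 : 3 / 8 ≤ nn (k + 1) * q.1 - j') (h1 : nn (k + 1) * q.1 - j' ≤ 5 / 8) :
    ∃ p : ℝ × ℝ, (Φ k : (ℝ × ℝ) ≃ₜ (ℝ × ℝ)) p = q ∧ p.2 = q.2 + NN k ∧
      7 / 16 < nn k * p.1 - ((j' / (k + 2) : ℤ) : ℝ) ∧
      nn k * p.1 - ((j' / (k + 2) : ℤ) : ℝ) < 9 / 16 := by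
  obtain ⟨p, hp⟩ := (Φ k : (ℝ × ℝ) ≃ₜ (ℝ × ℝ)).surjective q
  have hN := NN_ge k
  have hM : (0 : ℝ) < (k : ℝ) + 2 := by positivity
  have hNM : NN k + 1 = (k : ℝ) + 2 := by unfold NN; ring
  have h2 : fv (NN k) (nn k * p.1) p.2 = q.2 := by
    have := congrArg Prod.snd hp
    rwa [Φ_apply] at this
  have h3 : (nn k : ℝ)⁻¹ * gg (NN k) (nn k * p.1) = q.1 := by
    have := congrArg Prod.fst hp
    rwa [Φ_high (by rw [h2]; linarith)] at this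
  set u := nn k * p.1 with hu
  set j := j' / ((k : ℤ) + 2) with hj
  have hmod := Int.emod_nonneg j' (by positivity : ((k : ℤ) + 2) ≠ 0)
  have hmod2 := Int.emod_lt_of_pos j' (by positivity : (0 : ℤ) < (k : ℤ) + 2)
  have hdm := Int.emod_add_mul_ediv j' ((k : ℤ) + 2)
  set r := j' % ((k : ℤ) + 2) with hr
  have hjr : (j' : ℝ) = ((k : ℝ) + 2) * j + r := by
    have : (j' : ℤ) = ((k : ℤ) + 2) * j + r := by rw [hj]; linarith
    exact_mod_cast this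
  have hr0 : (0 : ℝ) ≤ r := by exact_mod_cast hmod
  have hr1 : (r : ℝ) + 1 ≤ (k : ℝ) + 2 := by
    have : r + 1 ≤ (k : ℤ) + 2 := by omega
    exact_mod_cast this
  have h4 : (nn (k + 1) : ℝ) * q.1 = ((k : ℝ) + 2) * gg (NN k) u := by
    rw [nn_succ', ← h3]
    have := nn_ne k
    field_simp
  rw [h4, hjr] at h0 h1
  -- bounds on gg u
  have hlo : gg (NN k) (j + 7 / 16) < gg (NN k) u := by
    rw [gg_lo hN, hNM]
    have : (j : ℝ) + 1 / (4 * ((k : ℝ) + 2)) = ((k + 2 : ℝ) * j + 1 / 4) / (k + 2) := by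
      field_simp
    rw [this, div_lt_iff₀ hM]
    linarith
  have hhi : gg (NN k) u < gg (NN k) (j + 9 / 16) := by
    rw [gg_hi hN, hNM]
    have : (j : ℝ) + 1 - 1 / (4 * ((k : ℝ) + 2)) =
        ((k + 2 : ℝ) * j + (k + 2) - 1 / 4) / (k + 2) := by
      field_simp
    rw [this, lt_div_iff₀ hM]
    linarith
  have hlo' := (gg_strictMono hN).lt_iff_lt.mp hlo
  have hhi' := (gg_strictMono hN).lt_iff_lt.mp hhi
  have htop : top (NN k) u = 4 + NN k := top_plateau (j := j) (by linarith) (by linarith)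
  have hge : top (NN k) u ≤ p.2 := by
    rw [← (fv_strictMono hN u).le_iff_le, fv_top hN, h2]
    exact hq
  have h5 := fv_high hN u hge
  rw [h2, htop] at h5
  exact ⟨p, hp, by linarith, by linarith, by linarith⟩

/-- The trapezoids. -/
def Tz (k : ℕ) (j : ℤ) (i : ℕ) : Set (ℝ × ℝ) :=
  {p | (4 + i : ℝ) ≤ p.2 ∧ p.2 ≤ 5 + i ∧ ell (NN k) p.2 ≤ nn k * p.1 - j ∧
    nn k * p.1 - j ≤ 1 - ell (NN k) p.2}

/-- The polygons. -/
def Pol (k : ℕ) (j : ℤ) (i : ℕ) : Set ℂ := {z | ∃ p ∈ Tz k j i, ψ k z = E p}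

theorem Tz_bounds {k : ℕ} {j : ℤ} {i : ℕ} (hi : i ≤ k) {p : ℝ × ℝ} (hp : p ∈ Tz k j i) :
    4 ≤ p.2 ∧ p.2 ≤ 4 + NN k ∧ 3 / 8 ≤ nn k * p.1 - j ∧ nn k * p.1 - j ≤ 5 / 8 := by
  obtain ⟨h1, h2, h3, h4⟩ := hp
  have h5 : (0 : ℝ) ≤ i := Nat.cast_nonneg i
  have h6 : (i : ℝ) ≤ k := by exact_mod_cast hi
  have h7 : p.2 ≤ 4 + NN k := by unfold NN; linarith
  obtain ⟨h8, h9⟩ := ell_bounds (NN_ge k) (by linarith : 4 ≤ p.2) h7
  exact ⟨by linarith, h7, by linarith, by linarith⟩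

theorem lift_low (k : ℕ) : ∀ (q : ℝ × ℝ), 4 ≤ q.2 →
    (∃ j : ℤ, 3 / 8 ≤ nn k * q.1 - j ∧ nn k * q.1 - j ≤ 5 / 8) →
    ∃ p : ℝ × ℝ, (Psi k : (ℝ × ℝ) ≃ₜ (ℝ × ℝ)) p = q ∧ q.2 + k ≤ p.2 := by
  induction k with
  | zero =>
    intro q _ _
    exact ⟨q, rfl, by simp⟩
  | succ k ih =>
    rintro q hq ⟨j, h0, h1⟩
    obtain ⟨p, hp, hp2, hp3, hp4⟩ := level_down k q hq j h0 h1
    have hN := NN_ge k
    obtain ⟨p', hp', hp'2⟩ := ih p (by linarith) ⟨(j / (k + 2) : ℤ), by linarith, by linarith⟩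
    refine ⟨p', ?_, ?_⟩
    · rw [Psi, Subgroup.coe_mul, Homeomorph.mul_apply, hp', hp]
    · push_cast
      linarith

theorem ψ_E (k : ℕ) (p : ℝ × ℝ) : ψ k (E p) = E ((Psi k : (ℝ × ℝ) ≃ₜ (ℝ × ℝ)) p) := D_E _ _

theorem pol_norm {k : ℕ} {j : ℤ} {i : ℕ} (hi : i ≤ k) {z : ℂ} (hz : z ∈ Pol k j i) :
    Real.exp (4 + k) ≤ ‖z‖ := by
  obtain ⟨q, hq, hz⟩ := hz
  obtain ⟨h1, h2, h3, h4⟩ := Tz_bounds hi hq
  obtain ⟨p, hp, hp2⟩ := lift_low k q h1 ⟨j, h3, h4⟩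
  have : z = E p := by
    apply (ψ k).injective
    rw [hz, ψ_E, hp]
  rw [this, norm_E]
  apply Real.exp_le_exp.mpr
  linarith

/-- a point of a polygon of level `k` is outside of the previous surface, or on its boundary -/
theorem pol_ge {k : ℕ} {j : ℤ} {i : ℕ} {z : ℂ} (hz : z ∈ Pol k j i) :
    Real.exp 4 ≤ ‖ψ k z‖ := by
  obtain ⟨q, hq, hz⟩ := hz
  rw [hz, norm_E]
  apply Real.exp_le_exp.mpr
  have := hq.1
  have h5 : (0 : ℝ) ≤ i := Nat.cast_nonneg i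
  linarith

theorem pol_down {k : ℕ} {j' : ℤ} {i : ℕ} (hi : i ≤ k + 1) {z : ℂ} (hz : z ∈ Pol (k + 1) j' i) :
    ∃ q ∈ Tz (k + 1) j' i, ∃ p : ℝ × ℝ, ψ (k + 1) z = E q ∧ ψ k z = E p ∧
      (Φ k : (ℝ × ℝ) ≃ₜ (ℝ × ℝ)) p = q ∧ p.2 = q.2 + NN k ∧
      7 / 16 < nn k * p.1 - ((j' / (k + 2) : ℤ) : ℝ) ∧
      nn k * p.1 - ((j' / (k + 2) : ℤ) : ℝ) < 9 / 16 := by
  obtain ⟨q, hq, hz⟩ := hz
  obtain ⟨h1, h2, h3, h4⟩ := Tz_bounds hi hq
  obtain ⟨p, hp, hp2, hp3, hp4⟩ := level_down k q h1 j' h3 h4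
  refine ⟨q, hq, p, hz, ?_, hp, hp2, hp3, hp4⟩
  apply (D (Φ k)).injective
  rw [← ψ_succ, hz, D_E, hp]

theorem pol_out {k : ℕ} {j' : ℤ} {i : ℕ} (hi : i ≤ k + 1) {z : ℂ} (hz : z ∈ Pol (k + 1) j' i) :
    Real.exp 4 < ‖ψ k z‖ := by
  obtain ⟨q, hq, p, h1, h2, h3, h4, -⟩ := pol_down hi hz
  rw [h2, norm_E]
  apply Real.exp_lt_exp.mpr
  have := (Tz_bounds hi hq).1
  have := NN_ge k
  linarith

theorem DΦ_norm_le {k : ℕ} {p : ℝ × ℝ} :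
    ‖D (Φ k) (E p)‖ ≤ Real.exp 4 ↔ p.2 ≤ top (NN k) (nn k * p.1) := by
  rw [D_E, norm_E, Real.exp_le_exp, Φ_apply]
  exact fv_le_four (NN_ge k)

theorem X_mono {k : ℕ} {z : ℂ} (hz : ‖ψ k z‖ ≤ Real.exp 4) : ‖ψ (k + 1) z‖ ≤ Real.exp 4 := by
  rw [ψ_succ]
  by_cases h0 : ψ k z = 0
  · rw [h0, D_of_norm_le _ (by simp), norm_zero]
    positivity
  · obtain ⟨p, hp⟩ := exists_E h0
    rw [← hp] at hz ⊢
    rw [norm_E, Real.exp_le_exp] at hz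
    rw [DΦ_norm_le]
    exact hz.trans (top_ge (NN_ge k) _)

theorem X_mono' {k m : ℕ} (hkm : k ≤ m) {z : ℂ} (hz : ‖ψ k z‖ ≤ Real.exp 4) :
    ‖ψ m z‖ ≤ Real.exp 4 := by
  induction m, hkm using Nat.le_induction with
  | base => exact hz
  | succ m _ ih => exact X_mono ih

theorem pol_in {k : ℕ} {j : ℤ} {i : ℕ} (hi : i ≤ k) {z : ℂ} (hz : z ∈ Pol k j i) :
    ‖ψ (k + 1) z‖ ≤ Real.exp 4 := by
  obtain ⟨q, hq, hz⟩ := hz
  obtain ⟨h1, h2, h3, h4⟩ := Tz_bounds hi hq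
  rw [ψ_succ, hz, DΦ_norm_le]
  exact le_top_of (NN_ge k) h1 h2 hq.2.2.1 hq.2.2.2

/-- The new points at level `k + 1` are in the polygons of level `k`. -/
theorem cover {k : ℕ} {z : ℂ} (hz : ‖ψ (k + 1) z‖ ≤ Real.exp 4) (hz' : ¬ ‖ψ k z‖ ≤ Real.exp 4) :
    ∃ j i : ℕ, j < nn k ∧ i ≤ k ∧ z ∈ Pol k j i := by
  have h0 : ψ k z ≠ 0 := by
    intro h0
    apply hz'
    rw [h0, norm_zero]
    positivity
  obtain ⟨p', hp'⟩ := exists_E h0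
  -- normalise the first coordinate
  let p : ℝ × ℝ := (Int.fract p'.1, p'.2)
  have hp : E p = ψ k z := by
    rw [← hp', E_eq_iff]
    exact ⟨rfl, -⌊p'.1⌋, by simp only [p, Int.fract]; push_cast; ring⟩
  rw [ψ_succ, ← hp, DΦ_norm_le] at hz
  rw [← hp, norm_E, Real.exp_le_exp, not_le] at hz'
  have hN := NN_ge k
  obtain ⟨h1, h2, h3⟩ := of_le_top hN hz' hz
  have hx0 : 0 ≤ p.1 := Int.fract_nonneg _
  have hx1 : p.1 < 1 := Int.fract_lt_one _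
  have hn := nn_pos' k
  set u : ℝ := nn k * p.1 with hu
  have hu0 : 0 ≤ u := mul_nonneg hn.le hx0
  have hu1 : u < nn k := by nlinarith
  have hfl : ((⌊u⌋₊ : ℕ) : ℤ) = ⌊u⌋ := Int.natCast_floor_eq_floor hu0
  have hfl' : ((⌊u⌋₊ : ℕ) : ℝ) = (⌊u⌋ : ℝ) := by exact_mod_cast congrArg (Int.cast (R := ℝ)) hfl
  have hj : ⌊u⌋₊ < nn k := (Nat.floor_lt hu0).mpr hu1
  have hfr : u - ((⌊u⌋₊ : ℕ) : ℝ) = Int.fract u := by rw [hfl', Int.fract]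
  have hy0 : 0 ≤ p.2 - 4 := by linarith
  refine ⟨⌊u⌋₊, min ⌊p.2 - 4⌋₊ k, hj, min_le_right _ _, p, ⟨?_, ?_, ?_, ?_⟩, hp.symm⟩
  · have : ((min ⌊p.2 - 4⌋₊ k : ℕ) : ℝ) ≤ p.2 - 4 :=
      le_trans (by exact_mod_cast min_le_left _ _) (Nat.floor_le hy0)
    linarith
  · rcases le_total ⌊p.2 - 4⌋₊ k with h | h
    · rw [min_eq_left h]
      have := Nat.lt_floor_add_one (p.2 - 4)
      linarith
    · rw [min_eq_right h]
      unfold NN at h1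
      linarith
  · rw [Int.cast_natCast, hfr]
    exact h2
  · rw [Int.cast_natCast, hfr]
    exact h3

theorem int_eq_of_mod {n : ℕ} {a b m : ℤ} (ha : 0 ≤ a) (ha' : a < n) (hb : 0 ≤ b) (hb' : b < n)
    (h : a = b + n * m) : m = 0 := by
  by_contra hm
  rcases lt_or_gt_of_ne hm with h1 | h1
  · have : (n : ℤ) * m ≤ n * (-1) := mul_le_mul_of_nonneg_left (by omega) (by positivity)
    linarith
  · have : (n : ℤ) * 1 ≤ n * m := mul_le_mul_of_nonneg_left (by omega) (by positivity)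
    linarith

/-- Polygons of successive levels. -/
theorem meet_succ {k j i j' i' : ℕ} (hj : j < nn k) (hi : i ≤ k) (hj' : j' < nn (k + 1))
    (hi' : i' ≤ k + 1) {z : ℂ} (hz : z ∈ Pol k j i) (hz' : z ∈ Pol (k + 1) j' i') :
    i' = 0 ∧ i = k ∧ j = j' / (k + 2) ∧ ∃ x : ℝ, 3 / 8 ≤ nn (k + 1) * x - j' ∧
      nn (k + 1) * x - j' ≤ 5 / 8 ∧ ψ (k + 1) z = E (x, 4) := by
  obtain ⟨q, hq, p, h1, h2, h3, h4, h5, h6⟩ := pol_down hi' hz'
  obtain ⟨p', hp', hz⟩ := hz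
  rw [h2] at hz
  obtain ⟨e1, m, e2⟩ := E_eq_iff.mp hz
  obtain ⟨b1, b2, b3, b4⟩ := Tz_bounds hi hp'
  obtain ⟨c1, c2, c3, c4⟩ := Tz_bounds hi' hq
  have hNk : NN k = (k : ℝ) + 1 := rfl
  have hik : (i : ℝ) ≤ k := by exact_mod_cast hi
  have hq2 : q.2 = 4 := by linarith
  have hi2 : (k : ℝ) ≤ i := by
    have := hp'.2.1
    linarith
  have hik' : i = k := le_antisymm hi (by exact_mod_cast hi2)
  have hi0 : i' = 0 := by
    have := hq.1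
    have h : (i' : ℝ) ≤ 0 := by linarith
    exact_mod_cast (by exact_mod_cast h : (i' : ℤ) ≤ 0).antisymm (by positivity)
  -- the sectors
  have hdiv : ((j' : ℤ) / ((k : ℤ) + 2)) = ((j' / (k + 2) : ℕ) : ℤ) := by push_cast; rfl
  rw [hdiv] at h5 h6
  set j'' := j' / (k + 2) with hj''
  have hj''lt : j'' < nn k := by
    rw [hj'', Nat.div_lt_iff_lt_mul (by omega), mul_comm, ← nn_succ]
    exact hj'
  rw [e2] at h5 h6
  push_cast at h5 h6 b3 b4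
  have hm : (j : ℤ) - j'' + nn k * m = 0 := by
    apply int_eq_zero_of_abs
    · push_cast; linarith
    · push_cast; linarith
  have hm0 : m = 0 := by
    apply int_eq_of_mod (n := nn k) (a := j'') (b := j) (by positivity)
      (by exact_mod_cast hj''lt) (by positivity) (by exact_mod_cast hj)
    linarith
  rw [hm0] at hm
  refine ⟨hi0, hik', by omega, q.1, by exact_mod_cast c3, by exact_mod_cast c4, ?_⟩
  rw [h1]
  congr 1
  ext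
  · rfl
  · exact hq2

/-- The converse: the outer arc lies in the previous polygon. -/
theorem arc_mem_prev {k j' : ℕ} {z : ℂ} {x : ℝ} (h0 : 3 / 8 ≤ nn (k + 1) * x - j')
    (h1 : nn (k + 1) * x - j' ≤ 5 / 8) (hz : ψ (k + 1) z = E (x, 4)) :
    z ∈ Pol k ((j' / (k + 2) : ℕ) : ℤ) k := by
  obtain ⟨p, hp, hp2, hp3, hp4⟩ := level_down k (x, 4) le_rfl j' (by exact_mod_cast h0)
    (by exact_mod_cast h1)
  have hdiv : ((j' : ℤ) / ((k : ℤ) + 2)) = ((j' / (k + 2) : ℕ) : ℤ) := by push_cast; rfl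
  rw [hdiv] at hp3 hp4
  simp only at hp2
  have hNk : NN k = (k : ℝ) + 1 := rfl
  have hk : (0 : ℝ) ≤ k := Nat.cast_nonneg k
  have hell : ell (NN k) p.2 = 7 / 16 := by
    unfold ell
    rw [hp2]
    have : NN k ≠ 0 := by rw [hNk]; positivity
    field_simp; ring
  refine ⟨p, ⟨by rw [hp2, hNk]; linarith, by rw [hp2, hNk]; linarith, by rw [hell]; linarith,
    by rw [hell]; linarith⟩, ?_⟩
  apply (D (Φ k)).injective
  rw [← ψ_succ, hz, D_E, hp]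

/-- Polygons of the same level. -/
theorem meet_same {k j i j' i' : ℕ} (hj : j < nn k) (hi : i ≤ k) (hj' : j' < nn k)
    (hi' : i' ≤ k) {z : ℂ} (hz : z ∈ Pol k j i) (hz' : z ∈ Pol k j' i') :
    j = j' ∧ ∃ p, p ∈ Tz k j i ∧ p ∈ Tz k j' i' ∧ ψ k z = E p := by
  obtain ⟨p, hp, hz⟩ := hz
  obtain ⟨p', hp', hz'⟩ := hz'
  rw [hz] at hz'
  obtain ⟨e1, m, e2⟩ := E_eq_iff.mp hz'
  obtain ⟨b1, b2, b3, b4⟩ := Tz_bounds hi hp
  obtain ⟨c1, c2, c3, c4⟩ := Tz_bounds hi' hp'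
  rw [e2] at b3 b4
  push_cast at b3 b4 c3 c4
  have hm : (j : ℤ) - j' - nn k * m = 0 := by
    apply int_eq_zero_of_abs
    · push_cast; linarith
    · push_cast; linarith
  have hm0 : m = 0 := by
    apply int_eq_of_mod (n := nn k) (a := j) (b := j') (by positivity) (by exact_mod_cast hj)
      (by positivity) (by exact_mod_cast hj')
    linarith
  rw [hm0] at hm e2
  have hpp : p = p' := by
    ext
    · rw [e2]; simp
    · exact e1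
  refine ⟨by omega, p, hp, hpp ▸ hp', hz⟩

end Pool.Agent.Helper77.AR
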