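import Pool.Agent.Helper77.AR.Action

/-!
# Injectivity
-/

open Set Topology Metric
open scoped unitInterval

namespace Pool.Agent.Helper77.AR

/-- the logarithmic height along the path -/
noncomputable def yy (s : I) : ℝ := -Real.log 2 + s * (3 + Real.log 2)

theorem continuous_yy : Continuous yy := by unfold yy; fun_prop

theorem log_two_pos : 0 < Real.log 2 := Real.log_pos (by norm_num)

theorem yy_ge (s : I) : -Real.log 2 ≤ yy s := by
  have := s.2.1
  have := log_two_pos
  unfold yy
  nlinarith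

theorem yy_le (s : I) : yy s ≤ 3 := by
  have := s.2.2
  have := log_two_pos
  unfold yy
  nlinarith

theorem yy_zero : yy 0 = -Real.log 2 := by simp [yy]

theorem yy_one : yy 1 = 3 := by simp [yy]

/-- the logarithm of the twisted path -/
noncomputable def ww (t : ℝ) (s : I) : ℂ :=
  (yy s : ℂ) + ((2 * Real.pi * t * phi (yy s) : ℝ) : ℂ) * Complex.I

theorem continuous_ww (t : ℝ) : Continuous (ww t) := by
  have := continuous_yy
  have := continuous_phi
  unfold ww
  fun_prop

/-- the logarithm of the twisted path plus one half -/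
noncomputable def Lw (t : ℝ) (s : I) : ℂ :=
  ww t s + Complex.log (1 + Complex.exp (-(ww t s)) / 2)

theorem re_ww (t : ℝ) (s : I) : (ww t s).re = yy s := by simp [ww]

theorem slit (t : ℝ) (s : I) : 0 < (1 + Complex.exp (-(ww t s)) / 2).re := by
  rcases le_total (yy s) 0 with h | h
  · have h1 : ww t s = (yy s : ℂ) := by simp [ww, phi_low h]
    rw [h1, ← Complex.ofReal_neg, ← Complex.ofReal_exp]
    have h2 : (1 + ((Real.exp (-yy s) : ℝ) : ℂ) / 2) = ((1 + Real.exp (-yy s) / 2 : ℝ) : ℂ) := by
      push_cast; ring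
    rw [h2, Complex.ofReal_re]
    have := Real.exp_pos (-yy s)
    linarith
  · have h1 : ‖Complex.exp (-(ww t s)) / 2‖ ≤ 1 / 2 := by
      rw [norm_div, Complex.norm_exp, Complex.neg_re, re_ww]
      have : Real.exp (-yy s) ≤ 1 := Real.exp_le_one_iff.mpr (by linarith)
      have h2 : ‖(2 : ℂ)‖ = 2 := by simp
      rw [h2]
      linarith
    have h2 := Complex.abs_re_le_norm (Complex.exp (-(ww t s)) / 2)
    have h3 := (abs_le.mp (h2.trans h1)).1
    rw [Complex.add_re, Complex.one_re]
    linarith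

theorem continuous_Lw (t : ℝ) : Continuous (Lw t) := by
  have h := continuous_ww t
  unfold Lw
  refine h.add (Continuous.clog (by fun_prop) fun s => ?_)
  exact Or.inl (slit t s)

theorem exp_Lw (t : ℝ) (s : I) : Complex.exp (Lw t s) = Complex.exp (ww t s) + 1 / 2 := by
  have h0 : (1 + Complex.exp (-(ww t s)) / 2) ≠ 0 := by
    intro h
    have := slit t s
    rw [h] at this
    simp at this
  unfold Lw
  rw [Complex.exp_add, Complex.exp_log h0, mul_add, mul_one, mul_div_assoc', ← Complex.exp_add,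
    add_neg_cancel, Complex.exp_zero]

theorem Lw_zero (t : ℝ) : Lw t 0 = Lw 0 0 := by
  have h : ∀ t, ww t 0 = (yy 0 : ℂ) := by
    intro t
    rw [ww, yy_zero, phi_low (by linarith [log_two_pos])]
    simp
  unfold Lw
  rw [h, h]

theorem Lw_one (m : ℤ) : Lw m 1 = Lw 0 1 + 2 * Real.pi * m * Complex.I := by
  have h1 : ww m 1 = 3 + 2 * Real.pi * m * Complex.I := by
    rw [ww, yy_one, phi_high (by norm_num)]
    push_cast
    ring
  have h2 : ww 0 1 = 3 := by
    rw [ww, yy_one]
    simp
  have h3 : Complex.exp (-(ww m 1)) = Complex.exp (-(ww 0 1)) := by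
    rw [h1, h2, Complex.exp_eq_exp_iff_exists_int]
    exact ⟨-m, by push_cast; ring⟩
  unfold Lw
  rw [h3, h1, h2]
  ring

theorem tw_exp (t : ℝ) (s : I) : tw t (Complex.exp (yy s)) = Complex.exp (ww t s) := by
  have h1 : Real.log (max 1 (Real.exp (yy s))) = max 0 (yy s) := by
    rcases le_total (yy s) 0 with h | h
    · rw [max_eq_left (Real.exp_le_one_iff.mpr h), max_eq_left h, Real.log_one]
    · rw [max_eq_right (Real.one_le_exp h), max_eq_right h, Real.log_exp]
  rw [tw, Complex.norm_exp, Complex.ofReal_re, h1, ← Complex.exp_add]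
  rfl

theorem path_mem (s : I) : Complex.exp (yy s) ∈ RS.Surf := by
  rw [mem_surf]
  have h : ‖ψ 0 (Complex.exp (yy s))‖ ≤ Real.exp 4 := by
    rw [ψ_zero, Complex.norm_exp, Complex.ofReal_re]
    exact Real.exp_le_exp.mpr (by linarith [yy_le s])
  obtain ⟨v, -, hv⟩ := (cover_all 0 _).mp h
  exact ⟨v, hv⟩

theorem Γ_int (m : ℤ) (z : ℂ) : Γ (m : ℚ) z = tw m z := by
  have hg : Good 0 ((m : ℚ) : ℝ) := ⟨m, by rw [nn_zero]; push_cast; ring⟩
  have := Γ_apply hg z
  rw [ψ_zero, ψ_zero, D_T] at this
  rw [this]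
  push_cast
  rfl

theorem isotopic_zero {m : ℤ} (h : RS.IsotopicToId (γS (m : ℚ))) : m = 0 := by
  obtain ⟨H, hH, hH0, hH1, hHp⟩ := h
  let δ : I → RS.Surf := fun s => ⟨Complex.exp (yy s), path_mem s⟩
  have hδ : Continuous δ := by
    apply Continuous.subtype_mk
    have := continuous_yy
    fun_prop
  let K : I × I → ℂ := fun p => (H p.1 (δ p.2) : ℂ) + 1 / 2
  have hKc : Continuous K := by
    have h1 : Continuous fun p : I × I => (p.1, δ p.2) := by fun_prop
    exact (continuous_subtype_val.comp (hH.comp h1)).add continuous_const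
  obtain ⟨A, hA, ha⟩ : ∃ A : RS.Surf, (∀ t, H t A = A) ∧ (A : ℂ) = -(1 / 2) := by
    refine ⟨RS.puncture Vx.a, fun t => hHp t Vx.a, ?_⟩
    change ppt .a = _
    simp [ppt]
  have hne : ∀ p, K p ≠ 0 := by
    intro p h0
    have h1 : (H p.1 (δ p.2) : ℂ) = -(1 / 2) := eq_neg_of_add_eq_zero_left h0
    have h2 : H p.1 (δ p.2) = H p.1 A := by
      rw [hA]
      exact Subtype.ext (by rw [h1, ha])
    have h3 := (H p.1).injective h2
    have h4 : Complex.exp (yy p.2) = -(1 / 2) := by
      rw [← ha, ← h3]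
    have h5 := congrArg Complex.re h4
    rw [← Complex.ofReal_exp, Complex.ofReal_re] at h5
    have h6 : (-(1 / 2) : ℂ).re = -(1 / 2) := by norm_num
    rw [h6] at h5
    have := Real.exp_pos (yy p.2)
    linarith
  have hK0 : ∀ s, Complex.exp (Lw 0 s) = K (0, s) := by
    intro s
    rw [exp_Lw]
    simp only [K]
    rw [hH0]
    congr 1
    simp [δ, ww]
  obtain ⟨L, hL, hLe, hL0⟩ := lift_square K hKc hne (Lw 0) (continuous_Lw 0) hK0
  have hb : ∀ t, H t (δ 0) = δ 0 := by
    suffices h : δ 0 = RS.puncture Vx.b by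
      intro t
      rw [h]
      exact hHp t Vx.b
    apply Subtype.ext
    change Complex.exp (yy 0) = ppt .b
    rw [yy_zero, ppt, ← Complex.ofReal_exp, Real.exp_neg, Real.exp_log (by norm_num)]
    norm_num
  have hc : ∀ t, H t (δ 1) = δ 1 := by
    suffices h : δ 1 = RS.puncture Vx.c by
      intro t
      rw [h]
      exact hHp t Vx.c
    apply Subtype.ext
    change Complex.exp (yy 1) = ppt .c
    rw [yy_one, ppt, ← Complex.ofReal_exp]
  have hleft : L (1, 0) = Lw 0 0 := by
    rw [← hL0 0]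
    apply const_of_exp_const (f := fun t => L (t, 0)) (by fun_prop)
    intro t t'
    rw [hLe, hLe]
    simp only [K]
    rw [hb, hb]
  have hright : L (1, 1) = Lw 0 1 := by
    rw [← hL0 1]
    apply const_of_exp_const (f := fun t => L (t, 1)) (by fun_prop)
    intro t t'
    rw [hLe, hLe]
    simp only [K]
    rw [hc, hc]
  have htop : L (1, 1) = Lw m 1 := by
    apply eq_of_exp_eq (f := fun s => L (1, s)) (g := Lw m) (by fun_prop) (continuous_Lw m) ?_ 0
    · rw [hleft, Lw_zero (m : ℝ)]
    · intro s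
      rw [hLe, exp_Lw]
      simp only [K]
      rw [hH1, γS_coe, Γ_int, ← tw_exp]
  rw [hright, Lw_one] at htop
  have h1 : (2 * Real.pi * m * Complex.I : ℂ) = 0 := by
    have := htop
    linear_combination -this
  have h2 : (m : ℂ) = 0 := by
    have hpi : (Real.pi : ℂ) ≠ 0 := by exact_mod_cast Real.pi_ne_zero
    have h3 := mul_eq_zero.mp h1
    rcases h3 with h3 | h3
    · rcases mul_eq_zero.mp h3 with h4 | h4
      · exact absurd h4 (mul_ne_zero two_ne_zero hpi)
      · exact h4
    · exact absurd h3 Complex.I_ne_zero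
  exact_mod_cast h2

/-- The homomorphism from `ℚ` to the asymptotically rigid mapping class group. -/
noncomputable def γM : Multiplicative ℚ →* RS.Mod :=
  (QuotientGroup.mk' RS.isotopySubgroup).comp γH

theorem γM_injective : Function.Injective γM := by
  rw [injective_iff_map_eq_one]
  intro q hq
  have h1 : γH q ∈ RS.isotopySubgroup := (QuotientGroup.eq_one_iff _).mp hq
  have h2 : γH (q ^ (q.toAdd).den) ∈ RS.isotopySubgroup := by
    rw [map_pow]
    exact Subgroup.pow_mem _ h1 _
  have h3 : (q ^ (q.toAdd).den).toAdd = (((q.toAdd).num : ℤ) : ℚ) := by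
    rw [toAdd_pow, nsmul_eq_mul, mul_comm, Rat.mul_den_eq_num]
  have h4 : RS.IsotopicToId (γS (((q.toAdd).num : ℤ) : ℚ)) := by
    have : RS.IsotopicToId (γS (q ^ (q.toAdd).den).toAdd) := h2
    rwa [h3] at this
  have h5 := isotopic_zero h4
  have h6 : q.toAdd = 0 := Rat.num_eq_zero.mp h5
  exact Multiplicative.toAdd.injective h6

end Pool.Agent.Helper77.AR
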