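import Pool.Agent.Helper77.AR.Fun

/-!
# The homeomorphisms `Φ` and the twists `T`
-/

open Set Topology Metric

namespace Pool.Agent.Helper77.AR

/-- the vertical map -/
noncomputable def fv (N u y : ℝ) : ℝ := st 3 (3 + top N u - pie N u) (st 2 (pie N u) y)

theorem fv_strictMono {N : ℝ} (hN : 1 ≤ N) (u : ℝ) : StrictMono (fv N u) := by
  have h1 := pie_ge hN u
  have h2 := pie_lt_top hN u
  exact (st_strictMono (by linarith)).comp (st_strictMono (by linarith))

theorem fv_low {N : ℝ} (hN : 1 ≤ N) (u : ℝ) {y : ℝ} (hy : y ≤ 2) : fv N u y = y := by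
  have h1 := pie_ge hN u
  have h2 := pie_lt_top hN u
  rw [fv, st_low (by linarith) hy, st_low (by linarith) (by linarith)]

theorem fv_pie {N : ℝ} (hN : 1 ≤ N) (u : ℝ) : fv N u (pie N u) = 3 := by
  have h1 := pie_ge hN u
  have h2 := pie_lt_top hN u
  have : st 2 (pie N u) (pie N u) = 3 := by
    rw [st_high (by linarith) le_rfl]; ring
  rw [fv, this, st_low (by linarith) le_rfl]

theorem fv_high {N : ℝ} (hN : 1 ≤ N) (u : ℝ) {y : ℝ} (hy : top N u ≤ y) :
    fv N u y = 4 + (y - top N u) := by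
  have h1 := pie_ge hN u
  have h2 := pie_lt_top hN u
  rw [fv, st_high (by linarith) (by linarith : pie N u ≤ y),
    st_high (by linarith) (by linarith)]
  ring

theorem fv_top {N : ℝ} (hN : 1 ≤ N) (u : ℝ) : fv N u (top N u) = 4 := by
  rw [fv_high hN u le_rfl]; ring

theorem fv_le_four {N : ℝ} (hN : 1 ≤ N) {u y : ℝ} : fv N u y ≤ 4 ↔ y ≤ top N u := by
  rw [← fv_top hN u]
  exact (fv_strictMono hN u).le_iff_le

theorem fv_eq_four {N : ℝ} (hN : 1 ≤ N) {u y : ℝ} : fv N u y = 4 ↔ y = top N u := by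
  conv_lhs => rw [← fv_top hN u]
  exact (fv_strictMono hN u).injective.eq_iff

/-- the horizontal cut-off -/
noncomputable def lam (y : ℝ) : ℝ := max 0 (min 1 (y - 1))

theorem lam_nonneg (y : ℝ) : 0 ≤ lam y := le_max_left _ _

theorem lam_le (y : ℝ) : lam y ≤ 1 := max_le (by norm_num) (min_le_left _ _)

theorem lam_low {y : ℝ} (hy : y ≤ 1) : lam y = 0 := by
  unfold lam
  exact max_eq_left ((min_le_right _ _).trans (by linarith))

theorem lam_high {y : ℝ} (hy : 2 ≤ y) : lam y = 1 := by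
  unfold lam
  rw [min_eq_left (by linarith), max_eq_right (by norm_num)]

/-- the horizontal map -/
noncomputable def fh (N y u : ℝ) : ℝ := u + lam y * (gg N u - u)

theorem continuous_fh (N : ℝ) : Continuous fun p : ℝ × ℝ => fh N p.1 p.2 := by
  have := continuous_gg N
  unfold fh lam
  fun_prop

theorem fh_strictMono {N : ℝ} (hN : 1 ≤ N) (y : ℝ) : StrictMono (fh N y) := by
  intro a b hab
  have h1 := gg_strictMono hN hab
  have h2 := lam_nonneg y
  have h3 := lam_le y
  have e1 : 0 ≤ (1 - lam y) * (b - a) := mul_nonneg (by linarith) (by linarith)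
  have key : 0 < (1 - lam y) * (b - a) + lam y * (gg N b - gg N a) := by
    rcases eq_or_lt_of_le h2 with h | h
    · rw [← h]; linarith
    · have : 0 < lam y * (gg N b - gg N a) := mul_pos h (by linarith)
      linarith
  unfold fh
  nlinarith

theorem fh_surjective {N : ℝ} (hN : 1 ≤ N) (y : ℝ) : Function.Surjective (fh N y) := by
  intro t
  have hc : Continuous (fh N y) := by
    have := continuous_gg N
    unfold fh
    fun_prop
  have hb : ∀ u, |fh N y u - u| ≤ 1 := by
    intro u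
    have h1 := gg_bound hN u
    have h2 := lam_nonneg y
    have h3 := lam_le y
    have : fh N y u - u = lam y * (gg N u - u) := by unfold fh; ring
    rw [this, abs_mul, abs_of_nonneg h2]
    nlinarith [abs_nonneg (gg N u - u)]
  have h1 : fh N y (t - 1) ≤ t := by
    have := (abs_le.mp (hb (t - 1))).2
    linarith
  have h2 : t ≤ fh N y (t + 1) := by
    have := (abs_le.mp (hb (t + 1))).1
    linarith
  obtain ⟨u, -, hu⟩ := intermediate_value_Icc (by linarith : t - 1 ≤ t + 1) hc.continuousOn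
    ⟨h1, h2⟩
  exact ⟨u, hu⟩

/-- the unscaled homeomorphism -/
noncomputable def W (N : ℝ) (hN : 1 ≤ N) : (ℝ × ℝ) ≃ₜ (ℝ × ℝ) :=
  ((vert (fun u y => st 2 (pie N u) y)
      (continuous_st 2 (continuous_pie hN) fun x => by have := pie_ge hN x; linarith)
      (fun x => st_strictMono (by have := pie_ge hN x; linarith))
      (fun x => st_surjective (by have := pie_ge hN x; linarith))).trans
    (vert (fun u y => st 3 (3 + top N u - pie N u) y)
      (continuous_st 3 (h := fun u => 3 + top N u - pie N u)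
        ((continuous_const.add (continuous_top N)).sub (continuous_pie hN))
        fun x => by have := pie_lt_top hN x; linarith)
      (fun x => st_strictMono (by have := pie_lt_top hN x; linarith))
      (fun x => st_surjective (by have := pie_lt_top hN x; linarith)))).trans
    (horiz (fh N) (continuous_fh N) (fh_strictMono hN) (fh_surjective hN))

theorem W_apply {N : ℝ} (hN : 1 ≤ N) (p : ℝ × ℝ) :
    W N hN p = (fh N (fv N p.1 p.2) p.1, fv N p.1 p.2) := rfl

theorem fv_add_one (N u y : ℝ) : fv N (u + 1) y = fv N u y := by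
  unfold fv; rw [top_add_one, pie_add_one]

theorem fh_add_one (N y u : ℝ) : fh N y (u + 1) = fh N y u + 1 := by
  unfold fh; rw [gg_add_one]; ring

theorem fv_add_nat (N u y : ℝ) (n : ℕ) : fv N (u + n) y = fv N u y := by
  induction n with
  | zero => simp
  | succ n ih =>
    have : u + ((n + 1 : ℕ) : ℝ) = u + n + 1 := by push_cast; ring
    rw [this, fv_add_one, ih]

theorem fh_add_nat (N y u : ℝ) (n : ℕ) : fh N y (u + n) = fh N y u + n := by
  induction n with
  | zero => simp
  | succ n ih =>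
    have : u + ((n + 1 : ℕ) : ℝ) = u + n + 1 := by push_cast; ring
    rw [this, fh_add_one, ih]
    push_cast; ring

theorem fv_add_int (N u y : ℝ) (n : ℤ) : fv N (u + n) y = fv N u y := by
  obtain ⟨m, rfl | rfl⟩ := n.eq_nat_or_neg
  · exact_mod_cast fv_add_nat N u y m
  · have := fv_add_nat N (u + ((-(m : ℤ) : ℤ) : ℝ)) y m
    rw [← this]
    congr 1
    push_cast; ring

theorem fh_add_int (N y u : ℝ) (n : ℤ) : fh N y (u + n) = fh N y u + n := by
  obtain ⟨m, rfl | rfl⟩ := n.eq_nat_or_neg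
  · exact_mod_cast fh_add_nat N y u m
  · have := fh_add_nat N y (u + ((-(m : ℤ) : ℤ) : ℝ)) m
    have h2 : u + ((-(m : ℤ) : ℤ) : ℝ) + m = u := by push_cast; ring
    rw [h2] at this
    rw [this]
    push_cast; ring

/-- The homeomorphism `Φ`, in the scale `1 / n`. -/
noncomputable def Phi (N : ℝ) (hN : 1 ≤ N) (n : ℕ) (hn : (n : ℝ) ≠ 0) : (ℝ × ℝ) ≃ₜ (ℝ × ℝ) :=
  ((scaleX n hn).trans (W N hN)).trans (scaleX n hn).symm

theorem Phi_apply {N : ℝ} (hN : 1 ≤ N) {n : ℕ} (hn : (n : ℝ) ≠ 0) (p : ℝ × ℝ) :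
    Phi N hN n hn p = ((n : ℝ)⁻¹ * fh N (fv N (n * p.1) p.2) (n * p.1), fv N (n * p.1) p.2) :=
  rfl

theorem Phi_mem_G {N : ℝ} (hN : 1 ≤ N) {n : ℕ} (hn : (n : ℝ) ≠ 0) : Phi N hN n hn ∈ G := by
  constructor
  · intro x y
    rw [Phi_apply, Phi_apply]
    simp only
    have : (n : ℝ) * (x + 1) = n * x + n := by ring
    rw [this, fv_add_nat, fh_add_nat]
    ext
    · simp only [Prod.mk_add_mk]
      field_simp
    · simp
  · intro x y hy
    rw [Phi_apply]
    simp only
    rw [fv_low hN _ (by linarith), fh, lam_low (by linarith)]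
    ext
    · simp only [zero_mul, add_zero]
      field_simp
    · rfl

/-- the cut-off of the twist -/
noncomputable def phi (y : ℝ) : ℝ := min 1 (max 0 y)

theorem phi_low {y : ℝ} (hy : y ≤ 0) : phi y = 0 := by
  unfold phi; rw [max_eq_left hy]; norm_num

theorem phi_high {y : ℝ} (hy : 1 ≤ y) : phi y = 1 := by
  unfold phi; rw [max_eq_right (by linarith), min_eq_left hy]

theorem continuous_phi : Continuous phi := by unfold phi; fun_prop

/-- The twist: `(x, y) ↦ (x + t φ(y), y)`. -/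
noncomputable def Th (t : ℝ) : (ℝ × ℝ) ≃ₜ (ℝ × ℝ) where
  toFun p := (p.1 + t * phi p.2, p.2)
  invFun p := (p.1 - t * phi p.2, p.2)
  left_inv p := by ext <;> simp
  right_inv p := by ext <;> simp
  continuous_toFun := by have := continuous_phi; fun_prop
  continuous_invFun := by have := continuous_phi; fun_prop

theorem Th_apply (t : ℝ) (p : ℝ × ℝ) : Th t p = (p.1 + t * phi p.2, p.2) := rfl

/-- The twist as an element of `G`. -/
noncomputable def T (t : ℝ) : G := ⟨Th t, fun x y => by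
  rw [Th_apply, Th_apply]
  ext
  · simp; ring
  · simp, fun x y hy => by
  rw [Th_apply, phi_low hy]
  simp⟩

theorem T_apply (t : ℝ) (p : ℝ × ℝ) :
    (T t : (ℝ × ℝ) ≃ₜ (ℝ × ℝ)) p = (p.1 + t * phi p.2, p.2) := rfl

theorem T_add (s t : ℝ) : T (s + t) = T s * T t := by
  apply Subtype.ext
  apply Homeomorph.ext
  intro p
  rw [Subgroup.coe_mul, Homeomorph.mul_apply, T_apply, T_apply, T_apply]
  ext
  · simp; ring
  · rfl

theorem T_zero : T 0 = 1 := by
  apply Subtype.ext
  apply Homeomorph.ext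
  intro p
  rw [T_apply]
  simp

/-- `Φ` as an element of `G`. -/
noncomputable def PhiG (N : ℝ) (hN : 1 ≤ N) (n : ℕ) (hn : (n : ℝ) ≠ 0) : G :=
  ⟨Phi N hN n hn, Phi_mem_G hN hn⟩

theorem PhiG_apply {N : ℝ} (hN : 1 ≤ N) {n : ℕ} (hn : (n : ℝ) ≠ 0) (p : ℝ × ℝ) :
    (PhiG N hN n hn : (ℝ × ℝ) ≃ₜ (ℝ × ℝ)) p =
      ((n : ℝ)⁻¹ * fh N (fv N (n * p.1) p.2) (n * p.1), fv N (n * p.1) p.2) := rfl

theorem Phi_comm {N : ℝ} (hN : 1 ≤ N) {n : ℕ} (hn : (n : ℝ) ≠ 0) {t : ℝ} {m : ℤ}
    (ht : n * t = m) : T t * PhiG N hN n hn = PhiG N hN n hn * T t := by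
  apply Subtype.ext
  apply Homeomorph.ext
  rintro ⟨x, y⟩
  rw [Subgroup.coe_mul, Subgroup.coe_mul, Homeomorph.mul_apply, Homeomorph.mul_apply, T_apply,
    T_apply, PhiG_apply, PhiG_apply]
  simp only
  rcases le_total y 1 with hy | hy
  · rw [fv_low hN _ (by linarith), fv_low hN _ (by linarith), fh, fh, lam_low (by linarith)]
    ext
    · simp only [zero_mul, add_zero]
      field_simp
    · rfl
  · have h1 : 1 ≤ fv N (n * x) y := by
      have := (fv_strictMono hN (n * x)).monotone hy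
      rwa [fv_low hN _ (by norm_num)] at this
    rw [phi_high hy, phi_high h1, mul_one]
    have h2 : (n : ℝ) * (x + t) = n * x + m := by rw [← ht]; ring
    rw [h2, fv_add_int, fh_add_int]
    ext
    · simp only
      rw [← ht]
      field_simp
    · rfl

end Pool.Agent.Helper77.AR
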