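import Mathlib

/-!
# Periodic homeomorphisms of the plane of logarithms, and the homeomorphisms of `ℂ` they induce
-/

open Complex hiding I
open Set Topology Metric

namespace Pool.Agent.Helper77.AR

/-- The real-linear change of coordinates `(x, y) ↦ y + 2πix`. -/
noncomputable def LL : (ℝ × ℝ) ≃L[ℝ] ℂ :=
  LinearEquiv.toContinuousLinearEquiv
    { toFun := fun p => ⟨p.2, 2 * Real.pi * p.1⟩
      map_add' := fun p q => by
        apply Complex.ext <;> simp [mul_add]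
      map_smul' := fun c p => by
        apply Complex.ext
        · simp
        · simp only [Prod.smul_fst, smul_eq_mul, RingHom.id_apply, Complex.smul_im]
          ring
      invFun := fun z => (z.im / (2 * Real.pi), z.re)
      left_inv := fun p => by
        have : (2 * Real.pi) ≠ 0 := by positivity
        ext <;> simp
      right_inv := fun z => by
        have : (2 * Real.pi) ≠ 0 := by positivity
        apply Complex.ext
        · simp
        · simp; field_simp }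

theorem LL_apply (p : ℝ × ℝ) : LL p = ⟨p.2, 2 * Real.pi * p.1⟩ := rfl

/-- The exponential in real coordinates: `E (x, y)` has argument `2πx` and modulus `exp y`. -/
noncomputable def E (p : ℝ × ℝ) : ℂ := exp (LL p)

theorem E_ne_zero (p : ℝ × ℝ) : E p ≠ 0 := exp_ne_zero _

theorem norm_E (p : ℝ × ℝ) : ‖E p‖ = Real.exp p.2 := by
  rw [E, norm_exp, LL_apply]

theorem continuous_E : Continuous E := by
  unfold E
  exact continuous_exp.comp LL.continuous

theorem isOpenMap_E : IsOpenMap E :=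
  isOpenMap_exp.comp LL.toHomeomorph.isOpenMap

theorem map_nhds_E (p : ℝ × ℝ) : Filter.map E (𝓝 p) = 𝓝 (E p) :=
  le_antisymm continuous_E.continuousAt (isOpenMap_E.nhds_le p)

theorem E_eq_iff {p q : ℝ × ℝ} : E p = E q ↔ p.2 = q.2 ∧ ∃ n : ℤ, p.1 = q.1 + n := by
  have hpi : (2 * Real.pi) ≠ 0 := by positivity
  rw [E, E, exp_eq_exp_iff_exists_int, LL_apply, LL_apply]
  constructor
  · rintro ⟨n, hn⟩
    have h1 := congrArg Complex.re hn
    have h2 := congrArg Complex.im hn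
    simp at h1 h2
    refine ⟨h1, n, ?_⟩
    have : 2 * Real.pi * p.1 = 2 * Real.pi * (q.1 + n) := by rw [h2]; ring
    exact mul_left_cancel₀ hpi this
  · rintro ⟨h1, n, h2⟩
    refine ⟨n, ?_⟩
    apply Complex.ext
    · simp [h1]
    · simp [h2]; ring

theorem exists_E {z : ℂ} (hz : z ≠ 0) : ∃ p : ℝ × ℝ, E p = z := by
  refine ⟨LL.symm (log z), ?_⟩
  rw [E, ContinuousLinearEquiv.apply_symm_apply, exp_log hz]

/-- A preferred logarithm. -/
noncomputable def Einv (z : ℂ) : ℝ × ℝ := LL.symm (log z)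

theorem E_Einv {z : ℂ} (hz : z ≠ 0) : E (Einv z) = z := by
  rw [E, Einv, ContinuousLinearEquiv.apply_symm_apply, exp_log hz]

/-- The group of homeomorphisms of the plane commuting with `(x, y) ↦ (x + 1, y)` and equal to the
identity on `{y ≤ 0}`. -/
def G : Subgroup ((ℝ × ℝ) ≃ₜ (ℝ × ℝ)) where
  carrier := {F | (∀ x y, F (x + 1, y) = F (x, y) + (1, 0)) ∧ ∀ x y, y ≤ 0 → F (x, y) = (x, y)}
  mul_mem' := by
    rintro F F' ⟨h1, h2⟩ ⟨g1, g2⟩
    refine ⟨fun x y => ?_, fun x y hy => ?_⟩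
    · rw [Homeomorph.mul_apply, Homeomorph.mul_apply, g1, ← h1 (F' (x, y)).1 (F' (x, y)).2]
      congr 1
      ext <;> simp
    · rw [Homeomorph.mul_apply, g2 x y hy, h2 x y hy]
  one_mem' := ⟨fun x y => by simp, fun x y _ => rfl⟩
  inv_mem' := by
    rintro F ⟨h1, h2⟩
    refine ⟨fun x y => ?_, fun x y hy => ?_⟩
    · rw [Homeomorph.inv_apply, Homeomorph.symm_apply_eq]
      obtain ⟨q, hq⟩ := F.surjective (x, y)
      have hq2 : (F⁻¹ : (ℝ × ℝ) ≃ₜ (ℝ × ℝ)) (x, y) = q := by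
        rw [Homeomorph.inv_apply, Homeomorph.symm_apply_eq, hq]
      rw [hq2]
      have : q + (1, 0) = (q.1 + 1, q.2) := by ext <;> simp
      rw [this, h1]
      rw [Prod.mk.eta, hq]
      ext <;> simp
    · rw [Homeomorph.inv_apply, Homeomorph.symm_apply_eq, h2 x y hy]

theorem G_add_one (F : G) (x y : ℝ) : (F : (ℝ × ℝ) ≃ₜ (ℝ × ℝ)) (x + 1, y) =
    (F : (ℝ × ℝ) ≃ₜ (ℝ × ℝ)) (x, y) + (1, 0) := F.2.1 x y

theorem G_low (F : G) {p : ℝ × ℝ} (hp : p.2 ≤ 0) : (F : (ℝ × ℝ) ≃ₜ (ℝ × ℝ)) p = p :=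
  F.2.2 p.1 p.2 hp

theorem G_add_nat (F : G) (x y : ℝ) (n : ℕ) : (F : (ℝ × ℝ) ≃ₜ (ℝ × ℝ)) (x + n, y) =
    (F : (ℝ × ℝ) ≃ₜ (ℝ × ℝ)) (x, y) + ((n : ℝ), 0) := by
  induction n with
  | zero => simp
  | succ n ih =>
    have : (x + ((n + 1 : ℕ) : ℝ), y) = ((x + n) + 1, y) := by
      ext
      · push_cast; ring
      · rfl
    rw [this, G_add_one, ih]
    ext
    · simp; ring
    · simp

theorem G_add_int (F : G) (x y : ℝ) (n : ℤ) : (F : (ℝ × ℝ) ≃ₜ (ℝ × ℝ)) (x + n, y) =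
    (F : (ℝ × ℝ) ≃ₜ (ℝ × ℝ)) (x, y) + ((n : ℝ), 0) := by
  obtain ⟨m, rfl | rfl⟩ := n.eq_nat_or_neg
  · exact_mod_cast G_add_nat F x y m
  · have := G_add_nat F (x + ((-(m : ℤ) : ℤ) : ℝ)) y m
    have h2 : (x + ((-(m : ℤ) : ℤ) : ℝ) + m, y) = (x, y) := by
      ext
      · push_cast; ring
      · rfl
    rw [h2] at this
    rw [this]
    ext
    · simp
    · simp

/-- The map of `ℂ` induced by an element of `G`. -/
noncomputable def Dfun (F : G) (z : ℂ) : ℂ :=
  if z = 0 then 0 else E ((F : (ℝ × ℝ) ≃ₜ (ℝ × ℝ)) (Einv z))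

theorem Dfun_zero (F : G) : Dfun F 0 = 0 := if_pos rfl

theorem Dfun_E (F : G) (p : ℝ × ℝ) : Dfun F (E p) = E ((F : (ℝ × ℝ) ≃ₜ (ℝ × ℝ)) p) := by
  rw [Dfun, if_neg (E_ne_zero p)]
  have h : E (Einv (E p)) = E p := E_Einv (E_ne_zero p)
  obtain ⟨h2, n, h1⟩ := E_eq_iff.mp h
  have : Einv (E p) = (p.1 + n, p.2) := by
    ext
    · exact h1
    · exact h2
  rw [this, G_add_int, E_eq_iff]
  exact ⟨by simp, n, by simp⟩

theorem Dfun_of_norm_le (F : G) {z : ℂ} (hz : ‖z‖ ≤ 1) : Dfun F z = z := by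
  by_cases h0 : z = 0
  · rw [h0, Dfun_zero]
  · obtain ⟨p, rfl⟩ := exists_E h0
    rw [norm_E, Real.exp_le_one_iff] at hz
    rw [Dfun_E, G_low F hz]

theorem continuous_Dfun (F : G) : Continuous (Dfun F) := by
  rw [continuous_iff_continuousAt]
  intro z
  by_cases h0 : z = 0
  · subst h0
    have : Dfun F =ᶠ[𝓝 0] id := by
      filter_upwards [Metric.ball_mem_nhds (0 : ℂ) one_pos] with z hz
      rw [mem_ball, dist_zero_right] at hz
      exact Dfun_of_norm_le F hz.le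
    exact continuousAt_id.congr this.symm
  · obtain ⟨p, rfl⟩ := exists_E h0
    rw [ContinuousAt, Dfun_E, ← map_nhds_E, Filter.tendsto_map'_iff]
    have : Dfun F ∘ E = E ∘ (F : (ℝ × ℝ) ≃ₜ (ℝ × ℝ)) := by
      funext q; exact Dfun_E F q
    rw [this]
    exact (continuous_E.comp (F : (ℝ × ℝ) ≃ₜ (ℝ × ℝ)).continuous).continuousAt

theorem Dfun_mul (F F' : G) (z : ℂ) : Dfun (F * F') z = Dfun F (Dfun F' z) := by
  by_cases h0 : z = 0
  · rw [h0, Dfun_zero, Dfun_zero, Dfun_zero]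
  · obtain ⟨p, rfl⟩ := exists_E h0
    rw [Dfun_E, Dfun_E, Dfun_E]
    rfl

theorem Dfun_one (z : ℂ) : Dfun 1 z = z := by
  by_cases h0 : z = 0
  · rw [h0, Dfun_zero]
  · obtain ⟨p, rfl⟩ := exists_E h0
    rw [Dfun_E]
    rfl

/-- The homeomorphism of `ℂ` induced by an element of `G`. -/
noncomputable def D : G →* (ℂ ≃ₜ ℂ) where
  toFun F :=
    { toFun := Dfun F
      invFun := Dfun F⁻¹
      left_inv := fun z => by rw [← Dfun_mul, inv_mul_cancel, Dfun_one]
      right_inv := fun z => by rw [← Dfun_mul, mul_inv_cancel, Dfun_one]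
      continuous_toFun := continuous_Dfun F
      continuous_invFun := continuous_Dfun F⁻¹ }
  map_one' := by
    apply Homeomorph.ext
    intro z
    exact Dfun_one z
  map_mul' F F' := by
    apply Homeomorph.ext
    intro z
    exact Dfun_mul F F' z

theorem D_E (F : G) (p : ℝ × ℝ) : D F (E p) = E ((F : (ℝ × ℝ) ≃ₜ (ℝ × ℝ)) p) := Dfun_E F p

theorem D_of_norm_le (F : G) {z : ℂ} (hz : ‖z‖ ≤ 1) : D F z = z := Dfun_of_norm_le F hz

/-- A continuous family of increasing homeomorphisms of the line gives a homeomorphism of the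
plane. -/
noncomputable def vert (f : ℝ → ℝ → ℝ) (hc : Continuous fun p : ℝ × ℝ => f p.1 p.2)
    (hm : ∀ x, StrictMono (f x)) (hs : ∀ x, Function.Surjective (f x)) :
    (ℝ × ℝ) ≃ₜ (ℝ × ℝ) where
  toFun p := (p.1, f p.1 p.2)
  invFun p := (p.1, (Equiv.ofBijective (f p.1) ⟨(hm p.1).injective, hs p.1⟩).symm p.2)
  left_inv p := by
    ext
    · rfl
    · exact (Equiv.ofBijective (f p.1) ⟨(hm p.1).injective, hs p.1⟩).symm_apply_apply p.2
  right_inv p := by
    ext
    · rfl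
    · exact (Equiv.ofBijective (f p.1) ⟨(hm p.1).injective, hs p.1⟩).apply_symm_apply p.2
  continuous_toFun := continuous_fst.prodMk hc
  continuous_invFun := by
    refine continuous_fst.prodMk ?_
    rw [continuous_iff_continuousAt]
    rintro ⟨x, z⟩
    obtain ⟨y, hy⟩ := hs x z
    have key : ∀ (x' w : ℝ), (Equiv.ofBijective (f x') ⟨(hm x').injective, hs x'⟩).symm (f x' w) = w :=
      fun x' w => (Equiv.ofBijective (f x') ⟨(hm x').injective, hs x'⟩).symm_apply_apply w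
    rw [ContinuousAt]
    simp only
    rw [← hy, key, hy]
    rw [Metric.tendsto_nhds]
    intro ε hε
    have h1 : ∀ᶠ p : ℝ × ℝ in 𝓝 (x, z), f p.1 (y - ε) < p.2 := by
      apply (hc.comp (by fun_prop : Continuous fun p : ℝ × ℝ => (p.1, y - ε))).continuousAt.eventually_lt
        continuous_snd.continuousAt
      simp only [Function.comp]
      rw [← hy]
      exact hm x (by linarith)
    have h2 : ∀ᶠ p : ℝ × ℝ in 𝓝 (x, z), p.2 < f p.1 (y + ε) := by
      apply continuous_snd.continuousAt.eventually_lt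
        (hc.comp (by fun_prop : Continuous fun p : ℝ × ℝ => (p.1, y + ε))).continuousAt
      simp only [Function.comp]
      rw [← hy]
      exact hm x (by linarith)
    filter_upwards [h1, h2] with p hp1 hp2
    obtain ⟨w, hw⟩ := hs p.1 p.2
    rw [← hw, key]
    rw [← hw] at hp1 hp2
    have a1 := (hm p.1).lt_iff_lt.mp hp1
    have a2 := (hm p.1).lt_iff_lt.mp hp2
    rw [Real.dist_eq, abs_lt]
    constructor <;> linarith

theorem vert_apply (f : ℝ → ℝ → ℝ) (hc : Continuous fun p : ℝ × ℝ => f p.1 p.2)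
    (hm : ∀ x, StrictMono (f x)) (hs : ∀ x, Function.Surjective (f x)) (p : ℝ × ℝ) :
    vert f hc hm hs p = (p.1, f p.1 p.2) := rfl

/-- The horizontal analogue of `vert`. -/
noncomputable def horiz (f : ℝ → ℝ → ℝ) (hc : Continuous fun p : ℝ × ℝ => f p.1 p.2)
    (hm : ∀ y, StrictMono (f y)) (hs : ∀ y, Function.Surjective (f y)) :
    (ℝ × ℝ) ≃ₜ (ℝ × ℝ) :=
  ((Homeomorph.prodComm ℝ ℝ).trans (vert f hc hm hs)).trans (Homeomorph.prodComm ℝ ℝ)

theorem horiz_apply (f : ℝ → ℝ → ℝ) (hc : Continuous fun p : ℝ × ℝ => f p.1 p.2)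
    (hm : ∀ x, StrictMono (f x)) (hs : ∀ x, Function.Surjective (f x)) (p : ℝ × ℝ) :
    horiz f hc hm hs p = (f p.2 p.1, p.2) := rfl

/-- The scaling `(x, y) ↦ (n x, y)`. -/
noncomputable def scaleX (n : ℝ) (hn : n ≠ 0) : (ℝ × ℝ) ≃ₜ (ℝ × ℝ) :=
  (Homeomorph.mulLeft₀ n hn).prodCongr (Homeomorph.refl ℝ)

theorem scaleX_apply (n : ℝ) (hn : n ≠ 0) (p : ℝ × ℝ) : scaleX n hn p = (n * p.1, p.2) := rfl

end Pool.Agent.Helper77.AR
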