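import Mathlib

/-!
# Trees given by a parent function
-/

namespace Pool.Agent.Helper77.AR

variable {V : Type*} (root : V) (par : V → V)

/-- The graph in which every vertex other than the root is joined to its parent. -/
def parGraph : SimpleGraph V where
  Adj v w := v ≠ w ∧ ((v ≠ root ∧ par v = w) ∨ (w ≠ root ∧ par w = v))
  symm := ⟨fun _ _ h => ⟨h.1.symm, h.2.symm⟩⟩
  loopless := ⟨fun _ h => h.1 rfl⟩

theorem parGraph_adj {v w : V} : (parGraph root par).Adj v w ↔
    v ≠ w ∧ ((v ≠ root ∧ par v = w) ∨ (w ≠ root ∧ par w = v)) := Iff.rfl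

theorem parGraph_isTree (rk : V → ℕ) (h : ∀ v, v ≠ root → rk (par v) < rk v) :
    (parGraph root par).IsTree := by
  have hne : ∀ v, v ≠ root → v ≠ par v := fun v hv he => by
    have := h v hv
    rw [← he] at this
    exact lt_irrefl _ this
  have hreach : ∀ n v, rk v = n → (parGraph root par).Reachable v root := by
    intro n
    induction n using Nat.strong_induction_on with
    | _ n ih =>
      intro v hv
      by_cases hr : v = root
      · rw [hr]
      · have h1 : (parGraph root par).Adj v (par v) := ⟨hne v hr, Or.inl ⟨hr, rfl⟩⟩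
        exact h1.reachable.trans (ih _ (hv ▸ h v hr) _ rfl)
  refine ⟨?_, ?_⟩
  · rw [SimpleGraph.connected_iff]
    exact ⟨fun v w => (hreach _ v rfl).trans (hreach _ w rfl).symm, ⟨root⟩⟩
  · rw [SimpleGraph.isAcyclic_iff_forall_adj_isBridge]
    have key : ∀ v, v ≠ root → (parGraph root par).IsBridge s(v, par v) := by
      intro v hv
      rw [SimpleGraph.isBridge_iff]
      intro hre
      let r : V → V → Prop := fun x y => x ≠ root ∧ par x = y
      have hrk : ∀ x y, Relation.ReflTransGen r x y → rk y ≤ rk x := by
        intro x y hxy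
        induction hxy with
        | refl => exact le_rfl
        | tail _ h2 ih =>
          obtain ⟨h3, rfl⟩ := h2
          exact (h _ h3).le.trans ih
      have hclosed : ∀ x y, ((parGraph root par).deleteEdges {s(v, par v)}).Adj x y →
          Relation.ReflTransGen r x v → Relation.ReflTransGen r y v := by
        intro x y hxy hx
        rw [SimpleGraph.deleteEdges_adj] at hxy
        obtain ⟨⟨-, h2 | h2⟩, h3⟩ := hxy
        · obtain ⟨hxr, rfl⟩ := h2
          rcases hx.cases_head with rfl | ⟨z, ⟨hz1, hz2⟩, hz⟩
          · exact absurd rfl h3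
          · rw [hz2]; exact hz
        · exact Relation.ReflTransGen.head h2 hx
      have hall : ∀ x y, ((parGraph root par).deleteEdges {s(v, par v)}).Reachable x y →
          Relation.ReflTransGen r x v → Relation.ReflTransGen r y v := by
        rintro x y ⟨p⟩ hx
        induction p with
        | nil => exact hx
        | cons hadj p ih => exact ih (hclosed _ _ hadj hx)
      have := hrk _ _ (hall _ _ hre Relation.ReflTransGen.refl)
      exact absurd (h v hv) (not_lt.mpr this)
    intro v w hvw
    obtain ⟨-, ⟨h1, rfl⟩ | ⟨h1, rfl⟩⟩ := hvw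
    · exact key v h1
    · rw [Sym2.eq_swap]
      exact key w h1

end Pool.Agent.Helper77.AR
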