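import Pool.Agent.Helper77.AR.Topo
import Pool.Agent.Helper77.AR.Tree
import Pool.Agent.Helper77.AR.Defs

/-!
# The rigid surface
-/

open Set Topology Metric

namespace Pool.Agent.Helper77.AR

/-- The vertices: three core vertices, and for each level `k` and each of the `(k + 1)!` sectors
a path of `k + 1` vertices. -/
inductive Vx : Type
  | a | b | c
  | node (k j i : ℕ) (hj : j < nn k) (hi : i ≤ k)

theorem div_lt_nn {k j : ℕ} (hj : j < nn (k + 1)) : j / (k + 2) < nn k := by
  rw [Nat.div_lt_iff_lt_mul (by omega), mul_comm, ← nn_succ]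
  exact hj

/-- The parent of a vertex. -/
def par : Vx → Vx
  | .a => .b
  | .b => .c
  | .c => .c
  | .node k j (i + 1) hj hi => .node k j i hj (by omega)
  | .node 0 _ 0 _ _ => .a
  | .node (k + 1) j 0 hj _ => .node k (j / (k + 2)) k (div_lt_nn hj) le_rfl

/-- The rank of a vertex. -/
def rk : Vx → ℕ
  | .a => 2
  | .b => 1
  | .c => 0
  | .node k _ i _ _ => 3 + (k + 1) ^ 2 + i

theorem rk_par (v : Vx) (hv : v ≠ .c) : rk (par v) < rk v := by
  match v with
  | .a => simp [par, rk]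
  | .b => simp [par, rk]
  | .c => exact absurd rfl hv
  | .node k j (i + 1) hj hi => simp [par, rk]
  | .node 0 j 0 hj hi => simp [par, rk]
  | .node (k + 1) j 0 hj hi => simp only [par, rk]; nlinarith

/-- The tree. -/
def tree : SimpleGraph Vx := parGraph .c par

theorem tree_isTree : tree.IsTree := by
  unfold tree
  exact parGraph_isTree _ par rk rk_par

/-! ## The core polygons -/

def Pa : Set ℂ := {z | ‖z‖ ≤ Real.exp 4 ∧ z.re ≤ 0}
def Pb : Set ℂ := {z | ‖z‖ ≤ Real.exp 4 ∧ 0 ≤ z.re ∧ z.re ≤ 1}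
def Pc : Set ℂ := {z | ‖z‖ ≤ Real.exp 4 ∧ 1 ≤ z.re}

/-- The polygons. -/
def PP : Vx → Set ℂ
  | .a => Pa
  | .b => Pb
  | .c => Pc
  | .node k j i _ _ => Pol k j i

/-- The punctures. -/
noncomputable def ppt : Vx → ℂ
  | .a => -(1 / 2 : ℝ)
  | .b => (1 / 2 : ℝ)
  | .c => (Real.exp 3 : ℝ)
  | .node k j i _ _ => cpt k j i

theorem exp_four_gt : 4 < Real.exp 4 := by
  have := Real.add_one_lt_exp (by norm_num : (4 : ℝ) ≠ 0)
  linarith

theorem exp_three_lt : Real.exp 3 < Real.exp 4 := Real.exp_lt_exp.mpr (by norm_num)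

theorem exp_three_gt : 3 < Real.exp 3 := by
  have := Real.add_one_lt_exp (by norm_num : (3 : ℝ) ≠ 0)
  linarith

theorem ball_compact : IsCompact {z : ℂ | ‖z‖ ≤ Real.exp 4} := by
  have : {z : ℂ | ‖z‖ ≤ Real.exp 4} = closedBall 0 (Real.exp 4) := by
    ext z; simp
  rw [this]
  exact isCompact_closedBall _ _

theorem ball_convex : Convex ℝ {z : ℂ | ‖z‖ ≤ Real.exp 4} := by
  have : {z : ℂ | ‖z‖ ≤ Real.exp 4} = closedBall 0 (Real.exp 4) := by
    ext z; simp
  rw [this]
  exact convex_closedBall _ _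

theorem re_le_convex (r : ℝ) : Convex ℝ {z : ℂ | z.re ≤ r} :=
  convex_halfSpace_re_le r

theorem Pa_compact : IsCompact Pa :=
  ball_compact.inter_right (isClosed_le Complex.continuous_re continuous_const)

theorem Pb_compact : IsCompact Pb :=
  ball_compact.inter_right ((isClosed_le continuous_const Complex.continuous_re).inter
    (isClosed_le Complex.continuous_re continuous_const))

theorem Pc_compact : IsCompact Pc :=
  ball_compact.inter_right (isClosed_le continuous_const Complex.continuous_re)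

theorem Pa_convex : Convex ℝ Pa := ball_convex.inter (convex_halfSpace_re_le 0)

theorem Pb_convex : Convex ℝ Pb :=
  ball_convex.inter ((convex_halfSpace_re_ge 0).inter (convex_halfSpace_re_le 1))

theorem Pc_convex : Convex ℝ Pc := ball_convex.inter (convex_halfSpace_re_ge 1)

theorem a_mem : ppt .a ∈ interior Pa := by
  apply mem_interior.mpr
  refine ⟨{z | ‖z‖ < Real.exp 4 ∧ z.re < 0}, fun z hz => ⟨hz.1.le, hz.2.le⟩,
    (isOpen_lt continuous_norm continuous_const).inter
      (isOpen_lt Complex.continuous_re continuous_const), ?_, ?_⟩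
  · simp only [ppt, norm_neg, Complex.norm_real, Real.norm_eq_abs]
    rw [abs_of_pos (by norm_num)]
    linarith [exp_four_gt]
  · simp only [ppt, Complex.neg_re, Complex.ofReal_re]; norm_num

theorem b_mem : ppt .b ∈ interior Pb := by
  apply mem_interior.mpr
  refine ⟨{z | ‖z‖ < Real.exp 4 ∧ 0 < z.re ∧ z.re < 1},
    fun z hz => ⟨hz.1.le, hz.2.1.le, hz.2.2.le⟩,
    (isOpen_lt continuous_norm continuous_const).inter
      ((isOpen_lt continuous_const Complex.continuous_re).inter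
        (isOpen_lt Complex.continuous_re continuous_const)), ?_, ?_, ?_⟩
  · simp only [ppt, Complex.norm_real, Real.norm_eq_abs]
    rw [abs_of_pos (by norm_num)]
    linarith [exp_four_gt]
  · simp only [ppt, Complex.ofReal_re]; norm_num
  · simp only [ppt, Complex.ofReal_re]; norm_num

theorem c_mem : ppt .c ∈ interior Pc := by
  apply mem_interior.mpr
  refine ⟨{z | ‖z‖ < Real.exp 4 ∧ 1 < z.re}, fun z hz => ⟨hz.1.le, hz.2.le⟩,
    (isOpen_lt continuous_norm continuous_const).inter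
      (isOpen_lt continuous_const Complex.continuous_re), ?_, ?_⟩
  · simp only [ppt, Complex.norm_real, Real.norm_eq_abs]
    rw [abs_of_pos (Real.exp_pos 3)]
    exact exp_three_lt
  · simp only [ppt, Complex.ofReal_re]
    linarith [exp_three_gt]

theorem ppt_mem (v : Vx) : ppt v ∈ interior (PP v) := by
  match v with
  | .a => exact a_mem
  | .b => exact b_mem
  | .c => exact c_mem
  | .node k j i hj hi => exact cpt_mem hi

theorem PP_disc (v : Vx) : Nonempty (PP v ≃ₜ closedBall (0 : ℂ) 1) := by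
  match v with
  | .a => exact disc_convex Pa_compact Pa_convex ⟨_, a_mem⟩
  | .b => exact disc_convex Pb_compact Pb_convex ⟨_, b_mem⟩
  | .c => exact disc_convex Pc_compact Pc_convex ⟨_, c_mem⟩
  | .node k j i hj hi => exact pol_disc hi

/-- A point of the polygon `(0, 0, 0)` inside the core lies on the outer arc. -/
theorem pol_zero {j : ℕ} {i : ℕ} (hj : j < nn 0) (hi : i ≤ 0) {z : ℂ} (hz : z ∈ Pol 0 j i)
    (hz' : ‖z‖ ≤ Real.exp 4) : z.re < 0 ∧ ∃ x : ℝ, 3 / 8 ≤ x ∧ x ≤ 5 / 8 ∧ ψ 0 z = E (x, 4) := by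
  have hj0 : j = 0 := by rw [nn_zero] at hj; omega
  subst hj0
  obtain ⟨p, hp, hz⟩ := hz
  obtain ⟨b1, b2, b3, b4⟩ := Tz_bounds hi hp
  have hz2 : ψ 0 z = z := ψ_zero z
  rw [hz2] at hz
  rw [hz, norm_E, Real.exp_le_exp] at hz'
  have hy : p.2 = 4 := le_antisymm hz' b1
  rw [nn_zero] at b3 b4
  simp only [Nat.cast_one, one_mul, Nat.cast_zero, Int.cast_zero, sub_zero] at b3 b4
  refine ⟨?_, p.1, b3, b4, ?_⟩
  · rw [hz, E, Complex.exp_re, LL_apply]
    apply mul_neg_of_pos_of_neg (Real.exp_pos _)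
    apply Real.cos_neg_of_pi_div_two_lt_of_lt
    · simp only; nlinarith [Real.pi_pos]
    · simp only; nlinarith [Real.pi_pos]
  · rw [hz2, hz]
    congr 1
    ext
    · rfl
    · exact hy

theorem core_le {v : Vx} {z : ℂ} (hz : z ∈ PP v) (hv : ∀ k j i hj hi, v ≠ .node k j i hj hi) :
    ‖z‖ ≤ Real.exp 4 := by
  match v with
  | .a => exact hz.1
  | .b => exact hz.1
  | .c => exact hz.1
  | .node k j i hj hi => exact absurd rfl (hv k j i hj hi)

/-- A node meeting the core. -/
theorem node_core {k j i : ℕ} (hj : j < nn k) (hi : i ≤ k) {z : ℂ} (hz : z ∈ Pol k j i)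
    (hz' : ‖z‖ ≤ Real.exp 4) : k = 0 ∧ j = 0 ∧ i = 0 ∧ z.re < 0 ∧
      ∃ x : ℝ, 3 / 8 ≤ x ∧ x ≤ 5 / 8 ∧ ψ 0 z = E (x, 4) := by
  cases k with
  | zero =>
    refine ⟨rfl, ?_, by omega, pol_zero hj hi hz hz'⟩
    rw [nn_zero] at hj; omega
  | succ k =>
    exfalso
    have h1 : ‖ψ 0 z‖ ≤ Real.exp 4 := by rwa [ψ_zero]
    have h2 := X_mono' (Nat.zero_le k) h1
    exact absurd h2 (not_le.mpr (pol_out hi hz))

/-- Two distinct meeting polygons are adjacent. -/
theorem meet {v w : Vx} (hvw : v ≠ w) {z : ℂ} (hv : z ∈ PP v) (hw : z ∈ PP w) :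
    tree.Adj v w := by
  rw [tree, parGraph_adj]
  refine ⟨hvw, ?_⟩
  -- reduce to an ordered situation
  match v, w with
  | .a, .a => exact absurd rfl hvw
  | .b, .b => exact absurd rfl hvw
  | .c, .c => exact absurd rfl hvw
  | .a, .b => exact Or.inl ⟨by simp, rfl⟩
  | .b, .a => exact Or.inr ⟨by simp, rfl⟩
  | .b, .c => exact Or.inl ⟨by simp, rfl⟩
  | .c, .b => exact Or.inr ⟨by simp, rfl⟩
  | .a, .c =>
    have h1 := hv.2
    have h2 := hw.2
    linarith
  | .c, .a =>
    have h1 := hv.2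
    have h2 := hw.2
    linarith
  | .node k j i hj hi, .a =>
    obtain ⟨rfl, rfl, rfl, -, -⟩ := node_core hj hi hv hw.1
    exact Or.inl ⟨by simp, rfl⟩
  | .a, .node k j i hj hi =>
    obtain ⟨rfl, rfl, rfl, -, -⟩ := node_core hj hi hw hv.1
    exact Or.inr ⟨by simp, rfl⟩
  | .node k j i hj hi, .b =>
    obtain ⟨-, -, -, h, -⟩ := node_core hj hi hv hw.1
    exact absurd hw.2.1 (not_le.mpr h)
  | .b, .node k j i hj hi =>
    obtain ⟨-, -, -, h, -⟩ := node_core hj hi hw hv.1
    exact absurd hv.2.1 (not_le.mpr h)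
  | .node k j i hj hi, .c =>
    obtain ⟨-, -, -, h, -⟩ := node_core hj hi hv hw.1
    have := hw.2
    linarith
  | .c, .node k j i hj hi =>
    obtain ⟨-, -, -, h, -⟩ := node_core hj hi hw hv.1
    have := hv.2
    linarith
  | .node k j i hj hi, .node k' j' i' hj' hi' =>
    have key : ∀ (k j i k' j' i' : ℕ) (hj : j < nn k) (hi : i ≤ k) (hj' : j' < nn k')
        (hi' : i' ≤ k'), k < k' → z ∈ Pol k j i → z ∈ Pol k' j' i' →
        par (.node k' j' i' hj' hi') = .node k j i hj hi := by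
      intro k j i k' j' i' hj hi hj' hi' hkk hz hz'
      obtain ⟨m, rfl⟩ : ∃ m, k' = m + 1 := ⟨k' - 1, by omega⟩
      rcases eq_or_lt_of_le (Nat.lt_succ_iff.mp hkk) with rfl | hlt
      · obtain ⟨rfl, rfl, rfl, -⟩ := meet_succ hj hi hj' hi' hz hz'
        rfl
      · have h1 := X_mono' hlt (pol_in hi hz)
        exact absurd h1 (not_le.mpr (pol_out hi' hz'))
    rcases lt_trichotomy k k' with h | h | h
    · exact Or.inr ⟨by simp, key _ _ _ _ _ _ _ _ _ _ h hv hw⟩
    · subst h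
      obtain ⟨rfl, p, hp, hp', -⟩ := meet_same hj hi hj' hi' hv hw
      have e1 := hp.1
      have e2 := hp.2.1
      have e3 := hp'.1
      have e4 := hp'.2.1
      have h1 : (i : ℝ) ≤ (i' + 1 : ℕ) := by push_cast; linarith
      have h2 : (i' : ℝ) ≤ (i + 1 : ℕ) := by push_cast; linarith
      have h1' : i ≤ i' + 1 := by exact_mod_cast h1
      have h2' : i' ≤ i + 1 := by exact_mod_cast h2
      have hne : i ≠ i' := fun h => hvw (by subst h; rfl)
      rcases (by omega : i = i' + 1 ∨ i' = i + 1) with h | h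
      · subst h
        exact Or.inl ⟨by simp, rfl⟩
      · subst h
        exact Or.inr ⟨by simp, rfl⟩
    · exact Or.inl ⟨by simp, key _ _ _ _ _ _ _ _ _ _ h hw hv⟩

/-! ## The arcs -/

theorem continuous_mk (a : ℝ) {f : unitInterval → ℝ} (hf : Continuous f) :
    Continuous fun t => (⟨a, f t⟩ : ℂ) := by
  have : (fun t => (⟨a, f t⟩ : ℂ)) = fun t => (a : ℂ) + ((f t : ℝ) : ℂ) * Complex.I := by
    funext t
    apply Complex.ext <;> simp
  rw [this]
  fun_prop

theorem arc_ab : Nonempty (↥(Pa ∩ Pb) ≃ₜ unitInterval) := by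
  have he := Real.exp_pos 4
  apply arc_of_range (fun t : unitInterval =>
    (⟨0, -Real.exp 4 + 2 * Real.exp 4 * t⟩ : ℂ))
  · exact continuous_mk 0 (by fun_prop)
  · intro s t hst
    have := congrArg Complex.im hst
    simp only at this
    have h : (s : ℝ) = t := by
      have h2 : (2 * Real.exp 4) * (s : ℝ) = (2 * Real.exp 4) * t := by linarith
      exact mul_left_cancel₀ (by positivity) h2
    exact Subtype.ext h
  · ext z
    constructor
    · rintro ⟨t, rfl⟩
      have h0 := t.2.1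
      have h1 := t.2.2
      have hn : ‖(⟨0, -Real.exp 4 + 2 * Real.exp 4 * t⟩ : ℂ)‖ ≤ Real.exp 4 := by
        rw [Complex.norm_eq_sqrt_sq_add_sq]
        simp only
        apply Real.sqrt_le_iff.mpr
        refine ⟨he.le, ?_⟩
        nlinarith [mul_nonneg h0 (sub_nonneg.mpr h1), mul_pos he he]
      exact ⟨⟨hn, le_rfl⟩, ⟨hn, le_rfl, zero_le_one⟩⟩
    · rintro ⟨⟨h1, h2⟩, ⟨-, h3, -⟩⟩
      have hre : z.re = 0 := le_antisymm h2 h3
      have him := Complex.abs_im_le_norm z
      have h4 := abs_le.mp (him.trans h1)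
      refine ⟨⟨(z.im + Real.exp 4) / (2 * Real.exp 4), div_nonneg (by linarith) (by positivity),
        ?_⟩, ?_⟩
      · rw [div_le_one (by positivity)]; linarith
      · apply Complex.ext
        · simp [hre]
        · simp only
          field_simp
          ring

theorem arc_bc : Nonempty (↥(Pb ∩ Pc) ≃ₜ unitInterval) := by
  have he := Real.exp_pos 4
  have he4 := exp_four_gt
  set s := Real.sqrt (Real.exp 4 ^ 2 - 1) with hs
  have hpos : 0 < Real.exp 4 ^ 2 - 1 := by nlinarith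
  have hs0 : 0 < s := Real.sqrt_pos.mpr hpos
  have hsq : s ^ 2 = Real.exp 4 ^ 2 - 1 := Real.sq_sqrt hpos.le
  apply arc_of_range (fun t : unitInterval => (⟨1, -s + 2 * s * t⟩ : ℂ))
  · exact continuous_mk 1 (by fun_prop)
  · intro x t hst
    have := congrArg Complex.im hst
    simp only at this
    have h : (x : ℝ) = t := by
      have h2 : (2 * s) * (x : ℝ) = (2 * s) * t := by linarith
      exact mul_left_cancel₀ (by positivity) h2
    exact Subtype.ext h
  · ext z
    constructor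
    · rintro ⟨t, rfl⟩
      have h0 := t.2.1
      have h1 := t.2.2
      have hn : ‖(⟨1, -s + 2 * s * t⟩ : ℂ)‖ ≤ Real.exp 4 := by
        rw [Complex.norm_eq_sqrt_sq_add_sq]
        simp only
        apply Real.sqrt_le_iff.mpr
        refine ⟨he.le, ?_⟩
        have : (-s + 2 * s * (t : ℝ)) ^ 2 ≤ s ^ 2 := by
          nlinarith [mul_nonneg h0 (sub_nonneg.mpr h1), mul_pos hs0 hs0]
        linarith
      exact ⟨⟨hn, zero_le_one, le_rfl⟩, ⟨hn, le_rfl⟩⟩
    · rintro ⟨⟨h1, h2, h3⟩, ⟨-, h4⟩⟩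
      have hre : z.re = 1 := le_antisymm h3 h4
      have him : |z.im| ≤ s := by
        apply Real.abs_le_sqrt
        have h5 : ‖z‖ ^ 2 = z.re ^ 2 + z.im ^ 2 := by
          rw [Complex.sq_norm, Complex.normSq_apply]; ring
        have h6 : ‖z‖ ^ 2 ≤ Real.exp 4 ^ 2 := pow_le_pow_left₀ (norm_nonneg z) h1 2
        rw [hre] at h5
        linarith
      have h4 := abs_le.mp him
      refine ⟨⟨(z.im + s) / (2 * s), div_nonneg (by linarith) (by positivity), ?_⟩, ?_⟩
      · rw [div_le_one (by positivity)]; linarith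
      · apply Complex.ext
        · simp [hre]
        · simp only
          field_simp
          ring

/-- The outer arcs. -/
theorem node_zero_inter {j i : ℕ} (hj : j < nn 0) (hi : i ≤ 0) :
    Pol 0 j i ∩ Pa = Arc 0 4 (3 / 8) (5 / 8) := by
  have hj0 : j = 0 := by rw [nn_zero] at hj; omega
  have hi0 : i = 0 := by omega
  subst hj0 hi0
  ext z
  constructor
  · rintro ⟨h1, h2⟩
    obtain ⟨-, x, hx0, hx1, hx⟩ := pol_zero hj hi h1 h2.1
    exact ⟨x, hx0, hx1, hx⟩
  · rintro ⟨x, hx0, hx1, hx⟩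
    have hN : NN 0 = 1 := by simp [NN]
    refine ⟨⟨(x, 4), ⟨by simp, by norm_num, ?_, ?_⟩, hx⟩, ?_, ?_⟩
    · rw [hN, nn_zero]; unfold ell; simp; linarith
    · rw [hN, nn_zero]; unfold ell; simp; linarith
    · rw [ψ_zero] at hx
      rw [hx, norm_E]
    · rw [ψ_zero] at hx
      rw [hx, E, Complex.exp_re, LL_apply]
      apply (mul_neg_of_pos_of_neg (Real.exp_pos _) _).le
      apply Real.cos_neg_of_pi_div_two_lt_of_lt
      · simp only; nlinarith [Real.pi_pos]
      · simp only; nlinarith [Real.pi_pos]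

theorem node_succ_inter {k j : ℕ} (hj : j < nn (k + 1)) :
    Pol (k + 1) j 0 ∩ Pol k ((j / (k + 2) : ℕ) : ℤ) k =
      Arc (k + 1) 4 ((j + 3 / 8) / nn (k + 1)) ((j + 5 / 8) / nn (k + 1)) := by
  have hn := nn_pos' (k + 1)
  ext z
  constructor
  · rintro ⟨h1, h2⟩
    obtain ⟨-, -, -, x, hx0, hx1, hx⟩ :=
      meet_succ (div_lt_nn hj) le_rfl hj (Nat.zero_le _) h2 (by exact_mod_cast h1)
    refine ⟨x, ?_, ?_, hx⟩
    · rw [div_le_iff₀ hn]; linarith
    · rw [le_div_iff₀ hn]; linarith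
  · rintro ⟨x, hx0, hx1, hx⟩
    rw [div_le_iff₀ hn] at hx0
    rw [le_div_iff₀ hn] at hx1
    refine ⟨⟨(x, 4), ⟨by simp, by norm_num, ?_, ?_⟩, hx⟩, ?_⟩
    · unfold ell; simp; linarith
    · unfold ell; simp; linarith
    · exact arc_mem_prev (j' := j) (by linarith) (by linarith) hx

theorem node_same_inter {k j i : ℕ} (hj : j < nn k) (hi : i + 1 ≤ k) :
    Pol k j (i + 1) ∩ Pol k j i =
      Arc k (5 + i) ((j + ell (NN k) (5 + i)) / nn k) ((j + (1 - ell (NN k) (5 + i))) / nn k) := by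
  have hn := nn_pos' k
  ext z
  constructor
  · rintro ⟨h1, h2⟩
    obtain ⟨-, p, hp, hp', hz⟩ := meet_same hj hi hj (by omega : i ≤ k) h1 h2
    have e1 := hp.1
    have e4 := hp'.2.1
    push_cast at e1
    have hy : p.2 = 5 + i := by linarith
    have e2 := hp.2.2.1
    have e3 := hp.2.2.2
    rw [hy] at e2 e3
    push_cast at e2 e3
    refine ⟨p.1, ?_, ?_, ?_⟩
    · rw [div_le_iff₀ hn]; linarith
    · rw [le_div_iff₀ hn]; linarith
    · rw [hz]
      congr 1
      ext
      · rfl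
      · exact hy
  · rintro ⟨x, hx0, hx1, hx⟩
    rw [div_le_iff₀ hn] at hx0
    rw [le_div_iff₀ hn] at hx1
    refine ⟨⟨(x, 5 + i), ⟨?_, ?_, ?_, ?_⟩, hx⟩, ⟨(x, 5 + i), ⟨?_, ?_, ?_, ?_⟩, hx⟩⟩
    · push_cast; linarith
    · push_cast; linarith
    · push_cast; linarith
    · push_cast; linarith
    · simp only; linarith
    · simp only; linarith
    · push_cast; linarith
    · push_cast; linarith

theorem pol_le {k : ℕ} {j : ℤ} {i : ℕ} {z : ℂ} (hz : z ∈ Pol k j i) :
    ‖ψ k z‖ ≤ Real.exp (5 + i) := by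
  obtain ⟨q, hq, hz⟩ := hz
  rw [hz, norm_E]
  exact Real.exp_le_exp.mpr hq.2.1

theorem pol_ge' {k : ℕ} {j : ℤ} {i : ℕ} {z : ℂ} (hz : z ∈ Pol k j i) :
    Real.exp (4 + i) ≤ ‖ψ k z‖ := by
  obtain ⟨q, hq, hz⟩ := hz
  rw [hz, norm_E]
  exact Real.exp_le_exp.mpr hq.1

theorem arc_norm {k : ℕ} {y α β : ℝ} {z : ℂ} (hz : z ∈ Arc k y α β) :
    ‖ψ k z‖ = Real.exp y := by
  obtain ⟨x, -, -, hz⟩ := hz
  rw [hz, norm_E]

theorem arc_par (v : Vx) (hv : v ≠ .c) :
    Nonempty (↥(PP v ∩ PP (par v)) ≃ₜ unitInterval) ∧ PP v ∩ PP (par v) ⊆ frontier (PP v) ∧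
      PP v ∩ PP (par v) ⊆ frontier (PP (par v)) := by
  match v with
  | .a =>
    refine ⟨arc_ab, ?_, ?_⟩
    · rintro z ⟨⟨h1, h2⟩, ⟨-, h3, -⟩⟩
      refine ⟨subset_closure ⟨h1, h2⟩, fun hi => ?_⟩
      have h4 : Pa ⊆ {z : ℂ | z.re ≤ 0} := fun w hw => hw.2
      have h5 := interior_mono h4 hi
      rw [Complex.interior_setOfPred_re_le] at h5
      exact absurd h3 (not_le.mpr h5)
    · rintro z ⟨⟨h1, h2⟩, ⟨h1', h3, h3'⟩⟩
      refine ⟨subset_closure ⟨h1', h3, h3'⟩, fun hi => ?_⟩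
      have h4 : Pb ⊆ {z : ℂ | 0 ≤ z.re} := fun w hw => hw.2.1
      have h5 := interior_mono h4 hi
      rw [Complex.interior_setOfPred_le_re] at h5
      exact absurd h2 (not_le.mpr h5)
  | .b =>
    refine ⟨arc_bc, ?_, ?_⟩
    · rintro z ⟨⟨h1, h2, h2'⟩, ⟨-, h3⟩⟩
      refine ⟨subset_closure ⟨h1, h2, h2'⟩, fun hi => ?_⟩
      have h4 : Pb ⊆ {z : ℂ | z.re ≤ 1} := fun w hw => hw.2.2
      have h5 := interior_mono h4 hi
      rw [Complex.interior_setOfPred_re_le] at h5
      exact absurd h3 (not_le.mpr h5)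
    · rintro z ⟨⟨h1, h2, h2'⟩, ⟨h1', h3⟩⟩
      refine ⟨subset_closure ⟨h1', h3⟩, fun hi => ?_⟩
      have h4 : Pc ⊆ {z : ℂ | 1 ≤ z.re} := fun w hw => hw.2
      have h5 := interior_mono h4 hi
      rw [Complex.interior_setOfPred_le_re] at h5
      exact absurd h2' (not_le.mpr h5)
  | .c => exact absurd rfl hv
  | .node k j (i + 1) hj hi =>
    have heq : PP (.node k j (i + 1) hj hi) ∩ PP (par (.node k j (i + 1) hj hi)) = _ :=
      node_same_inter hj hi
    rw [heq]
    have hn := nn_pos' k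
    have hik : ((i : ℝ) + 1) ≤ k := by exact_mod_cast hi
    have hell := (ell_bounds (NN_ge k) (by linarith [(Nat.cast_nonneg i : (0 : ℝ) ≤ i)] :
      (4 : ℝ) ≤ 5 + i) (by unfold NN; linarith))
    refine ⟨arc_homeo ?_ ?_, ?_, ?_⟩
    · apply div_lt_div_of_pos_right _ hn
      linarith [hell.2]
    · rw [mul_div_cancel₀ _ hn.ne', mul_div_cancel₀ _ hn.ne']
      linarith [hell.1]
    · intro z hz
      have hz' := hz
      rw [← heq] at hz'
      apply frontier_of_ge (ψ k) (Real.exp_pos (5 + i)) (fun w hw => ?_) hz'.1 (arc_norm hz)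
      have := pol_ge' hw
      push_cast at this
      have h2 : (4 + ((i : ℝ) + 1)) = 5 + i := by ring
      rwa [h2] at this
    · intro z hz
      have hz' := hz
      rw [← heq] at hz'
      exact frontier_of_le (ψ k) (Real.exp_pos (5 + i)) (fun w hw => pol_le hw) hz'.2 (arc_norm hz)
  | .node 0 j 0 hj hi =>
    have heq : PP (.node 0 j 0 hj hi) ∩ PP (par (.node 0 j 0 hj hi)) = _ :=
      node_zero_inter hj hi
    rw [heq]
    refine ⟨arc_homeo (by norm_num) (by rw [nn_zero]; norm_num), ?_, ?_⟩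
    · intro z hz
      have hz' := hz
      rw [← heq] at hz'
      exact frontier_of_ge (ψ 0) (Real.exp_pos 4) (fun w hw => pol_ge hw) hz'.1 (arc_norm hz)
    · intro z hz
      have hz' := hz
      rw [← heq] at hz'
      refine frontier_of_le (ψ 0) (Real.exp_pos 4) (fun w hw => ?_) hz'.2 (arc_norm hz)
      rw [ψ_zero]
      exact hw.1
  | .node (k + 1) j 0 hj hi =>
    have heq : PP (.node (k + 1) j 0 hj hi) ∩ PP (par (.node (k + 1) j 0 hj hi)) = _ :=
      node_succ_inter hj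
    rw [heq]
    have hn := nn_pos' (k + 1)
    refine ⟨arc_homeo ?_ ?_, ?_, ?_⟩
    · apply div_lt_div_of_pos_right _ hn
      linarith
    · rw [mul_div_cancel₀ _ hn.ne', mul_div_cancel₀ _ hn.ne']
      linarith
    · intro z hz
      have hz' := hz
      rw [← heq] at hz'
      exact frontier_of_ge (ψ (k + 1)) (Real.exp_pos 4) (fun w hw => pol_ge hw) hz'.1
        (arc_norm hz)
    · intro z hz
      have hz' := hz
      rw [← heq] at hz'
      exact frontier_of_le (ψ (k + 1)) (Real.exp_pos 4) (fun w hw => pol_in le_rfl hw) hz'.2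
        (arc_norm hz)

/-! ## Finiteness -/

/-- The level of a vertex. -/
def lev : Vx → ℕ
  | .a => 0
  | .b => 0
  | .c => 0
  | .node k _ _ _ _ => k + 1

theorem lev_par (v : Vx) : lev (par v) ≤ lev v ∧ lev v ≤ lev (par v) + 1 := by
  match v with
  | .a => simp [par, lev]
  | .b => simp [par, lev]
  | .c => simp [par, lev]
  | .node k j (i + 1) hj hi => simp [par, lev]
  | .node 0 j 0 hj hi => simp [par, lev]
  | .node (k + 1) j 0 hj hi => simp [par, lev]

theorem nn_mono : Monotone nn := by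
  intro a b hab
  exact Nat.factorial_le (by omega)

theorem finite_lev (m : ℕ) : {v : Vx | lev v ≤ m}.Finite := by
  classical
  let f : ℕ × ℕ × ℕ → Vx := fun t =>
    if h : t.2.1 < nn t.1 ∧ t.2.2 ≤ t.1 then .node t.1 t.2.1 t.2.2 h.1 h.2 else .a
  have hfin : ({.a, .b, .c} ∪ f '' (((Finset.range (m + 1)) ×ˢ ((Finset.range (nn m)) ×ˢ
      (Finset.range (m + 1))) : Finset (ℕ × ℕ × ℕ)) : Set (ℕ × ℕ × ℕ)) : Set Vx).Finite :=
    (Set.toFinite _).union ((Finset.finite_toSet _).image f)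
  apply hfin.subset
  intro v hv
  match v with
  | .a => left; simp
  | .b => left; simp
  | .c => left; simp
  | .node k j i hj hi =>
    right
    have hk : k + 1 ≤ m := hv
    refine ⟨(k, j, i), ?_, ?_⟩
    · have := nn_mono (by omega : k ≤ m)
      simp only [Finset.coe_product, Finset.coe_range, mem_prod, mem_Iio]
      omega
    · simp only [f]
      rw [dif_pos ⟨hj, hi⟩]

theorem tree_locFin (v : Vx) : (tree.neighborSet v).Finite := by
  apply (finite_lev (lev v + 1)).subset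
  intro w hw
  have h : tree.Adj v w := hw
  rw [tree, parGraph_adj] at h
  obtain ⟨-, ⟨-, h⟩ | ⟨-, h⟩⟩ := h
  · have := (lev_par v).1
    rw [h] at this
    exact this.trans (Nat.le_succ _)
  · have := (lev_par w).2
    rw [h] at this
    exact this

theorem PP_locallyFinite : LocallyFinite PP := by
  intro z
  obtain ⟨m, hm⟩ := exists_nat_gt ‖z‖
  refine ⟨ball z (m - ‖z‖), ball_mem_nhds _ (by linarith), ?_⟩
  apply (finite_lev m).subset
  rintro v ⟨w, hw, hw2⟩
  rw [mem_ball] at hw2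
  have hwm : ‖w‖ < m := by
    have := norm_sub_norm_le w z
    rw [← dist_eq_norm] at this
    linarith
  match v with
  | .a => exact Nat.zero_le _
  | .b => exact Nat.zero_le _
  | .c => exact Nat.zero_le _
  | .node k j i hj hi =>
    have h1 := pol_norm hi hw
    have h2 := Real.add_one_le_exp (4 + (k : ℝ))
    have h3 : ((k + 1 : ℕ) : ℝ) ≤ m := by push_cast; linarith
    exact Nat.cast_le.mp h3

/-- The rigid surface whose asymptotically rigid mapping class group contains `ℚ`. -/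
noncomputable def RS : RigidSurface where
  V := Vx
  A := tree
  isTree := tree_isTree
  locFin := tree_locFin
  P := PP
  pt := ppt
  disc := PP_disc
  pt_mem := ppt_mem
  arc := by
    intro v w h
    rw [tree, parGraph_adj] at h
    obtain ⟨-, ⟨h1, rfl⟩ | ⟨h1, rfl⟩⟩ := h
    · exact (arc_par v h1).1
    · rw [inter_comm]
      exact (arc_par w h1).1
  arc_sub := by
    intro v w h
    rw [tree, parGraph_adj] at h
    obtain ⟨-, ⟨h1, rfl⟩ | ⟨h1, rfl⟩⟩ := h
    · exact (arc_par v h1).2.1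
    · rw [inter_comm]
      exact (arc_par w h1).2.2
  disj := by
    intro v w hvw h
    rw [Set.disjoint_left]
    intro z hz hz'
    exact h (meet hvw hz hz')
  locallyFinite := PP_locallyFinite

end Pool.Agent.Helper77.AR
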