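import Pool.Agent.Helper77.AR.Geom

/-!
# Topological facts about polygons and arcs
-/

open Set Topology Metric

namespace Pool.Agent.Helper77.AR

theorem arc_of_range {A : Set ℂ} (f : unitInterval → ℂ) (hf : Continuous f)
    (hinj : Function.Injective f) (hA : range f = A) : Nonempty (A ≃ₜ unitInterval) := by
  have h := hf.isClosedEmbedding hinj
  exact ⟨((h.isEmbedding.toHomeomorph).trans (Homeomorph.setCongr hA)).symm⟩

/-- An injective continuous image of a compact set. -/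
theorem homeo_image {X Y : Type*} [TopologicalSpace X] [TopologicalSpace Y] [T2Space Y]
    {K : Set X} (hK : IsCompact K) (f : X → Y) (hf : Continuous f) (hinj : InjOn f K)
    {A : Set Y} (hA : f '' K = A) : Nonempty (K ≃ₜ A) := by
  have : CompactSpace K := isCompact_iff_compactSpace.mp hK
  have h := (hf.comp continuous_subtype_val : Continuous fun x : K => f x).isClosedEmbedding
    (fun x y hxy => Subtype.ext (hinj x.2 y.2 hxy))
  have hr : range (fun x : K => f x) = A := by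
    rw [← hA]
    ext z
    simp
  exact ⟨(h.isEmbedding.toHomeomorph).trans (Homeomorph.setCongr hr)⟩

theorem disc_convex {K : Set ℂ} (hK : IsCompact K) (hc : Convex ℝ K)
    (hi : (interior K).Nonempty) : Nonempty (K ≃ₜ closedBall (0 : ℂ) 1) := by
  obtain ⟨h, -, h2, -⟩ := exists_homeomorph_image_interior_closure_frontier_eq_unitBall hc hi
    hK.isBounded
  rw [hK.isClosed.closure_eq] at h2
  exact ⟨(h.image K).trans (Homeomorph.setCongr h2)⟩

theorem disc_image {K : Set (ℝ × ℝ)} (hK : IsCompact K) (hc : Convex ℝ K)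
    (hi : (interior K).Nonempty) (f : ℝ × ℝ → ℂ) (hf : Continuous f) (hinj : InjOn f K)
    {A : Set ℂ} (hA : f '' K = A) : Nonempty (A ≃ₜ closedBall (0 : ℂ) 1) := by
  obtain ⟨e1⟩ := homeo_image hK f hf hinj hA
  obtain ⟨e2⟩ := homeo_image (A := LL '' K) hK LL LL.continuous LL.injective.injOn rfl
  have hi' : (interior (LL '' K)).Nonempty := by
    have : interior (LL '' K) = LL '' interior K := (LL.toHomeomorph.image_interior K).symm
    rw [this]
    exact hi.image _
  obtain ⟨e3⟩ := disc_convex (hK.image LL.continuous) (hc.linear_image LL.toLinearMap) hi'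
  exact ⟨(e1.symm.trans e2).trans e3⟩

/-! ## The trapezoids -/

theorem ell_combo (N a b y z : ℝ) (hab : a + b = 1) :
    ell N (a * y + b * z) = a * ell N y + b * ell N z := by
  unfold ell
  have : a * y + b * z - 4 = a * (y - 4) + b * (z - 4) := by
    have : (4 : ℝ) = 4 * (a + b) := by rw [hab, mul_one]
    linarith
  rw [this, add_div]
  have h2 : (3 / 8 : ℝ) = a * (3 / 8) + b * (3 / 8) := by rw [← add_mul, hab, one_mul]
  rw [mul_div_assoc, mul_div_assoc]
  linarith

theorem Tz_convex (k : ℕ) (j : ℤ) (i : ℕ) : Convex ℝ (Tz k j i) := by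
  rintro p ⟨p1, p2, p3, p4⟩ q ⟨q1, q2, q3, q4⟩ a b ha hb hab
  have hc : ∀ c : ℝ, c = a * c + b * c := fun c => by rw [← add_mul, hab, one_mul]
  refine ⟨?_, ?_, ?_, ?_⟩
  · simp only [Prod.snd_add, Prod.smul_snd, smul_eq_mul]
    have := hc (4 + i)
    nlinarith
  · simp only [Prod.snd_add, Prod.smul_snd, smul_eq_mul]
    have := hc (5 + i)
    nlinarith
  · simp only [Prod.snd_add, Prod.smul_snd, smul_eq_mul, Prod.fst_add, Prod.smul_fst]
    rw [ell_combo _ _ _ _ _ hab]
    have := hc j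
    nlinarith
  · simp only [Prod.snd_add, Prod.smul_snd, smul_eq_mul, Prod.fst_add, Prod.smul_fst]
    rw [ell_combo _ _ _ _ _ hab]
    have := hc j
    have := hc 1
    nlinarith

theorem continuous_ell (N : ℝ) : Continuous (ell N) := by unfold ell; fun_prop

theorem Tz_closed (k : ℕ) (j : ℤ) (i : ℕ) : IsClosed (Tz k j i) := by
  have h := continuous_ell (NN k)
  have h1 : Continuous fun p : ℝ × ℝ => ell (NN k) p.2 := h.comp continuous_snd
  unfold Tz
  refine ((isClosed_le ?_ ?_).and ((isClosed_le ?_ ?_).and ((isClosed_le ?_ ?_).and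
    (isClosed_le ?_ ?_)))) <;> fun_prop

theorem Tz_compact {k : ℕ} {j : ℤ} {i : ℕ} (hi : i ≤ k) : IsCompact (Tz k j i) := by
  have hn := nn_pos' k
  have h1 : IsCompact (Icc ((j + 3 / 8 : ℝ) / nn k) ((j + 5 / 8) / nn k) ×ˢ
      Icc (4 : ℝ) (4 + NN k)) := isCompact_Icc.prod isCompact_Icc
  apply h1.of_isClosed_subset (Tz_closed k j i)
  intro p hp
  obtain ⟨b1, b2, b3, b4⟩ := Tz_bounds hi hp
  refine ⟨⟨?_, ?_⟩, b1, b2⟩
  · rw [div_le_iff₀ hn]; linarith
  · rw [le_div_iff₀ hn]; linarith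

/-- The puncture in the trapezoid. -/
noncomputable def pp (k : ℕ) (j : ℤ) (i : ℕ) : ℝ × ℝ := ((j + xi (NN k) i) / nn k, 9 / 2 + i)

theorem pp_mem_interior {k : ℕ} {j : ℤ} {i : ℕ} (hi : i ≤ k) :
    pp k j i ∈ interior (Tz k j i) := by
  have hn := nn_ne k
  have hi' : (i : ℝ) ≤ NN k - 1 := by
    unfold NN
    have : (i : ℝ) ≤ k := by exact_mod_cast hi
    linarith
  have h0 : (0 : ℝ) ≤ i := Nat.cast_nonneg i
  obtain ⟨x1, x2⟩ := xi_bounds h0 hi'
  have h := continuous_ell (NN k)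
  have h1 : Continuous fun p : ℝ × ℝ => ell (NN k) p.2 := h.comp continuous_snd
  have hopen : IsOpen {p : ℝ × ℝ | (4 + i : ℝ) < p.2 ∧ p.2 < 5 + i ∧
      ell (NN k) p.2 < nn k * p.1 - j ∧ nn k * p.1 - j < 1 - ell (NN k) p.2} := by
    refine ((isOpen_lt ?_ ?_).and ((isOpen_lt ?_ ?_).and ((isOpen_lt ?_ ?_).and
      (isOpen_lt ?_ ?_)))) <;> fun_prop
  apply mem_interior.mpr
  refine ⟨_, ?_, hopen, ?_⟩
  · rintro p ⟨p1, p2, p3, p4⟩
    exact ⟨p1.le, p2.le, p3.le, p4.le⟩
  · have hell : ell (NN k) (9 / 2 + i) ≤ 7 / 16 :=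
      (ell_bounds (NN_ge k) (by linarith) (by linarith)).2
    have hx : (nn k : ℝ) * ((j + xi (NN k) i) / nn k) - j = xi (NN k) i := by
      field_simp; ring
    refine ⟨?_, ?_, ?_, ?_⟩
    · simp only [pp]; linarith
    · simp only [pp]; linarith
    · simp only [pp, hx]; linarith
    · simp only [pp, hx]; linarith

theorem int_mul_eq_zero {n : ℕ} (hn : 0 < n) {m : ℤ} (h1 : (-1 : ℝ) < n * m)
    (h2 : (n : ℝ) * m < 1) : m = 0 := by
  have h : ((n : ℤ) * m) = 0 := by
    apply int_eq_zero_of_abs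
    · push_cast; exact h1
    · push_cast; exact h2
  rcases mul_eq_zero.mp h with h | h
  · omega
  · exact h

theorem E_injOn {k : ℕ} {S : Set (ℝ × ℝ)} (hS : ∀ p ∈ S, ∀ q ∈ S,
    nn k * p.1 - nn k * q.1 < 1) : InjOn E S := by
  intro p hp q hq hpq
  obtain ⟨h1, m, h2⟩ := E_eq_iff.mp hpq
  have a1 := hS p hp q hq
  have a2 := hS q hq p hp
  rw [h2] at a1 a2
  have hm : m = 0 := int_mul_eq_zero (nn_pos k) (by linarith) (by linarith)
  ext
  · rw [h2, hm]; simp
  · exact h1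

theorem Tz_injOn {k : ℕ} {j : ℤ} {i : ℕ} (hi : i ≤ k) : InjOn E (Tz k j i) := by
  apply E_injOn (k := k)
  intro p hp q hq
  obtain ⟨b1, b2, b3, b4⟩ := Tz_bounds hi hp
  obtain ⟨c1, c2, c3, c4⟩ := Tz_bounds hi hq
  linarith

theorem pol_eq_image (k : ℕ) (j : ℤ) (i : ℕ) :
    (fun p => (ψ k).symm (E p)) '' Tz k j i = Pol k j i := by
  ext z
  constructor
  · rintro ⟨p, hp, rfl⟩
    exact ⟨p, hp, by simp⟩
  · rintro ⟨p, hp, hz⟩
    exact ⟨p, hp, by simp only; rw [← hz]; simp⟩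

theorem pol_disc {k : ℕ} {j : ℤ} {i : ℕ} (hi : i ≤ k) :
    Nonempty (Pol k j i ≃ₜ closedBall (0 : ℂ) 1) := by
  apply disc_image (Tz_compact hi) (Tz_convex k j i) ⟨_, pp_mem_interior hi⟩
    (fun p => (ψ k).symm (E p)) ((ψ k).symm.continuous.comp continuous_E) ?_
    (pol_eq_image k j i)
  intro p hp q hq h
  exact Tz_injOn hi hp hq ((ψ k).symm.injective h)

/-- The puncture of a polygon. -/
noncomputable def cpt (k : ℕ) (j : ℤ) (i : ℕ) : ℂ := (ψ k).symm (E (pp k j i))

theorem cpt_mem {k : ℕ} {j : ℤ} {i : ℕ} (hi : i ≤ k) :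
    cpt k j i ∈ interior (Pol k j i) := by
  apply mem_interior.mpr
  refine ⟨(ψ k) ⁻¹' (E '' interior (Tz k j i)), ?_,
    (isOpenMap_E _ isOpen_interior).preimage (ψ k).continuous, ?_⟩
  · rintro z ⟨p, hp, hz⟩
    exact ⟨p, interior_subset hp, hz.symm⟩
  · exact ⟨pp k j i, pp_mem_interior hi, by simp [cpt]⟩

/-! ## Arcs -/

/-- circular arcs in the coordinates of level `k` -/
def Arc (k : ℕ) (y α β : ℝ) : Set ℂ := {z | ∃ x, α ≤ x ∧ x ≤ β ∧ ψ k z = E (x, y)}

theorem arc_homeo {k : ℕ} {y α β : ℝ} (h1 : α < β) (h2 : nn k * β - nn k * α < 1) :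
    Nonempty (Arc k y α β ≃ₜ unitInterval) := by
  have hn := nn_pos' k
  have hd : 0 < β - α := sub_pos.mpr h1
  apply arc_of_range (fun t : unitInterval => (ψ k).symm (E (α + t * (β - α), y)))
  · exact (ψ k).symm.continuous.comp (continuous_E.comp (by fun_prop))
  · have hinj : InjOn E {p : ℝ × ℝ | α ≤ p.1 ∧ p.1 ≤ β} := by
      apply E_injOn (k := k)
      rintro p ⟨p1, p2⟩ q ⟨q1, q2⟩
      nlinarith
    have hm : ∀ t : unitInterval, ((α + t * (β - α), y) : ℝ × ℝ) ∈
        {p : ℝ × ℝ | α ≤ p.1 ∧ p.1 ≤ β} := by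
      intro t
      have := t.2.1
      have := t.2.2
      constructor
      · simp only; nlinarith
      · simp only; nlinarith
    intro s t hst
    have := hinj (hm s) (hm t) ((ψ k).symm.injective hst)
    have h3 := congrArg Prod.fst this
    simp only at h3
    have h4 : (s : ℝ) * (β - α) = t * (β - α) := by linarith
    exact Subtype.ext (mul_right_cancel₀ hd.ne' h4)
  · ext z
    constructor
    · rintro ⟨t, rfl⟩
      have := t.2.1
      have := t.2.2
      exact ⟨α + t * (β - α), by nlinarith, by nlinarith, by simp⟩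
    · rintro ⟨x, x1, x2, hz⟩
      refine ⟨⟨(x - α) / (β - α), div_nonneg (by linarith) hd.le, ?_⟩, ?_⟩
      · rw [div_le_one hd]; linarith
      · simp only
        have : α + (x - α) / (β - α) * (β - α) = x := by
          rw [div_mul_cancel₀ _ hd.ne']; ring
        rw [this, ← hz]
        simp

theorem frontier_of_le (e : ℂ ≃ₜ ℂ) {A : Set ℂ} {r : ℝ} (hr : 0 < r)
    (hA : ∀ z ∈ A, ‖e z‖ ≤ r) {z : ℂ} (hz : z ∈ A) (hzr : ‖e z‖ = r) : z ∈ frontier A := by
  refine ⟨subset_closure hz, fun hi => ?_⟩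
  have h1 : A ⊆ e ⁻¹' closedBall 0 r := fun w hw => by
    rw [mem_preimage, mem_closedBall, dist_zero_right]; exact hA w hw
  have h2 := interior_mono h1 hi
  rw [← e.preimage_interior, interior_closedBall _ hr.ne', mem_preimage, mem_ball,
    dist_zero_right, hzr] at h2
  exact lt_irrefl _ h2

theorem frontier_of_ge (e : ℂ ≃ₜ ℂ) {A : Set ℂ} {r : ℝ} (hr : 0 < r)
    (hA : ∀ z ∈ A, r ≤ ‖e z‖) {z : ℂ} (hz : z ∈ A) (hzr : ‖e z‖ = r) : z ∈ frontier A := by
  refine ⟨subset_closure hz, fun hi => ?_⟩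
  have h1 : A ⊆ e ⁻¹' (ball 0 r)ᶜ := fun w hw => by
    rw [mem_preimage, mem_compl_iff, mem_ball, dist_zero_right, not_lt]; exact hA w hw
  have h2 := interior_mono h1 hi
  rw [← e.preimage_interior, interior_compl, closure_ball _ hr.ne', mem_preimage,
    mem_compl_iff, mem_closedBall, dist_zero_right, hzr] at h2
  exact h2 le_rfl

end Pool.Agent.Helper77.AR
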