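import Mathlib

/-!
# Winding once around the origin

Lifts through the exponential, and the notion of a loop in `ℂ ∖ {0}` which winds exactly once
positively around `0`.
-/

open Complex hiding I
open Set Topology
open scoped unitInterval

namespace Pool.Agent.Helper77.AR

theorem const_of_exp_const {X : Type*} [TopologicalSpace X] [PreconnectedSpace X] {f : X → ℂ}
    (hf : Continuous f) (h : ∀ x y, exp (f x) = exp (f y)) (x y : X) : f x = f y := by
  refine isCoveringMap_exp.const_of_comp hf ?_ x y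
  intro a b
  exact Subtype.ext (h a b)

theorem eq_of_exp_eq {X : Type*} [TopologicalSpace X] [PreconnectedSpace X] {f g : X → ℂ}
    (hf : Continuous f) (hg : Continuous g) (h : ∀ x, exp (f x) = exp (g x)) (x₀ : X)
    (h0 : f x₀ = g x₀) (x : X) : f x = g x := by
  have hc : Continuous fun x => f x - g x := hf.sub hg
  have := const_of_exp_const hc (fun a b => by simp [exp_sub, h, exp_ne_zero]) x x₀
  simp only [h0, sub_self] at this
  exact sub_eq_zero.mp this

/-- Lifting a nowhere vanishing map of the square through the exponential. -/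
theorem lift_square (K : I × I → ℂ) (hKc : Continuous K) (hK : ∀ p, K p ≠ 0) (L₀ : I → ℂ)
    (hL₀ : Continuous L₀) (h0 : ∀ s, exp (L₀ s) = K (0, s)) :
    ∃ L : I × I → ℂ, Continuous L ∧ (∀ p, exp (L p) = K p) ∧ ∀ s, L (0, s) = L₀ s := by
  let K' : C(I × I, {z : ℂ // z ≠ 0}) := ⟨fun p => ⟨K p, hK p⟩, by fun_prop⟩
  let f : C(I, ℂ) := ⟨L₀, hL₀⟩
  have H0 : ∀ a, K' (0, a) = (⟨exp (f a), exp_ne_zero _⟩ : {z : ℂ // z ≠ 0}) := fun a =>
    Subtype.ext (h0 a).symm
  refine ⟨isCoveringMap_exp.liftHomotopy K' f H0, ContinuousMap.continuous _, ?_, ?_⟩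
  · intro p
    have := congrFun (isCoveringMap_exp.liftHomotopy_lifts K' f H0) p
    exact congrArg Subtype.val this
  · intro s
    exact isCoveringMap_exp.liftHomotopy_zero K' f H0 s

/-- The loop `c : [0,1] → ℂ` avoids `0` and winds exactly once, positively, around `0`: it has a
continuous logarithm whose variation is `2πi`. -/
def WindsOnce (c : I → ℂ) : Prop :=
  ∃ L : I → ℂ, Continuous L ∧ (∀ s, exp (L s) = c s) ∧ L 1 - L 0 = 2 * Real.pi * Complex.I

theorem windsOnce_of_homotopy (K : I × I → ℂ) (hKc : Continuous K) (hK : ∀ p, K p ≠ 0)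
    (hloop : ∀ t, K (t, 0) = K (t, 1)) (h : WindsOnce fun s => K (0, s)) (t : I) :
    WindsOnce fun s => K (t, s) := by
  obtain ⟨L₀, hL₀, hexp, hvar⟩ := h
  obtain ⟨L, hL, hLe, hL0⟩ := lift_square K hKc hK L₀ hL₀ hexp
  refine ⟨fun s => L (t, s), by fun_prop, fun s => hLe _, ?_⟩
  have hc : Continuous fun t => L (t, 1) - L (t, 0) := by fun_prop
  have := const_of_exp_const hc (fun a b => by
    rw [exp_sub, exp_sub, hLe, hLe, hLe, hLe, hloop a, hloop b, div_self (hK _),
      div_self (hK _)]) t 0
  simp only [hL0] at this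
  rw [this, hvar]

theorem windsOnce_of_homotopy' (K : I × I → ℂ) (hKc : Continuous K) (hK : ∀ p, K p ≠ 0)
    (hloop : ∀ t, K (t, 0) = K (t, 1)) (h : WindsOnce fun s => K (1, s)) (t : I) :
    WindsOnce fun s => K (t, s) := by
  have := windsOnce_of_homotopy (fun p => K (σ p.1, p.2)) (by fun_prop) (fun p => hK _)
    (fun t => hloop _) (by simpa using h) (σ t)
  simpa using this

end Pool.Agent.Helper77.AR
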